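import Pool.Agent.H842.CR.Comb

/-!
# Relations between values of the sawtooth function
-/

set_option linter.unusedSectionVars false

open Finset

namespace Pool.Agent.H842.CW

open Pool.Agent.H916R2 Pool.Agent.H842.CR

theorem odd_zero4 {r : ZMod 4 → ℚ} (hr : ∀ b, r (-b) = - r b)
    (h : ∀ t : (ZMod 4)ˣ, ∑ b, r (t * b) * (saw b : ℚ) = 0) : ∀ b, r b = 0 := by
  have h0 : r 0 = 0 := by
    have := hr 0
    rw [neg_zero] at this
    linarith
  have h2 : r 2 = 0 := by
    have := hr 2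
    have h3 : (-2 : ZMod 4) = 2 := by decide
    rw [h3] at this
    linarith
  have h3 : r 3 = - r 1 := by
    have := hr 1
    have h3 : (-1 : ZMod 4) = 3 := by decide
    rw [h3] at this
    exact this
  have h4 := h 1
  rw [Units.val_one] at h4
  have h5 : ∑ b : ZMod 4, r (1 * b) * (saw b : ℚ) = r 0 * (saw (0 : ZMod 4) : ℚ) +
      r 1 * (saw (1 : ZMod 4) : ℚ) + r 2 * (saw (2 : ZMod 4) : ℚ) +
      r 3 * (saw (3 : ZMod 4) : ℚ) := by
    simp only [one_mul]
    exact Fin.sum_univ_four (fun b : ZMod 4 => r b * (saw b : ℚ))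
  have s0 : saw (0 : ZMod 4) = 0 := by decide
  have s1 : saw (1 : ZMod 4) = -2 := by decide
  have s2 : saw (2 : ZMod 4) = 0 := by decide
  have s3 : saw (3 : ZMod 4) = 2 := by decide
  rw [h5, s0, s1, s2, s3, h3] at h4
  push_cast at h4
  have h1 : r 1 = 0 := by linarith
  have h3' : r 3 = 0 := by rw [h3, h1, neg_zero]
  intro b
  have hb : b = 0 ∨ b = 1 ∨ b = 2 ∨ b = 3 := by
    revert b
    decide
  rcases hb with rfl | rfl | rfl | rfl
  · exact h0
  · exact h1
  · exact h2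
  · exact h3'

theorem odd_zero' {q : ℕ} [NeZero q] (hq : q = 4 ∨ q.Prime ∧ q ≠ 2) {r : ZMod q → ℚ}
    (hr : ∀ b, r (-b) = - r b)
    (h : ∀ t : (ZMod q)ˣ, ∑ b, r (t * b) * (saw b : ℚ) = 0) : ∀ b, r b = 0 := by
  rcases hq with rfl | ⟨hp, -⟩
  · apply odd_zero4 hr
    intro t
    rw [← h t]
  · have : Fact q.Prime := ⟨hp⟩
    apply odd_zero hr
    intro t
    rw [← h t]

theorem count_zero {q : ℕ} [NeZero q] (hq : q = 4 ∨ q.Prime ∧ q ≠ 2) {n : ℕ} {β : Fin n → ZMod q}
    {I : Finset (Fin n)} (h : ∀ t : (ZMod q)ˣ, ∑ a ∈ I, (saw ((t : ZMod q) * β a) : ℚ) = 0)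
    (hno : ∀ a ∈ I, ∀ a' ∈ I, β a + β a' ≠ 0) : I = ∅ := by
  classical
  set r : ZMod q → ℚ := fun b => ∑ a ∈ I, ((if β a = b then (1 : ℚ) else 0) -
    (if β a = -b then 1 else 0)) with hr
  have hodd : ∀ b, r (-b) = - r b := by
    intro b
    rw [hr]
    simp only
    rw [← Finset.sum_neg_distrib]
    refine Finset.sum_congr rfl fun a _ => ?_
    rw [neg_neg]
    ring
  have hsum : ∀ t : (ZMod q)ˣ, ∑ b, r (t * b) * (saw b : ℚ) = 0 := by
    intro t
    have h1 : ∀ a, ∑ b : ZMod q, ((if β a = t * b then (1 : ℚ) else 0) -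
        (if β a = -(t * b) then 1 else 0)) * (saw b : ℚ) =
        2 * (saw (((t⁻¹ : (ZMod q)ˣ) : ZMod q) * β a) : ℚ) := by
      intro a
      have e1 : ∀ b : ZMod q, (β a = t * b) ↔ (b = ((t⁻¹ : (ZMod q)ˣ) : ZMod q) * β a) := by
        intro b
        constructor
        · intro h
          rw [h, ← mul_assoc, Units.inv_mul, one_mul]
        · intro h
          rw [h, ← mul_assoc, Units.mul_inv, one_mul]
      have e2 : ∀ b : ZMod q, (β a = -(t * b)) ↔ (b = -(((t⁻¹ : (ZMod q)ˣ) : ZMod q) * β a)) := by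
        intro b
        constructor
        · intro h
          rw [h, mul_neg, neg_neg, ← mul_assoc, Units.inv_mul, one_mul]
        · intro h
          rw [h, mul_neg, neg_neg, ← mul_assoc, Units.mul_inv, one_mul]
      simp only [e1, e2, sub_mul, ite_mul, one_mul, zero_mul, Finset.sum_sub_distrib,
        Finset.sum_ite_eq', Finset.mem_univ, if_true]
      rw [saw_neg]
      push_cast
      ring
    have h2 : ∑ b, r (t * b) * (saw b : ℚ) = ∑ a ∈ I, 2 * (saw (((t⁻¹ : (ZMod q)ˣ) : ZMod q) * β a) : ℚ) := by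
      rw [← Finset.sum_congr rfl fun a _ => h1 a, Finset.sum_comm]
      refine Finset.sum_congr rfl fun b _ => ?_
      rw [hr]
      simp only
      rw [Finset.sum_mul]
    rw [h2, ← Finset.mul_sum, h t⁻¹, mul_zero]
  have hz := odd_zero' hq hodd hsum
  by_contra hne
  obtain ⟨a0, ha0⟩ := Finset.nonempty_iff_ne_empty.2 hne
  have h1 := hz (β a0)
  have h2 : r (β a0) = ∑ a ∈ I, (if β a = β a0 then (1 : ℚ) else 0) := by
    rw [hr]
    simp only
    refine Finset.sum_congr rfl fun a ha => ?_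
    rw [if_neg (c := β a = -β a0), sub_zero]
    intro h
    exact hno a ha a0 ha0 (by rw [h, neg_add_cancel])
  rw [h2] at h1
  have h3 : (1 : ℚ) ≤ ∑ a ∈ I, (if β a = β a0 then (1 : ℚ) else 0) := by
    have h4 : (if β a0 = β a0 then (1 : ℚ) else 0) ≤
        ∑ a ∈ I, (if β a = β a0 then (1 : ℚ) else 0) :=
      Finset.single_le_sum (f := fun a => if β a = β a0 then (1 : ℚ) else 0)
        (fun a _ => by split_ifs <;> norm_num) ha0
    rwa [if_pos rfl] at h4
  linarith

/-- units with prescribed residues -/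
theorem exists_unitT {d q : ℕ} [NeZero d] (hqd : q ∣ d) (hq : q = 4 ∨ q.Prime ∧ q ≠ 2)
    (t0 : (ZMod q)ˣ) (s : Bool) : ∃ T : (ZMod d)ˣ, (((T : ZMod d).val : ℕ) : ZMod q) = t0 ∧
      ∀ q' : ℕ, q' ∣ d → q'.Coprime q → (((T : ZMod d).val : ℕ) : ZMod q') =
        if s then 1 else -1 := by
  have hd0 : d ≠ 0 := NeZero.ne d
  obtain ⟨p, e, hp, hpe⟩ : ∃ p e : ℕ, p.Prime ∧ q = p ^ e ∧ 0 < e := by
    rcases hq with rfl | ⟨hp, -⟩
    · exact ⟨2, 2, Nat.prime_two, by norm_num, by norm_num⟩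
    · exact ⟨q, 1, hp, (pow_one q).symm, one_pos⟩
  obtain ⟨hpe, he⟩ := hpe
  set n1 := p ^ d.factorization p with hn1
  set n2 := d / p ^ d.factorization p with hn2
  have h12 : n1 * n2 = d := Nat.ordProj_mul_ordCompl_eq_self d p
  have hpn2 : p.Coprime n2 := Nat.coprime_ordCompl hp hd0
  have hcop : n1.Coprime n2 := Nat.Coprime.pow_left _ hpn2
  have hqn2 : q.Coprime n2 := by
    rw [hpe]
    exact Nat.Coprime.pow_left _ hpn2
  have hqn1 : q ∣ n1 := by
    apply hqn2.dvd_of_dvd_mul_right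
    rw [h12]
    exact hqd
  have hn10 : n1 ≠ 0 := by
    rintro h
    rw [h, zero_mul] at h12
    exact hd0 h12.symm
  have hn20 : n2 ≠ 0 := by
    rintro h
    rw [h, mul_zero] at h12
    exact hd0 h12.symm
  have : NeZero n1 := ⟨hn10⟩
  obtain ⟨τ, hτ⟩ := ZMod.unitsMap_surjective hqn1 t0
  obtain ⟨k, hk1, hk2⟩ := Nat.chineseRemainder hcop (τ : ZMod n1).val (if s then 1 else n2 - 1)
  have hkn1 : k.Coprime n1 := by
    have h1 : (τ : ZMod n1).val.Coprime n1 := ZMod.val_coe_unit_coprime τ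
    unfold Nat.Coprime at h1 ⊢
    rw [← h1]
    exact hk1.gcd_eq
  have hkn2 : k.Coprime n2 := by
    have h1 : (if s then 1 else n2 - 1).Coprime n2 := by
      cases s
      · simp only [Bool.false_eq_true, if_false]
        rw [Nat.coprime_comm, Nat.coprime_self_sub_right (Nat.one_le_iff_ne_zero.2 hn20)]
        exact Nat.coprime_one_right n2
      · simp
    unfold Nat.Coprime at h1 ⊢
    rw [← h1]
    exact hk2.gcd_eq
  have hkd : k.Coprime d := by
    rw [← h12]
    exact Nat.Coprime.mul_right hkn1 hkn2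
  refine ⟨ZMod.unitOfCoprime k hkd, ?_, ?_⟩
  · rw [ZMod.coe_unitOfCoprime, ZMod.val_natCast]
    have h1 : ((k % d : ℕ) : ZMod q) = (k : ZMod q) := by
      rw [ZMod.natCast_eq_natCast_iff]
      exact (Nat.mod_modEq k d).of_dvd hqd
    have h2 : (k : ZMod q) = (((τ : ZMod n1).val : ℕ) : ZMod q) := by
      rw [ZMod.natCast_eq_natCast_iff]
      exact hk1.of_dvd hqn1
    rw [h1, h2, ← hτ, ZMod.unitsMap_val, ZMod.natCast_val]
  · intro q' hq'd hq'q
    have hq'p : q'.Coprime p := by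
      rw [hpe] at hq'q
      exact (Nat.coprime_pow_right_iff he _ _).1 hq'q
    have hq'n1 : q'.Coprime n1 := Nat.Coprime.pow_right _ hq'p
    have hq'n2 : q' ∣ n2 := by
      apply hq'n1.dvd_of_dvd_mul_left
      rw [h12]
      exact hq'd
    rw [ZMod.coe_unitOfCoprime, ZMod.val_natCast]
    have h1 : ((k % d : ℕ) : ZMod q') = (k : ZMod q') := by
      rw [ZMod.natCast_eq_natCast_iff]
      exact (Nat.mod_modEq k d).of_dvd hq'd
    have h2 : (k : ZMod q') = ((if s then 1 else n2 - 1 : ℕ) : ZMod q') := by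
      rw [ZMod.natCast_eq_natCast_iff]
      exact hk2.of_dvd hq'n2
    rw [h1, h2]
    cases s
    · simp only [Bool.false_eq_true, if_false]
      rw [Nat.cast_sub (Nat.one_le_iff_ne_zero.2 hn20), Nat.cast_one,
        (ZMod.natCast_eq_zero_iff n2 q').2 hq'n2, zero_sub]
    · simp

theorem coprime_of {q q' : ℕ} (hq : q = 4 ∨ q.Prime ∧ q ≠ 2) (hq' : q' = 4 ∨ q'.Prime ∧ q' ≠ 2)
    (hne : q' ≠ q) : q'.Coprime q := by
  have h4 : ∀ p : ℕ, p.Prime → p ≠ 2 → p.Coprime 4 := by
    intro p hp h2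
    have : p.Coprime (2 ^ 2) := Nat.Coprime.pow_right 2
      ((Nat.coprime_primes hp Nat.prime_two).2 h2)
    exact this
  rcases hq with rfl | ⟨hp, h2⟩
  · rcases hq' with rfl | ⟨hp', h2'⟩
    · exact absurd rfl hne
    · exact h4 q' hp' h2'
  · rcases hq' with rfl | ⟨hp', h2'⟩
    · exact (h4 q hp h2).symm
    · exact (Nat.coprime_primes hp' hp).2 hne

/-- **There are no relations** for different orders which are odd primes or four. -/
theorem no_relations {d : ℕ} [NeZero d] {ι : Type} [DecidableEq ι] {q : ι → ℕ}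
    (hq : ∀ i, q i = 4 ∨ (q i).Prime ∧ q i ≠ 2) (hinj : Function.Injective q) {r : ℕ}
    {i : Fin r → ι} (hd : ∀ a, q (i a) ∣ d) {β : Fin r → ℕ} {C : ι → ℚ} (hC : ∀ i, C i ≠ 0)
    (hrel : ∀ t : (ZMod d)ˣ, ∑ a, C (i a) *
      (saw (((t : ZMod d).val * β a : ℕ) : ZMod (q (i a))) : ℚ) = 0)
    (hno : ∀ a a', i a = i a' → ((β a + β a' : ℕ) : ZMod (q (i a))) ≠ 0) : r = 0 := by
  by_contra hr
  obtain ⟨a0⟩ : Nonempty (Fin r) := ⟨⟨0, Nat.pos_of_ne_zero hr⟩⟩
  have hq0 : ∀ j, NeZero (q j) := fun j => ⟨by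
    rcases hq j with h | ⟨h, -⟩
    · omega
    · exact h.ne_zero⟩
  set i0 := i a0 with hi0
  have hI : univ.filter (fun a => i a = i0) = ∅ := by
    apply count_zero (q := q i0) (hq i0) (β := fun a => (β a : ZMod (q i0)))
    · intro t0
      obtain ⟨T1, h1, h1'⟩ := exists_unitT (hd a0) (hq i0) t0 true
      obtain ⟨T2, h2, h2'⟩ := exists_unitT (hd a0) (hq i0) t0 false
      have e1 := hrel T1
      have e2 := hrel T2
      have e3 : ∑ a, (C (i a) * (saw (((T1 : ZMod d).val * β a : ℕ) : ZMod (q (i a))) : ℚ) +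
          C (i a) * (saw (((T2 : ZMod d).val * β a : ℕ) : ZMod (q (i a))) : ℚ)) = 0 := by
        rw [Finset.sum_add_distrib, e1, e2, add_zero]
      have e4 : ∀ a, (C (i a) * (saw (((T1 : ZMod d).val * β a : ℕ) : ZMod (q (i a))) : ℚ) +
          C (i a) * (saw (((T2 : ZMod d).val * β a : ℕ) : ZMod (q (i a))) : ℚ)) =
          if i a = i0 then 2 * C i0 * (saw ((t0 : ZMod (q i0)) * (β a : ZMod (q i0))) : ℚ) else 0 := by
        intro a
        split_ifs with ha
        · have h3 : ∀ j, j = i0 → (C j * (saw (((T1 : ZMod d).val * β a : ℕ) : ZMod (q j)) : ℚ) +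
              C j * (saw (((T2 : ZMod d).val * β a : ℕ) : ZMod (q j)) : ℚ)) =
              2 * C i0 * (saw ((t0 : ZMod (q i0)) * (β a : ZMod (q i0))) : ℚ) := by
            rintro j rfl
            rw [Nat.cast_mul, Nat.cast_mul, h1, h2]
            ring
          exact h3 _ ha
        · have hne : q (i a) ≠ q i0 := fun h => ha (hinj h)
          have hc := coprime_of (hq i0) (hq (i a)) hne
          rw [Nat.cast_mul, Nat.cast_mul, h1' _ (hd a) hc, h2' _ (hd a) hc]
          simp only [if_true, Bool.false_eq_true, if_false]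
          rw [one_mul, neg_mul, one_mul, saw_neg]
          push_cast
          ring
      rw [Finset.sum_congr rfl fun a _ => e4 a, ← Finset.sum_filter, ← Finset.mul_sum] at e3
      rcases mul_eq_zero.1 e3 with h | h
      · exfalso
        rcases mul_eq_zero.1 h with h | h
        · norm_num at h
        · exact hC i0 h
      · exact h
    · intro a ha a' ha'
      have h1 := (Finset.mem_filter.1 ha).2
      have h2 := (Finset.mem_filter.1 ha').2
      have h3 := hno a a' (h1.trans h2.symm)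
      rw [h1] at h3
      push_cast at h3
      exact h3
  have : a0 ∈ univ.filter (fun a => i a = i0) := Finset.mem_filter.2 ⟨Finset.mem_univ _, rfl⟩
  rw [hI] at this
  exact absurd this (Finset.notMem_empty _)

end Pool.Agent.H842.CW
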