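import Pool.Agent.H842.CW.Arith

/-!
# Distribution relations
-/

set_option linter.unusedSectionVars false

open Finset

namespace Pool.Agent.H842.CW

open Pool.Agent.H916R2 Pool.Agent.H842.CR

theorem saw_ne' {e : ℕ} {c : ZMod e} (h : c ≠ 0) : saw c = 2 * (c.val : ℤ) - e := by
  unfold saw
  rw [if_neg h]

theorem cast_ne_of_lt {q n : ℕ} (h0 : 0 < n) (hn : n < q) : ((n : ℕ) : ZMod q) ≠ 0 := by
  intro h
  rw [ZMod.natCast_eq_zero_iff] at h
  exact absurd (Nat.le_of_dvd h0 h) (by omega)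

theorem saw_natCast {q n : ℕ} (h0 : 0 < n) (hn : n < q) : saw ((n : ℕ) : ZMod q) = 2 * n - q := by
  rw [saw_ne' (cast_ne_of_lt h0 hn), ZMod.val_natCast, Nat.mod_eq_of_lt hn]

/-- periodic sums -/
theorem sum_periodic {l : ℕ} [NeZero l] {G : ℕ → ℤ} (hG : ∀ n n' : ℕ, (n : ZMod l) = n' → G n = G n')
    {t : ℕ} (ht : t.Coprime l) (a : ℕ) :
    ∑ s ∈ range l, G (a + t * s) = ∑ s ∈ range l, G s := by
  have h1 : ∀ F : ZMod l → ℤ, ∑ s ∈ range l, F (s : ZMod l) = ∑ z : ZMod l, F z := by
    intro F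
    refine Finset.sum_bij' (fun s _ => (s : ZMod l)) (fun z _ => z.val) ?_ ?_ ?_ ?_ ?_
    · intro s _
      exact Finset.mem_univ _
    · intro z _
      exact Finset.mem_range.2 (ZMod.val_lt z)
    · intro s hs
      rw [ZMod.val_natCast, Nat.mod_eq_of_lt (Finset.mem_range.1 hs)]
    · intro z _
      exact ZMod.natCast_zmod_val z
    · intro s _
      rfl
  have h2 : ∀ n : ℕ, G n = G (n : ZMod l).val := by
    intro n
    apply hG
    rw [ZMod.natCast_zmod_val]
  let u := ZMod.unitOfCoprime t ht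
  have h3 : ∑ s ∈ range l, G (a + t * s) = ∑ s ∈ range l,
      (fun z : ZMod l => G ((a : ZMod l) + (t : ZMod l) * z).val) (s : ZMod l) := by
    refine Finset.sum_congr rfl fun s _ => ?_
    rw [h2 (a + t * s)]
    push_cast
    rfl
  have h4 : ∑ s ∈ range l, G s = ∑ s ∈ range l, (fun z : ZMod l => G z.val) (s : ZMod l) :=
    Finset.sum_congr rfl fun s _ => h2 s
  have h5 : ∑ z : ZMod l, (fun z : ZMod l => G ((a : ZMod l) + (t : ZMod l) * z).val) z =
      ∑ z : ZMod l, (fun z : ZMod l => G z.val) z := by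
    refine Fintype.sum_equiv ((Units.mulLeft u).trans (Equiv.addLeft (a : ZMod l))) _ _ fun z => ?_
    rfl
  exact h3.trans ((h1 _).trans (h5.trans ((h1 _).symm.trans h4.symm)))

/-- the distribution relation of the sawtooth function -/
theorem saw_dist {l m : ℕ} (hl : 0 < l) (hm : 0 < m) {a : ℕ} (ha : a % m ≠ 0) {t : ℕ}
    (ht : t.Coprime l) :
    ∑ s ∈ range l, saw ((a + t * s * m : ℕ) : ZMod (l * m)) = saw ((l * a : ℕ) : ZMod (l * m)) := by
  have : NeZero l := ⟨hl.ne'⟩
  set t0 := a % m with ht0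
  set k := a / m with hk
  have hak : a = t0 + k * m := by
    rw [ht0, hk, mul_comm]
    exact (Nat.mod_add_div a m).symm
  have ht0m : t0 < m := Nat.mod_lt _ hm
  let G : ℕ → ℤ := fun n => saw ((t0 + n * m : ℕ) : ZMod (l * m))
  have hG : ∀ n n' : ℕ, (n : ZMod l) = n' → G n = G n' := by
    intro n n' h
    show saw _ = saw _
    congr 1
    rw [ZMod.natCast_eq_natCast_iff] at h ⊢
    exact Nat.ModEq.add_left _ (Nat.ModEq.mul_right' m h)
  have h1 : ∑ s ∈ range l, saw ((a + t * s * m : ℕ) : ZMod (l * m)) =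
      ∑ s ∈ range l, G (k + t * s) := by
    refine Finset.sum_congr rfl fun s _ => ?_
    show _ = saw _
    congr 2
    conv_lhs => rw [hak]
    ring
  rw [h1, sum_periodic hG ht]
  have h2 : ∀ s ∈ range l, G s = 2 * ((t0 : ℤ) + s * m) - (l * m : ℕ) := by
    intro s hs
    have hs' := Finset.mem_range.1 hs
    show saw _ = _
    rw [saw_natCast (by omega)]
    · push_cast
      ring
    · calc t0 + s * m < m + s * m := by omega
        _ = (s + 1) * m := by ring
        _ ≤ l * m := Nat.mul_le_mul_right m hs'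
  rw [Finset.sum_congr rfl h2]
  have h3 : ((l * a : ℕ) : ZMod (l * m)) = ((l * t0 : ℕ) : ZMod (l * m)) := by
    rw [ZMod.natCast_eq_natCast_iff]
    conv_lhs => rw [hak]
    have : l * (t0 + k * m) = l * t0 + k * (l * m) := by ring
    rw [this]
    exact (Nat.modEq_zero_iff_dvd.2 (Dvd.intro_left k rfl)).add_left (l * t0)
  rw [h3, saw_natCast (Nat.mul_pos hl (Nat.pos_of_ne_zero ha))
    (Nat.mul_lt_mul_of_pos_left ht0m hl)]
  rw [Finset.sum_sub_distrib, ← Finset.mul_sum, Finset.sum_add_distrib, ← Finset.sum_mul]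
  simp only [Finset.sum_const, Finset.card_range, nsmul_eq_mul]
  have h4 : (∑ s ∈ range l, (s : ℤ)) * 2 = l * (l - 1) := by
    have h5 := Finset.sum_range_id_mul_two l
    have h6 : ((∑ s ∈ range l, s : ℕ) : ℤ) * 2 = l * ((l - 1 : ℕ) : ℤ) := by
      exact_mod_cast h5
    rw [Nat.cast_sub hl] at h6
    push_cast at h6
    exact h6
  push_cast
  linear_combination (m : ℤ) * h4

/-- **Relations for composite orders.** -/
theorem exists_rel {q : ℕ} (hq : 3 ≤ q) (hbad : ¬ (q = 4 ∨ q.Prime ∧ q ≠ 2)) :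
    ∃ (r : ℕ) (β : Fin r → ℕ), 0 < r ∧ (∀ a a', ((β a + β a' : ℕ) : ZMod q) ≠ 0) ∧
      ∀ t : ℕ, t.Coprime q → ∑ a, saw ((t * β a : ℕ) : ZMod q) = 0 := by
  push Not at hbad
  obtain ⟨h4, hpr⟩ := hbad
  have hnp : ¬ q.Prime := by
    intro h
    have := hpr h
    omega
  set l := q.minFac with hl
  have hlp : l.Prime := Nat.minFac_prime (by omega)
  obtain ⟨m, hm⟩ := Nat.minFac_dvd q
  rw [← hl] at hm
  have hsq : l ^ 2 ≤ q := Nat.minFac_sq_le_self (by omega) hnp
  have hl2 := hlp.two_le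
  have hlm : l ≤ m := by
    by_contra h
    push Not at h
    have : l * m < l * l := Nat.mul_lt_mul_of_pos_left h hlp.pos
    rw [← hm] at this
    rw [pow_two] at hsq
    omega
  have hm3 : 3 ≤ m := by
    by_contra h
    have h2 : m = 2 := by omega
    have h3 : l = 2 := by omega
    rw [h2, h3] at hm
    omega
  have hmq : m ∣ q := ⟨l, by rw [hm, mul_comm]⟩
  have hlq : l ≤ q := by
    rw [hm]
    exact Nat.le_mul_of_pos_right _ (by omega)
  refine ⟨l + 1, Fin.snoc (α := fun _ => ℕ) (fun s : Fin l => 1 + s * m) (q - l), by omega, ?_, ?_⟩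
  · have key : ∀ n : ℕ, ((n : ℕ) : ZMod q) = 0 → m ∣ n := by
      intro n h
      rw [ZMod.natCast_eq_zero_iff] at h
      exact hmq.trans h
    have c1 : ∀ s s' : ℕ, ((1 + s * m + (1 + s' * m) : ℕ) : ZMod q) ≠ 0 := by
      intro s s' h
      have h1 := key _ h
      have h2 : m ∣ 2 := by
        have h3 : 1 + s * m + (1 + s' * m) = 2 + (s + s') * m := by ring
        rw [h3] at h1
        exact (Nat.dvd_add_left (Dvd.intro_left _ rfl)).1 h1
      have := Nat.le_of_dvd (by norm_num) h2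
      omega
    have c2 : ∀ s : ℕ, ((1 + s * m + (q - l) : ℕ) : ZMod q) ≠ 0 := by
      intro s h
      have h1 := key _ h
      have h2 : m ∣ l - 1 := by
        have h3 : (1 + s * m + (q - l)) + (l - 1) = q + s * m := by omega
        have h4 : m ∣ (1 + s * m + (q - l)) + (l - 1) := by
          rw [h3]
          exact Dvd.dvd.add hmq (Dvd.intro_left _ rfl)
        exact (Nat.dvd_add_right h1).1 h4
      have := Nat.le_of_dvd (by omega) h2
      omega
    have c3 : ((q - l + (q - l) : ℕ) : ZMod q) ≠ 0 := by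
      intro h
      rw [ZMod.natCast_eq_zero_iff] at h
      have h1 : q ∣ 2 * l := by
        have h3 : (q - l + (q - l)) + 2 * l = 2 * q := by omega
        have h4 : q ∣ (q - l + (q - l)) + 2 * l := by
          rw [h3]
          exact Dvd.intro_left _ rfl
        exact (Nat.dvd_add_right h).1 h4
      have h2 : m ∣ 2 := by
        rw [hm] at h1
        have h5 : l * m ∣ l * 2 := by rwa [mul_comm 2 l] at h1
        exact Nat.dvd_of_mul_dvd_mul_left hlp.pos h5
      have := Nat.le_of_dvd (by norm_num) h2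
      omega
    intro a a'
    refine Fin.lastCases ?_ (fun s => ?_) a
    · refine Fin.lastCases ?_ (fun s' => ?_) a'
      · rw [Fin.snoc_last]
        exact c3
      · rw [Fin.snoc_last, Fin.snoc_castSucc, add_comm]
        exact c2 s'
    · refine Fin.lastCases ?_ (fun s' => ?_) a'
      · rw [Fin.snoc_last, Fin.snoc_castSucc]
        exact c2 s
      · rw [Fin.snoc_castSucc, Fin.snoc_castSucc]
        exact c1 s s'
  · intro t ht
    have : NeZero q := ⟨by omega⟩
    have htl : t.Coprime l := Nat.Coprime.coprime_dvd_right ⟨m, hm⟩ ht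
    have htm : t.Coprime m := Nat.Coprime.coprime_dvd_right hmq ht
    have htm0 : t % m ≠ 0 := by
      intro h
      have h1 : m ∣ t := Nat.dvd_of_mod_eq_zero h
      have h2 : m ∣ 1 := by
        rw [← htm]
        exact Nat.dvd_gcd h1 dvd_rfl
      have := Nat.le_of_dvd one_pos h2
      omega
    rw [Fin.sum_univ_castSucc]
    simp only [Fin.snoc_castSucc, Fin.snoc_last]
    have h1 := saw_dist hlp.pos (by omega : 0 < m) htm0 htl
    have h2 : ∑ s : Fin l, saw ((t * (1 + (s : ℕ) * m) : ℕ) : ZMod q) =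
        saw ((l * t : ℕ) : ZMod q) := by
      rw [Fin.sum_univ_eq_sum_range (fun s => saw ((t * (1 + s * m) : ℕ) : ZMod q)) l]
      have h3 : ∀ s, t * (1 + s * m) = t + t * s * m := fun s => by ring
      simp only [h3]
      rw [hm]
      exact h1
    have h3 : saw ((t * (q - l) : ℕ) : ZMod q) = - saw ((l * t : ℕ) : ZMod q) := by
      rw [← saw_neg]
      congr 1
      rw [Nat.cast_mul, Nat.cast_sub hlq, ZMod.natCast_self, Nat.cast_mul]
      ring
    rw [h3]
    have h4 : ∑ s : Fin l, saw ((t * (1 + (s : ℕ) * m) : ℕ) : ZMod q) + - saw ((l * t : ℕ) : ZMod q)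
        = 0 := by
      rw [h2, add_neg_cancel]
    exact h4

/-- **Relations** if the orders are not different primes or four. -/
theorem exists_rel_all {ι : Type} {q : ι → ℕ} (hq : ∀ i, 3 ≤ q i) {C : ι → ℚ}
    (hbad : ¬ (Function.Injective q ∧ (∀ i, q i = 4 ∨ (q i).Prime ∧ q i ≠ 2) ∧ ∀ i, C i ≠ 0)) :
    ∃ (r : ℕ) (i : Fin r → ι) (β : Fin r → ℕ), 0 < r ∧
      (∀ a a', i a = i a' → ((β a + β a' : ℕ) : ZMod (q (i a))) ≠ 0) ∧
      ∀ t : ℕ, (∀ a, t.Coprime (q (i a))) →
        ∑ a, C (i a) * (saw ((t * β a : ℕ) : ZMod (q (i a))) : ℚ) = 0 := by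
  by_cases hC : ∃ j, C j = 0
  · obtain ⟨j, hj⟩ := hC
    refine ⟨1, fun _ => j, fun _ => 1, one_pos, fun _ _ _ => ?_, fun t _ => ?_⟩
    · exact cast_ne_of_lt (by norm_num) (hq j)
    · simp only [hj, zero_mul, Finset.sum_const_zero]
  push Not at hC
  by_cases hP : ∃ j, ¬ (q j = 4 ∨ (q j).Prime ∧ q j ≠ 2)
  · obtain ⟨j, hj⟩ := hP
    obtain ⟨r, β, hr, h1, h2⟩ := exists_rel (hq j) hj
    refine ⟨r, fun _ => j, β, hr, fun a a' _ => h1 a a', fun t ht => ?_⟩
    rw [← Finset.mul_sum]
    have h3 := h2 t (ht ⟨0, hr⟩)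
    have h4 : ∑ a, (saw ((t * β a : ℕ) : ZMod (q j)) : ℚ) = 0 := by
      exact_mod_cast h3
    rw [h4, mul_zero]
  push Not at hP
  have hinj : ¬ Function.Injective q := by
    intro h
    exact hbad ⟨h, hP, hC⟩
  unfold Function.Injective at hinj
  push Not at hinj
  obtain ⟨j, j', hjj, hne⟩ := hinj
  have : NeZero (q j) := ⟨by have := hq j; omega⟩
  have : NeZero (q j') := ⟨by have := hq j'; omega⟩
  set ρ : ℚ := - C j / C j' with hρ
  have hρ0 : ρ ≠ 0 := div_ne_zero (neg_ne_zero.2 (hC j)) (hC j')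
  have hrel : C j + ρ * C j' = 0 := by
    rw [hρ, div_mul_cancel₀ _ (hC j')]
    ring
  have hden : (ρ.den : ℚ) * C j + ρ.num * C j' = 0 := by
    have h1 : (ρ.den : ℚ) * ρ = ρ.num := by
      rw [mul_comm]
      exact Rat.mul_den_eq_num ρ
    rw [← h1]
    linear_combination (ρ.den : ℚ) * hrel
  set β' : ℕ := if 0 < ρ.num then 1 else q j' - 1 with hβ'
  have hsaw : ∀ t : ℕ, (saw ((t * β' : ℕ) : ZMod (q j')) : ℚ) =
      (if 0 < ρ.num then 1 else -1) * (saw ((t * 1 : ℕ) : ZMod (q j)) : ℚ) := by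
    intro t
    have h0 : saw ((t * 1 : ℕ) : ZMod (q j)) = saw ((t * 1 : ℕ) : ZMod (q j')) := by
      rw [hjj]
    rw [h0, hβ']
    split_ifs
    · rw [one_mul]
    · have h1 : ((t * (q j' - 1) : ℕ) : ZMod (q j')) = - ((t * 1 : ℕ) : ZMod (q j')) := by
        rw [Nat.cast_mul, Nat.cast_sub (by have := hq j'; omega), ZMod.natCast_self]
        push_cast
        ring
      rw [h1, saw_neg]
      push_cast
      ring
  refine ⟨ρ.den + ρ.num.natAbs, Fin.append (fun _ => j) (fun _ => j'),
    Fin.append (fun _ => 1) (fun _ => β'), by have := ρ.den_pos; omega, ?_, ?_⟩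
  · intro a a'
    refine Fin.addCases (fun s => ?_) (fun s => ?_) a
    · refine Fin.addCases (fun s' => ?_) (fun s' => ?_) a'
      · intro _
        rw [Fin.append_left, Fin.append_left, Fin.append_left]
        exact cast_ne_of_lt (by norm_num) (hq j)
      · intro h
        rw [Fin.append_left, Fin.append_right] at h
        exact absurd h hne
    · refine Fin.addCases (fun s' => ?_) (fun s' => ?_) a'
      · intro h
        rw [Fin.append_left, Fin.append_right] at h
        exact absurd h.symm hne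
      · intro _
        rw [Fin.append_right, Fin.append_right, Fin.append_right]
        have h3 := hq j'
        rw [hβ']
        split_ifs
        · exact cast_ne_of_lt (by norm_num) h3
        · intro h
          rw [ZMod.natCast_eq_zero_iff] at h
          have h4 : q j' ∣ 2 := by
            have h5 : q j' - 1 + (q j' - 1) + 2 = 2 * q j' := by omega
            have h6 : q j' ∣ q j' - 1 + (q j' - 1) + 2 := by
              rw [h5]
              exact Dvd.intro_left _ rfl
            exact (Nat.dvd_add_right h).1 h6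
          have := Nat.le_of_dvd (by norm_num) h4
          omega
  · intro t _
    let g : ι → ℕ → ℚ := fun j n => C j * (saw ((t * n : ℕ) : ZMod (q j)) : ℚ)
    show ∑ a, g (Fin.append (fun _ => j) (fun _ => j') a)
      (Fin.append (fun _ => 1) (fun _ => β') a) = 0
    rw [Fin.sum_univ_add]
    simp only [Fin.append_left, Fin.append_right]
    show ∑ _x : Fin ρ.den, C j * (saw ((t * 1 : ℕ) : ZMod (q j)) : ℚ) +
      ∑ _x : Fin ρ.num.natAbs, C j' * (saw ((t * β' : ℕ) : ZMod (q j')) : ℚ) = 0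
    rw [Finset.sum_const, Finset.sum_const, Finset.card_univ, Finset.card_univ, Fintype.card_fin,
      Fintype.card_fin, nsmul_eq_mul, nsmul_eq_mul, hsaw]
    have h1 : ((ρ.num.natAbs : ℕ) : ℚ) * (if 0 < ρ.num then (1 : ℚ) else -1) = ρ.num := by
      have h2 : ρ.num ≠ 0 := Rat.num_ne_zero.2 hρ0
      have h5 : ((ρ.num.natAbs : ℕ) : ℚ) = (((ρ.num.natAbs : ℕ) : ℤ) : ℚ) := by
        rw [Int.cast_natCast]
      split_ifs with h
      · have : ((ρ.num.natAbs : ℕ) : ℤ) = ρ.num := Int.natAbs_of_nonneg h.le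
        rw [mul_one, h5, this]
      · have h3 : ρ.num < 0 := by omega
        have : ((ρ.num.natAbs : ℕ) : ℤ) = - ρ.num := Int.ofNat_natAbs_of_nonpos h3.le
        rw [h5, this, Int.cast_neg]
        ring
    linear_combination (saw ((t * 1 : ℕ) : ZMod (q j)) : ℚ) * hden +
      (C j' * (saw ((t * 1 : ℕ) : ZMod (q j)) : ℚ)) * h1

end Pool.Agent.H842.CW
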