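import Pool.Agent.H842.CR.Num4

/-!
# Linear functionals on cyclotomic fields
-/

set_option linter.unusedSectionVars false

open Matrix Finset Function

namespace Pool.Agent.H842.CW

open Pool.Agent.TH125.Nod Pool.Agent.H842.CR

/-- A functional on the cyclotomic field is a combination of the embeddings. -/
theorem galois_expand {d : ℕ} [NeZero d] (σ : ℂ →ₗ[ℚ] ℂ) :
    ∃ κ : (ZMod d)ˣ → ℂ, ∀ n : ℕ, σ (zt d ^ n) = ∑ t, κ t * (zt d ^ (t : ZMod d).val) ^ n := by
  classical
  have hd0 : d ≠ 0 := NeZero.ne d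
  have hζ := zt_prim d hd0
  let m := Fintype.card (ZMod d)ˣ
  have hm : m = d.totient := ZMod.card_units_eq_totient d
  let e : Fin m ≃ (ZMod d)ˣ := (Fintype.equivFin _).symm
  let z : Fin m → ℂ := fun i => zt d ^ (e i : ZMod d).val
  have hz : Injective z := by
    intro i j h
    have h1 := hζ.pow_inj (ZMod.val_lt _) (ZMod.val_lt _) h
    exact e.injective (Units.ext (ZMod.val_injective d h1))
  have hdet : (Matrix.vandermonde z).det ≠ 0 := Matrix.det_vandermonde_ne_zero_iff.2 hz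
  let g : Fin m → ℂ := fun j => σ (zt d ^ (j : ℕ))
  let κ0 : Fin m → ℂ := g ᵥ* (Matrix.vandermonde z)⁻¹
  have hκ : κ0 ᵥ* Matrix.vandermonde z = g := by
    show (g ᵥ* (Matrix.vandermonde z)⁻¹) ᵥ* Matrix.vandermonde z = g
    rw [vecMul_vecMul, nonsing_inv_mul _ (isUnit_iff_ne_zero.2 hdet), vecMul_one]
  have hlow : ∀ j : Fin m, σ (zt d ^ (j : ℕ)) = ∑ i, κ0 i * z i ^ (j : ℕ) := by
    intro j
    have h1 := congrFun hκ j
    exact h1.symm
  -- reduction modulo the cyclotomic polynomial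
  have hmon : (Polynomial.cyclotomic d ℚ).Monic := Polynomial.cyclotomic.monic d ℚ
  have hroot : ∀ w : ℂ, IsPrimitiveRoot w d → Polynomial.aeval w (Polynomial.cyclotomic d ℚ) = 0 := by
    intro w hw
    have h1 : Polynomial.aeval w (Polynomial.cyclotomic d ℚ) =
        Polynomial.eval w (Polynomial.cyclotomic d ℂ) := by
      rw [Polynomial.aeval_def, Polynomial.eval₂_eq_eval_map, Polynomial.map_cyclotomic]
    rw [h1]
    have : NeZero ((d : ℕ) : ℂ) := ⟨by exact_mod_cast hd0⟩
    exact (Polynomial.isRoot_cyclotomic_iff).2 hw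
  have hred : ∀ (n : ℕ) (w : ℂ), IsPrimitiveRoot w d → w ^ n =
      ∑ j ∈ range m, (((Polynomial.X ^ n %ₘ Polynomial.cyclotomic d ℚ).coeff j : ℚ) : ℂ) *
        w ^ j := by
    intro n w hw
    have h1 := Polynomial.modByMonic_add_div (Polynomial.X ^ n : Polynomial ℚ)
      (Polynomial.cyclotomic d ℚ)
    have h2 := congrArg (Polynomial.aeval w) h1
    rw [map_add, map_mul, hroot w hw, zero_mul, add_zero, map_pow, Polynomial.aeval_X] at h2
    rw [← h2]
    have hdeg : (Polynomial.X ^ n %ₘ Polynomial.cyclotomic d ℚ).natDegree < m := by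
      have hne : Polynomial.cyclotomic d ℚ ≠ 1 := by
        intro h
        have h3 := Polynomial.natDegree_cyclotomic d ℚ
        rw [h, Polynomial.natDegree_one] at h3
        have := Nat.totient_pos.2 (Nat.pos_of_ne_zero hd0)
        omega
      have h3 := Polynomial.natDegree_modByMonic_lt (Polynomial.X ^ n : Polynomial ℚ) hmon hne
      rw [Polynomial.natDegree_cyclotomic] at h3
      rw [hm]
      exact h3
    rw [Polynomial.aeval_eq_sum_range' hdeg]
    refine Finset.sum_congr rfl fun j _ => ?_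
    rw [Algebra.smul_def]
    rfl
  refine ⟨fun t => κ0 (e.symm t), fun n => ?_⟩
  have hL : σ (zt d ^ n) = ∑ j ∈ range m,
      (((Polynomial.X ^ n %ₘ Polynomial.cyclotomic d ℚ).coeff j : ℚ) : ℂ) * σ (zt d ^ j) := by
    conv_lhs => rw [hred n (zt d) hζ]
    rw [map_sum]
    exact Finset.sum_congr rfl fun j _ => lin_mulC σ _ _
  rw [hL]
  have h3 : ∀ j ∈ range m, (((Polynomial.X ^ n %ₘ Polynomial.cyclotomic d ℚ).coeff j : ℚ) : ℂ) *
      σ (zt d ^ j) = ∑ i, κ0 i *
        ((((Polynomial.X ^ n %ₘ Polynomial.cyclotomic d ℚ).coeff j : ℚ) : ℂ) * z i ^ j) := by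
    intro j hj
    have h4 := hlow ⟨j, Finset.mem_range.1 hj⟩
    rw [h4, Finset.mul_sum]
    exact Finset.sum_congr rfl fun i _ => by ring
  rw [Finset.sum_congr rfl h3, Finset.sum_comm, ← Equiv.sum_comp e]
  refine Finset.sum_congr rfl fun i _ => ?_
  show _ = κ0 (e.symm (e i)) * z i ^ n
  rw [Equiv.symm_apply_apply, ← Finset.mul_sum]
  congr 1
  have hp : IsPrimitiveRoot (z i) d :=
    hζ.pow_of_coprime _ (ZMod.val_coe_unit_coprime (e i))
  exact (hred n (z i) hp).symm

end Pool.Agent.H842.CW
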