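import Pool.Agent.H842.CW.Conv1

/-!
# Products of determinants
-/

set_option linter.unusedSectionVars false

open Matrix Finset Function

namespace Pool.Agent.H842.CW

open Pool.Agent.TH125.Nod Pool.Agent.H842.CR

/-- the derivative of the determinant -/
theorem sum_det_upd {I : Type} [Fintype I] [DecidableEq I] (M A : Matrix I I ℂ) :
    ∑ q, (M.updateCol q (A *ᵥ M.col q)).det = trace A * M.det := by
  have h1 : ∀ q, (M.updateCol q (A *ᵥ M.col q)).det = (adjugate M * (A * M)) q q := by
    intro q
    rw [← Matrix.cramer_apply, Matrix.cramer_eq_adjugate_mulVec]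
    show (adjugate M *ᵥ (A *ᵥ M.col q)) q = _
    rw [Matrix.mul_apply]
    refine Finset.sum_congr rfl fun p _ => ?_
    congr 1
  have h2 : ∑ q, (adjugate M * (A * M)) q q = trace (adjugate M * (A * M)) := rfl
  rw [Finset.sum_congr rfl fun q _ => h1 q, h2, Matrix.trace_mul_comm, Matrix.mul_assoc,
    Matrix.mul_adjugate, Matrix.mul_smul, Matrix.mul_one, Matrix.trace_smul, smul_eq_mul, mul_comm]

section
variable {B : Type} [Fintype B] [DecidableEq B] {ι : Type} [DecidableEq ι] {I : Type} [Fintype I]
  [DecidableEq I] {Z : Type} [DecidableEq Z] {r : ℕ}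

/-- the indices of a part -/
abbrev Part (ty : I → Z) (c : Fin r → Z) (a : Fin r) : Type := {p : I // ty p = c a}

/-- the product of the determinants of the parts `c a` -/
noncomputable def detF (v : Module.Basis I ℂ (B → ℂ)) (ty : I → Z) (c : Fin r → Z) {k : ℕ}
    (e : (Σ a, Part ty c a) ≃ Fin k) (J : Fin k → B) : ℂ :=
  ∏ a, Matrix.det (fun p q : Part ty c a => v.coord p.1 (Pi.single (J (e ⟨a, q⟩)) 1))

/-- the action of an operator on the product of the determinants -/
theorem act_detF {D : Type} [Fintype D] [DecidableEq D] (v : Module.Basis I ℂ (B → ℂ))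
    (ty : I → Z) (c : Fin r → Z) {k : ℕ}
    (e : (Σ a, Part ty c a) ≃ Fin k) (A : Matrix B B ℂ)
    (hA : ∀ p p', ty p ≠ ty p' → v.coord p (A *ᵥ v p') = 0) (J : Fin k → B) (l : D) :
    act (A, (0 : Matrix D D ℂ)) (fun J _ => detF v ty c e J) J l =
      (∑ a, ∑ p : Part ty c a, v.coord p.1 (A *ᵥ v p.1)) * detF v ty c e J := by
  classical
  rw [act_apply]
  have h0 : ∑ m, (A, (0 : Matrix D D ℂ)).2 m l * (fun (J : Fin k → B) (_ : D) =>
      detF v ty c e J) J m = 0 := by
    refine Finset.sum_eq_zero fun m _ => ?_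
    show (0 : Matrix D D ℂ) m l * _ = 0
    rw [Matrix.zero_apply, zero_mul]
  rw [h0, add_zero]
  show ∑ j, ∑ b, A b (J j) * detF v ty c e (update J j b) = _
  rw [← Equiv.sum_comp e, Fintype.sum_sigma]
  -- one group
  let M : ∀ a, Matrix (Part ty c a) (Part ty c a) ℂ :=
    fun a p q => v.coord p.1 (Pi.single (J (e ⟨a, q⟩)) 1)
  let A' : ∀ a, Matrix (Part ty c a) (Part ty c a) ℂ := fun a p p' => v.coord p.1 (A *ᵥ v p'.1)
  have hcol : ∀ a (q : Part ty c a), (fun p : Part ty c a =>
      v.coord p.1 (A *ᵥ Pi.single (J (e ⟨a, q⟩)) 1)) = A' a *ᵥ (M a).col q := by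
    intro a q
    funext p
    have h1 : Pi.single (J (e ⟨a, q⟩)) (1 : ℂ) =
        ∑ p', v.coord p' (Pi.single (J (e ⟨a, q⟩)) 1) • v p' := by
      conv_lhs => rw [← v.sum_repr (Pi.single (J (e ⟨a, q⟩)) (1 : ℂ))]
      rfl
    have h2 : v.coord p.1 (A *ᵥ Pi.single (J (e ⟨a, q⟩)) 1) =
        ∑ p', v.coord p' (Pi.single (J (e ⟨a, q⟩)) 1) * v.coord p.1 (A *ᵥ v p') := by
      conv_lhs => rw [h1]
      rw [Matrix.mulVec_sum, map_sum]
      refine Finset.sum_congr rfl fun p' _ => ?_
      rw [Matrix.mulVec_smul, map_smul, smul_eq_mul]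
    rw [h2]
    show _ = ∑ p' : Part ty c a, v.coord p.1 (A *ᵥ v p'.1) *
      v.coord p'.1 (Pi.single (J (e ⟨a, q⟩)) 1)
    have h3 : ∑ p', v.coord p' (Pi.single (J (e ⟨a, q⟩)) 1) * v.coord p.1 (A *ᵥ v p') =
        ∑ p' ∈ univ.filter (fun p' => ty p' = c a),
          v.coord p' (Pi.single (J (e ⟨a, q⟩)) 1) * v.coord p.1 (A *ᵥ v p') := by
      rw [Finset.sum_filter]
      refine Finset.sum_congr rfl fun p' _ => ?_
      split_ifs with h
      · rfl
      · rw [hA p.1 p' (fun h' => h (by rw [← h', p.2])), mul_zero]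
    rw [h3, ← Finset.sum_subtype_eq_sum_filter]
    rw [Finset.subtype_univ]
    refine Finset.sum_congr rfl fun p' _ => ?_
    exact mul_comm _ _
  have hone : ∀ a (q : Part ty c a), ∑ b, A b (J (e ⟨a, q⟩)) *
      detF v ty c e (update J (e ⟨a, q⟩) b) =
      (∏ a' ∈ univ.erase a, (M a').det) * ((M a).updateCol q (A' a *ᵥ (M a).col q)).det := by
    intro a q
    have h1 : ∀ b, detF v ty c e (update J (e ⟨a, q⟩) b) =
        (∏ a' ∈ univ.erase a, (M a').det) *
          ((M a).updateCol q (fun p => v.coord p.1 (Pi.single b 1))).det := by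
      intro b
      unfold detF
      rw [← Finset.mul_prod_erase univ _ (Finset.mem_univ a), mul_comm]
      congr 1
      · refine Finset.prod_congr rfl fun a' ha' => ?_
        congr 1
        funext p q'
        rw [update_of_ne]
        intro h
        have := e.injective h
        exact Finset.ne_of_mem_erase ha' (congrArg Sigma.fst this)
      · congr 1
        funext p q'
        by_cases hq : q' = q
        · subst hq
          rw [update_self, Matrix.updateCol_self]
        · rw [Matrix.updateCol_ne hq, update_of_ne]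
          intro h
          have := e.injective h
          apply hq
          exact eq_of_heq (Sigma.mk.inj this).2
    have h2 : ∑ b, A b (J (e ⟨a, q⟩)) *
        ((M a).updateCol q (fun p => v.coord p.1 (Pi.single b 1))).det =
        ((M a).updateCol q (A' a *ᵥ (M a).col q)).det := by
      rw [← hcol a q]
      simp only [← Matrix.cramer_apply]
      have h3 : (fun p : Part ty c a => v.coord p.1 (A *ᵥ Pi.single (J (e ⟨a, q⟩)) 1)) =
          ∑ b, A b (J (e ⟨a, q⟩)) • (fun p : Part ty c a => v.coord p.1 (Pi.single b 1)) := by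
        funext p
        rw [Finset.sum_apply]
        have h4 : A *ᵥ Pi.single (J (e ⟨a, q⟩)) 1 =
            ∑ b, A b (J (e ⟨a, q⟩)) • (Pi.single b 1 : B → ℂ) := by
          funext b'
          rw [Matrix.mulVec_single_one, Finset.sum_apply]
          simp only [Pi.smul_apply, smul_eq_mul, Pi.single_apply, mul_ite, mul_one, mul_zero]
          rw [Finset.sum_ite_eq univ b' (fun b => A b (J (e ⟨a, q⟩))), if_pos (Finset.mem_univ _)]
          rfl
        rw [h4, map_sum]
        refine Finset.sum_congr rfl fun b _ => ?_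
        rw [map_smul]
        rfl
      rw [h3, map_sum, Finset.sum_apply]
      refine Finset.sum_congr rfl fun b _ => ?_
      rw [map_smul]
      rfl
    simp only [h1]
    rw [← h2, Finset.mul_sum]
    refine Finset.sum_congr rfl fun b _ => ?_
    ring
  rw [Finset.sum_congr rfl fun a _ => Finset.sum_congr rfl fun q _ => hone a q]
  have h5 : ∀ a, ∑ q, (∏ a' ∈ univ.erase a, (M a').det) *
      ((M a).updateCol q (A' a *ᵥ (M a).col q)).det = trace (A' a) * detF v ty c e J := by
    intro a
    rw [← Finset.mul_sum, sum_det_upd]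
    show _ = trace (A' a) * ∏ a, (M a).det
    rw [← Finset.mul_prod_erase univ _ (Finset.mem_univ a)]
    ring
  rw [Finset.sum_congr rfl fun a _ => h5 a, ← Finset.sum_mul]
  rfl

end

end Pool.Agent.H842.CW
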