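import Pool.Agent.H842.CR.NDefs

/-!
# Coverings of projective spaces: definitions
-/

open Matrix Finset Function

namespace Pool.Agent.H842.CW

open Pool.Agent.TH125.Nod Pool.Agent.H842.CR

/-- The automorphism `T` has order `q i` on `V_i` and
`∑ (r - q) h^(r, q) = C i * (2 b - q i)`, where `h^(r, q)` are the Hodge numbers of the eigenspace
of `T` in `V_i` with eigenvalue `exp (2 π √-1 b / q i)`, `0 < b < q i`, `2 b ≠ q i`. Here the vectors
`v ⟨i, s⟩` are a basis of `V_i ⊗ ℂ` of eigenvectors of `T` and of the Hodge operator `x0`, with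
eigenvalues `exp (2 π √-1 β i s / q i)` and `r - q = dg i s`. -/
def HasSawTypes {ι B : Type} [Fintype B] (κ : B → ι) (T : Matrix B B ℚ) (x0 : Matrix B B ℂ)
    (q : ι → ℕ) (C : ι → ℚ) : Prop :=
  ∃ (S : ι → Type) (_ : ∀ i, Fintype (S i)) (β : ∀ i, S i → ZMod (q i)) (dg : ∀ i, S i → ℚ)
    (v : Module.Basis (Σ i, S i) ℂ (B → ℂ)),
    (∀ i s, (∀ b, κ b ≠ i → v ⟨i, s⟩ b = 0) ∧ mC T *ᵥ v ⟨i, s⟩ = (zt (q i) ^ (β i s).val) • v ⟨i, s⟩ ∧
      x0 *ᵥ v ⟨i, s⟩ = (dg i s : ℂ) • v ⟨i, s⟩) ∧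
    ∀ i (b : ZMod (q i)), 2 * b ≠ 0 →
      ∑ s ∈ univ.filter (fun s => β i s = b), dg i s = C i * (2 * (b.val : ℚ) - q i)

/-- The Fermat characters, without the eigenvalues `1` and `- 1` of the covering transformation, of
a cyclic covering of degree `q` of the projective space of dimension `n`, branched along a smooth
hypersurface of degree `q * m`: pairs `(b, a)`, where `b` is a residue modulo `q` with `2 b ≠ 0`, and
`a` is a family of `n + 1` nonzero residues modulo `q * m`, such that `b / q + ∑ a_j / (q * m)` is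
an integer. -/
def CoverIndex (q m n : ℕ) : Type :=
  {a : ZMod q × (Fin (n + 1) → ZMod (q * m)) // 2 * a.1 ≠ 0 ∧ (∀ j, a.2 j ≠ 0) ∧
    ((m * a.1.val : ℕ) : ZMod (q * m)) + ∑ j, a.2 j = 0}

/-- The difference `r - s` of the Hodge numbers `(r, s)`, `r + s = n`, of a character: by Griffiths,
`s + 1 = b / q + ∑ a_j / (q * m)`. -/
def CoverIndex.deg {q m n : ℕ} (a : CoverIndex q m n) : ℚ :=
  ((n : ℚ) + 2) - 2 * ((m * a.1.1.val + ∑ j, (a.1.2 j).val : ℕ) : ℚ) / ((q * m : ℕ) : ℚ)

/-- The Hodge structures `V_i` with the automorphism `T` and with Hodge operator `x0` have, as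
representations of `T` and of the Hodge operator, the type of the part of the primitive cohomology
in degree `n i` of a cyclic covering of degree `q i` of the projective space of dimension `n i`,
branched along a smooth hypersurface of degree `q i * m i`, where the covering transformation has
no eigenvalue `- 1`: there is a basis of eigenvectors indexed by the characters. -/
def IsCover {ι B : Type} [Fintype B] (κ : B → ι) (T : Matrix B B ℚ) (x0 : Matrix B B ℂ)
    (q m n : ι → ℕ) : Prop :=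
  ∃ v : Module.Basis (Σ i, CoverIndex (q i) (m i) (n i)) ℂ (B → ℂ), ∀ i a,
    (∀ b, κ b ≠ i → v ⟨i, a⟩ b = 0) ∧ mC T *ᵥ v ⟨i, a⟩ = (zt (q i) ^ a.1.1.val) • v ⟨i, a⟩ ∧
    x0 *ᵥ v ⟨i, a⟩ = (a.deg : ℂ) • v ⟨i, a⟩

/-- There is no numerical relation between the eigenspaces `V_(i, b)` of `T` in `V_i` (with
eigenvalue `exp (2 π √-1 b / d)`): there is no family of `r > 0` nonzero eigenspaces
`V_(i 1, b 1), …, V_(i r, b r)`, without opposite members `V_(i, b)`, `V_(i, - b)`, such that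
`S (i 1) (t b 1) + ⋯ + S (i r) (t b r) = 0` for all units `t` modulo `d`. -/
def NoRelation {ι B : Type} [Fintype B] (κ : B → ι) (T : Matrix B B ℚ) (d : ℕ)
    (S : ι → ZMod d → ℚ) : Prop :=
  ∀ (r : ℕ) (i : Fin r → ι) (b : Fin r → ZMod d),
    (∀ a, eigenpart κ T (i a) (zt d ^ (b a).val) ≠ ⊥) →
    (∀ a a', i a = i a' → b a + b a' ≠ 0) →
    (∀ t : (ZMod d)ˣ, ∑ a, S (i a) ((t : ZMod d) * b a) = 0) → r = 0

end Pool.Agent.H842.CW
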