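import Pool.Agent.H842.CW.Arith
import Pool.Agent.H842.CW.TDefs
import Pool.Agent.H842.CR.Num4

/-!
# The types of the determinants for coverings of different prime degrees and degree four
-/

set_option linter.unusedSectionVars false

open Matrix Finset Function

namespace Pool.Agent.H842.CW

open Pool.Agent.TH125.Nod Pool.Agent.H842.CR Pool.Agent.H916R2

variable {B : Type} [Fintype B] [DecidableEq B] {D : Type} [Fintype D]
  [DecidableEq D] {ι : Type} [DecidableEq ι] {k : ℕ}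

/-- decomposition of the characters -/
def coverEquiv (p m n : ℕ) : CoverIndex p m n ≃
    Σ b : {b : ZMod p // 2 * b ≠ 0}, Tup (p * m) (n + 1) (-((m * b.1.val : ℕ) : ZMod (p * m))) where
  toFun a := ⟨⟨a.1.1, a.2.1⟩, ⟨a.1.2, a.2.2.1, by
    have := a.2.2.2
    exact eq_neg_of_add_eq_zero_right this⟩⟩
  invFun a := ⟨(a.1.1, a.2.1), a.1.2, a.2.2.1, by
    have := a.2.2.2
    show _ + ∑ j, a.2.1 j = 0
    rw [this]
    exact add_neg_cancel _⟩
  left_inv _ := rfl
  right_inv _ := rfl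

theorem ne_of_two {p : ℕ} {b : ZMod p} (h : 2 * b ≠ 0) : b ≠ 0 := by
  rintro rfl
  exact h (mul_zero _)

/-- cyclic coverings of projective spaces -/
theorem IsCover.hasSawTypes {κ : B → ι} {T : Matrix B B ℚ} {x0 : Matrix B B ℂ}
    {p m n : ι → ℕ} (hp : ∀ i, 0 < p i) (hm : ∀ i, 0 < m i)
    (hC : IsCover κ T x0 p m n) : HasSawTypes κ T x0 p (fun i => Cst (p i) (m i) (n i)) := by
  classical
  obtain ⟨v, hv⟩ := hC
  have : ∀ i, NeZero (p i) := fun i => ⟨(hp i).ne'⟩
  have : ∀ i, NeZero (p i * m i) := fun i => ⟨Nat.mul_ne_zero (hp i).ne' (hm i).ne'⟩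
  have hF : ∀ i, Fintype (CoverIndex (p i) (m i) (n i)) := fun i =>
    Fintype.ofEquiv _ (coverEquiv (p i) (m i) (n i)).symm
  refine ⟨fun i => CoverIndex (p i) (m i) (n i), hF, fun i a => a.1.1, fun i a => a.deg, v, hv,
    fun i b hb => ?_⟩
  have hb0 := ne_of_two hb
  have h1 := inner_sum (p := p i) (m := m i) (n := n i) hb0
  rw [saw_ne hb0] at h1
  push_cast at h1
  rw [← h1]
  symm
  refine Finset.sum_bij (fun a _ => (coverEquiv (p i) (m i) (n i)).symm ⟨⟨b, hb⟩, a⟩) ?_ ?_ ?_ ?_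
  · intro a _
    rw [Finset.mem_filter]
    exact ⟨Finset.mem_univ _, rfl⟩
  · intro a _ a' _ h2
    have h3 := (coverEquiv (p i) (m i) (n i)).symm.injective h2
    rw [Sigma.mk.injEq] at h3
    exact eq_of_heq h3.2
  · intro a ha
    rw [Finset.mem_filter] at ha
    obtain ⟨-, rfl⟩ := ha
    exact ⟨⟨a.1.2, a.2.2.1, eq_neg_of_add_eq_zero_right a.2.2.2⟩, Finset.mem_univ _, rfl⟩
  · intro a _
    show _ = CoverIndex.deg _
    unfold CoverIndex.deg
    push_cast
    rfl

/-- the determinants of cyclic coverings of projective spaces -/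
theorem Cst_ne' {p m n : ℕ} (hp : 3 ≤ p) (hm : 0 < m) (hn : 1 ≤ n)
    (hex : ¬ (n = 2 ∧ p * m = 3)) : Cst p m n ≠ 0 := by
  have h4 : 3 ≤ p * m := le_trans hp (Nat.le_mul_of_pos_right _ hm)
  have : NeZero (p * m) := ⟨by omega⟩
  have h5 := AN_ne h4 hn hex
  unfold Cst
  have h6 : ((AN (p * m) (n + 1) : ℚ) - (-1) ^ n * (n + 1)) ≠ 0 := by
    intro h7
    apply h5
    exact_mod_cast h7
  have h7 : ((p : ℕ) : ℚ) ≠ 0 := by
    have : p ≠ 0 := by omega
    exact_mod_cast this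
  rw [neg_div]
  exact neg_ne_zero.2 (div_ne_zero h6 h7)

/-- coordinates in a basis of eigenvectors -/
theorem coord_eig {I : Type} (v : Module.Basis I ℂ (B → ℂ)) {L : Matrix B B ℂ} {μ : I → ℂ}
    (h : ∀ a, L *ᵥ v a = μ a • v a) (a : I) (w : B → ℂ) :
    v.coord a (L *ᵥ w) = μ a * v.coord a w := by
  classical
  have h1 : v.coord a ∘ₗ Matrix.toLin' L = μ a • v.coord a := by
    refine v.ext fun b => ?_
    have h2 : (Matrix.toLin' L) (v b) = μ b • v b := h b
    rw [LinearMap.comp_apply, h2, LinearMap.smul_apply, map_smul, Module.Basis.coord_apply,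
      Module.Basis.repr_self, Finsupp.single_apply]
    split_ifs with hb
    · rw [hb]
    · rw [smul_zero, smul_zero]
  have h3 := LinearMap.congr_fun h1 w
  exact h3

/-- the eigenvalues -/
theorem exists_idx {κ : B → ι} {T : Matrix B B ℚ} {q : ι → ℕ} {S : ι → Type}
    {β : ∀ i, S i → ZMod (q i)} (v : Module.Basis (Σ i, S i) ℂ (B → ℂ))
    (hv : ∀ i s, (∀ b, κ b ≠ i → v ⟨i, s⟩ b = 0) ∧
      mC T *ᵥ v ⟨i, s⟩ = (zt (q i) ^ (β i s).val) • v ⟨i, s⟩) {j : ι} {z : ℂ}
    (hz : eigenpart κ T j z ≠ ⊥) : ∃ s : S j, zt (q j) ^ (β j s).val = z := by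
  classical
  obtain ⟨w, hw, hw0⟩ := (Submodule.ne_bot_iff _).1 hz
  obtain ⟨a, ha⟩ : ∃ a, v.coord a w ≠ 0 := by
    by_contra hcon
    push Not at hcon
    apply hw0
    apply v.repr.injective
    rw [map_zero]
    ext a
    exact hcon a
  have h1 := coord_eig v (L := mC T) (μ := fun a : Σ i, S i => zt (q a.1) ^ (β a.1 a.2).val)
    (fun a => (hv a.1 a.2).2) a w
  rw [hw.2, map_smul, smul_eq_mul] at h1
  have h2 : z = zt (q a.1) ^ (β a.1 a.2).val := mul_right_cancel₀ ha h1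
  have h3 := coord_eig v (L := diagonal (fun b => if κ b = j then (1 : ℂ) else 0))
    (μ := fun a : Σ i, S i => if a.1 = j then (1 : ℂ) else 0) (fun a => by
      funext b
      rw [mulVec_diagonal, Pi.smul_apply, smul_eq_mul]
      by_cases hb : κ b = a.1
      · rw [hb]
      · have : v a b = 0 := (hv a.1 a.2).1 b hb
        rw [this, mul_zero, mul_zero]) a w
  have h4 : diagonal (fun b => if κ b = j then (1 : ℂ) else 0) *ᵥ w = w := by
    funext b
    rw [mulVec_diagonal]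
    by_cases hb : κ b = j
    · rw [if_pos hb, one_mul]
    · rw [hw.1 b hb, mul_zero]
  rw [h4] at h3
  have h5 : a.1 = j := by
    by_contra hne
    rw [if_neg hne, zero_mul] at h3
    exact ha h3
  obtain ⟨i, s⟩ := a
  obtain rfl : i = j := h5
  exact ⟨s, h2.symm⟩

theorem zt_inj {d : ℕ} [NeZero d] {a b : ZMod d} (h : zt d ^ a.val = zt d ^ b.val) : a = b := by
  have h1 := (zt_prim d (NeZero.ne d)).pow_inj (ZMod.val_lt a) (ZMod.val_lt b) h
  exact ZMod.val_injective d h1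

theorem pow_mulVec {L : Matrix B B ℂ} {μ : ℂ} {w : B → ℂ} (h : L *ᵥ w = μ • w) (n : ℕ) :
    L ^ n *ᵥ w = μ ^ n • w := by
  induction n with
  | zero => rw [pow_zero, pow_zero, one_mulVec, one_smul]
  | succ n ih => rw [pow_succ, ← mulVec_mulVec, h, mulVec_smul, ih, smul_smul, pow_succ, mul_comm]

theorem sum_sig [Fintype ι] {Sx : ι → Type} [∀ i, Fintype (Sx i)] {Z : Type}
    (bb : (Σ i, Sx i) → Z) (dg : ∀ i, Sx i → ℚ) (j : ι) (b : Z)
    (i1 : DecidablePred fun a : Σ i, Sx i => a.1 = j ∧ bb a = b)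
    (i2 : DecidablePred fun s : Sx j => bb ⟨j, s⟩ = b) :
    ∑ a ∈ (univ : Finset (Σ i, Sx i)).filter (fun a => a.1 = j ∧ bb a = b), dg a.1 a.2 =
      ∑ s ∈ (univ : Finset (Sx j)).filter (fun s => bb ⟨j, s⟩ = b), dg j s := by
  symm
  refine Finset.sum_bij (fun s _ => (⟨j, s⟩ : Σ i, Sx i)) ?_ ?_ ?_ ?_
  · intro s hs
    rw [Finset.mem_filter] at hs ⊢
    exact ⟨Finset.mem_univ _, rfl, hs.2⟩
  · intro s _ s' _ h
    exact eq_of_heq (Sigma.mk.inj h).2
  · rintro ⟨i, s⟩ hs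
    rw [Finset.mem_filter] at hs
    obtain ⟨-, h1, h2⟩ := hs
    obtain rfl : i = j := h1
    exact ⟨s, Finset.mem_filter.2 ⟨Finset.mem_univ _, h2⟩, rfl⟩
  · intro s _
    rfl

/-- **The sums of the Hodge numbers.** -/
theorem exists_sums [Fintype ι] {κ : B → ι} {T : Matrix B B ℚ} {x0 : Matrix B B ℂ} {q : ι → ℕ}
    {C : ι → ℚ} {d : ℕ} [NeZero d] (hq0 : ∀ i, q i ≠ 0) (hT : T ^ d = 1)
    (hnr : IsUnit (T ^ 2 - 1).det) (hH : HasSawTypes κ T x0 q C) :
    ∃ S : ι → ZMod d → ℚ, HasHodgeSums κ T x0 d S ∧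
      ∀ (j : ι) (c : ZMod d), eigenpart κ T j (zt d ^ c.val) ≠ ⊥ →
        ∃ β : ℕ, zt d ^ c.val = zt (q j) ^ β ∧ (zt d ^ c.val) ^ 2 ≠ 1 ∧
          ∀ t : (ZMod d)ˣ, S j (t * c) =
            C j * (saw (((t : ZMod d).val * β : ℕ) : ZMod (q j)) : ℚ) := by
  classical
  obtain ⟨Sx, hSx, β, dg, v, hv, hsum⟩ := hH
  have hd0 : d ≠ 0 := NeZero.ne d
  have hq1 : ∀ j, NeZero (q j) := fun j => ⟨hq0 j⟩
  have hTC : mC T ^ d = 1 := by
    rw [← mC_pow, hT]
    unfold mC
    rw [Matrix.map_one _ (by simp) (by simp)]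
  have hpow : ∀ a : Σ i, Sx i, (zt (q a.1) ^ (β a.1 a.2).val) ^ d = 1 := by
    intro a
    have h1 := pow_mulVec (hv a.1 a.2).2.1 d
    rw [hTC, one_mulVec] at h1
    have h2 : (1 : ℂ) • v ⟨a.1, a.2⟩ = (zt (q a.1) ^ (β a.1 a.2).val) ^ d • v ⟨a.1, a.2⟩ := by
      rw [one_smul]
      exact h1
    exact (smul_left_injective ℂ (v.ne_zero _) h2).symm
  have hsq : ∀ a : Σ i, Sx i, (zt (q a.1) ^ (β a.1 a.2).val) ^ 2 ≠ 1 := by
    intro a h1
    have h2 := pow_mulVec (hv a.1 a.2).2.1 2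
    rw [h1, one_smul] at h2
    have h3 : mC (T ^ 2 - 1) *ᵥ v ⟨a.1, a.2⟩ = 0 := by
      have h4 : mC (T ^ 2 - 1) = mC T ^ 2 - 1 := by
        rw [← mC_pow]
        unfold mC
        rw [Matrix.map_sub _ (by intro a b; simp), Matrix.map_one _ (by simp) (by simp)]
      rw [h4, sub_mulVec, h2, one_mulVec, sub_self]
    have h5 : IsUnit (mC (T ^ 2 - 1)).det := by
      have h6 : (mC (T ^ 2 - 1)).det = (((T ^ 2 - 1).det : ℚ) : ℂ) := by
        unfold mC
        have := RingHom.map_det (algebraMap ℚ ℂ) (T ^ 2 - 1)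
        rw [RingHom.mapMatrix_apply] at this
        exact this.symm
      rw [h6]
      exact isUnit_iff_ne_zero.2 (by exact_mod_cast hnr.ne_zero)
    exact v.ne_zero ⟨a.1, a.2⟩ (by
      have h6 := congrArg (fun w => (mC (T ^ 2 - 1))⁻¹ *ᵥ w) h3
      simp only [mulVec_mulVec, mulVec_zero] at h6
      rw [Matrix.nonsing_inv_mul _ h5, one_mulVec] at h6
      exact h6)
  have hex : ∀ a : Σ i, Sx i, ∃ b : ZMod d, zt d ^ b.val = zt (q a.1) ^ (β a.1 a.2).val := by
    intro a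
    obtain ⟨i, hi, hi'⟩ := (zt_prim d hd0).eq_pow_of_pow_eq_one (hpow a)
    refine ⟨(i : ZMod d), ?_⟩
    rw [ZMod.val_natCast, Nat.mod_eq_of_lt hi]
    exact hi'
  choose bb hbb using hex
  refine ⟨fun j c => ∑ s ∈ univ.filter (fun s : Sx j => bb ⟨j, s⟩ = c), dg j s, ?_, ?_⟩
  · refine ⟨Σ i, Sx i, inferInstance, v, fun a => a.1, bb, fun a => dg a.1 a.2, fun a => ?_, ?_⟩
    · obtain ⟨h1, h2, h3⟩ := hv a.1 a.2
      refine ⟨h1, ?_, h3⟩
      rw [hbb a]
      exact h2
    · intro j b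
      exact sum_sig bb dg j b _ _
  · intro j c hc
    obtain ⟨s, hs⟩ := exists_idx v (fun i s => ⟨(hv i s).1, (hv i s).2.1⟩) hc
    refine ⟨(β j s).val, hs.symm, ?_, fun t => ?_⟩
    · rw [← hs]
      exact hsq ⟨j, s⟩
    have hcs : bb ⟨j, s⟩ = c := zt_inj (by rw [hbb ⟨j, s⟩]; exact hs)
    set tb : ZMod (q j) := (((t : ZMod d).val * (β j s).val : ℕ) : ZMod (q j)) with htb
    have hz1 : zt d ^ ((t : ZMod d) * c).val = zt (q j) ^ tb.val := by
      have e1 : zt d ^ ((t : ZMod d) * c).val = (zt d ^ c.val) ^ (t : ZMod d).val := by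
        rw [← pow_mul]
        apply zt_mod hd0
        rw [← ZMod.natCast_eq_natCast_iff]
        push_cast
        simp only [ZMod.natCast_zmod_val]
        ring
      have e2 : zt (q j) ^ tb.val = (zt (q j) ^ (β j s).val) ^ (t : ZMod d).val := by
        rw [← pow_mul]
        apply zt_mod (hq0 j)
        rw [← ZMod.natCast_eq_natCast_iff]
        simp only [ZMod.natCast_zmod_val]
        rw [htb]
        push_cast
        ring
      rw [e1, e2, hs]
    have hiff : ∀ s' : Sx j, bb ⟨j, s'⟩ = t * c ↔ β j s' = tb := by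
      intro s'
      constructor
      · intro h
        apply zt_inj
        rw [← hbb ⟨j, s'⟩, h, hz1]
      · intro h
        apply zt_inj
        rw [hz1, ← h]
        exact hbb ⟨j, s'⟩
    have hfil : univ.filter (fun s' : Sx j => bb ⟨j, s'⟩ = t * c) =
        univ.filter (fun s' : Sx j => β j s' = tb) := by
      ext s'
      simp only [Finset.mem_filter, Finset.mem_univ, true_and]
      exact hiff s'
    have h2 : 2 * tb ≠ 0 := by
      intro h
      apply hsq ⟨j, s⟩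
      show (zt (q j) ^ (β j s).val) ^ 2 = 1
      -- the inverse of `t`
      have h3 : (zt (q j) ^ (β j s).val) ^ (2 * (t : ZMod d).val) = 1 := by
        have e1 : (zt (q j) ^ (β j s).val) ^ (2 * (t : ZMod d).val) = zt (q j) ^ (0 : ℕ) := by
          rw [← pow_mul]
          apply zt_mod (hq0 j)
          rw [← ZMod.natCast_eq_natCast_iff]
          have e3 : 2 * (((t : ZMod d).val * (β j s).val : ℕ) : ZMod (q j)) = 0 := by
            rw [← htb]
            exact h
          push_cast at e3 ⊢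
          linear_combination e3
        rw [e1, pow_zero]
      have h4 : (zt (q j) ^ (β j s).val) ^ 2 =
          ((zt (q j) ^ (β j s).val) ^ (2 * (t : ZMod d).val)) ^ ((t⁻¹ : (ZMod d)ˣ) : ZMod d).val := by
        rw [hs, ← pow_mul, ← pow_mul, ← pow_mul]
        apply zt_mod hd0
        rw [← ZMod.natCast_eq_natCast_iff]
        push_cast
        simp only [ZMod.natCast_zmod_val]
        have e3 : (t : ZMod d) * ((t⁻¹ : (ZMod d)ˣ) : ZMod d) = 1 := Units.mul_inv t
        linear_combination (-(2 * c)) * e3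
      rw [h4, h3, one_pow]
    show ∑ s' ∈ univ.filter (fun s' : Sx j => bb ⟨j, s'⟩ = t * c), dg j s' = _
    rw [hfil, hsum j tb h2, saw_ne (ne_of_two h2)]
    push_cast
    rfl

theorem prim_of {q β : ℕ} (hq : q = 4 ∨ q.Prime ∧ q ≠ 2) (h : (zt q ^ β) ^ 2 ≠ 1) :
    IsPrimitiveRoot (zt q ^ β) q := by
  have hq0 : q ≠ 0 := by
    rcases hq with rfl | ⟨h, -⟩
    · norm_num
    · exact h.ne_zero
  have hp := zt_prim q hq0
  have h1 : ¬ q ∣ β * 2 := by
    intro h2
    apply h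
    rw [← pow_mul]
    exact (hp.pow_eq_one_iff_dvd _).2 h2
  refine hp.pow_of_coprime β ?_
  rcases hq with rfl | ⟨hpr, -⟩
  · have h2 : ¬ 2 ∣ β := fun ⟨c, hc⟩ => h1 ⟨c, by rw [hc]; ring⟩
    have h3 : Nat.Coprime β (2 ^ 2) := Nat.Coprime.pow_right 2
      ((Nat.coprime_comm.1 ((Nat.Prime.coprime_iff_not_dvd Nat.prime_two).2 h2)))
    exact h3
  · have h2 : ¬ q ∣ β := fun h => h1 (h.mul_right _)
    exact Nat.coprime_comm.1 ((Nat.Prime.coprime_iff_not_dvd hpr).2 h2)

/-- **There are no relations** for different orders which are odd primes or four. -/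
theorem noRelation_of {κ : B → ι} {T : Matrix B B ℚ} {q : ι → ℕ} {C : ι → ℚ} {d : ℕ} [NeZero d]
    (hq : ∀ i, q i = 4 ∨ (q i).Prime ∧ q i ≠ 2) (hinj : Injective q) (hC : ∀ i, C i ≠ 0)
    {S : ι → ZMod d → ℚ}
    (hS : ∀ (j : ι) (c : ZMod d), eigenpart κ T j (zt d ^ c.val) ≠ ⊥ →
        ∃ β : ℕ, zt d ^ c.val = zt (q j) ^ β ∧ (zt d ^ c.val) ^ 2 ≠ 1 ∧
          ∀ t : (ZMod d)ˣ, S j (t * c) =
            C j * (saw (((t : ZMod d).val * β : ℕ) : ZMod (q j)) : ℚ)) :
    NoRelation κ T d S := by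
  classical
  intro r i b hne h5 h6
  have hd0 : d ≠ 0 := NeZero.ne d
  choose β hβ1 hβ2 hβ3 using fun a => hS (i a) (b a) (hne a)
  refine no_relations (d := d) hq hinj (i := i) ?_ (β := β) hC ?_ ?_
  · intro a
    have h7 := hβ2 a
    rw [hβ1 a] at h7
    have h8 := prim_of (hq (i a)) h7
    apply h8.dvd_of_pow_eq_one
    rw [← hβ1 a, ← pow_mul, mul_comm, pow_mul, (zt_prim d hd0).pow_eq_one, one_pow]
  · intro t
    rw [← h6 t]
    exact Finset.sum_congr rfl fun a _ => (hβ3 a t).symm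
  · intro a a' haa h7
    apply h5 a a' haa
    have hq0 : q (i a) ≠ 0 := by
      rcases hq (i a) with h | ⟨h, -⟩
      · omega
      · exact h.ne_zero
    have h8 : zt (q (i a)) ^ (β a + β a') = 1 := by
      have : zt (q (i a)) ^ (β a + β a') = zt (q (i a)) ^ (0 : ℕ) := by
        apply zt_mod hq0
        rw [← ZMod.natCast_eq_natCast_iff]
        rw [h7]
        simp
      rw [this, pow_zero]
    have h9 : zt d ^ (b a').val = zt (q (i a)) ^ β a' := by
      rw [haa]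
      exact hβ1 a'
    apply zt_inj
    rw [ZMod.val_zero, pow_zero, ← h8, pow_add, ← hβ1 a, ← h9, ← pow_add]
    apply zt_mod hd0
    rw [← ZMod.natCast_eq_natCast_iff]
    push_cast
    simp only [ZMod.natCast_zmod_val]

/-- **There are no determinantal classes of numerical type** if there are no relations. -/
theorem no_numerical {κ : B → ι} {T : Matrix B B ℚ} {d : ℕ} {S : ι → ZMod d → ℚ}
    (hS : NoRelation κ T d S) {K : ℕ} {w : (Fin K → B) → ℚ} (hw : IsNumerical κ T d S w) :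
    K = 0 := by
  classical
  obtain ⟨r, g, i, b, h1, h2, h3, h4, h5, h6⟩ := hw
  have hne : ∀ a, eigenpart κ T (i a) (zt d ^ (b a).val) ≠ ⊥ := by
    intro a h
    have h7 := h2 a
    rw [h, finrank_bot] at h7
    omega
  obtain rfl := hS r i b hne h5 h6
  by_contra hK
  exact (g ⟨0, Nat.pos_of_ne_zero hK⟩).elim0

/-- products without determinants -/
theorem span_num_T {κ : B → ι} {Q T : Matrix B B ℚ} {d : ℕ} {S : ι → ZMod d → ℚ}
    {x : Matrix B B ℂ} {y : Matrix D D ℂ} {f : (Fin k → B) → D → ℚ}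
    (hno : ∀ (K : ℕ) (w : (Fin K → B) → ℚ), IsNumerical κ T d S w → K = 0)
    (hf : f ∈ Submodule.span ℚ (productsNum κ Q T d S x y k)) :
    f ∈ Submodule.span ℚ (productsT κ Q T y k) := by
  have hle : productsNum κ Q T d S x y k ⊆ (Submodule.span ℚ (productsT κ Q T y k) : Set _) := by
    rintro _ ⟨m, n, e, c, a, w, h, hw, -, hh, rfl⟩
    obtain rfl := hno n w hw
    apply Submodule.subset_span
    refine ⟨m, (Equiv.sumEmpty (Fin m × Fin 2) (Fin 0)).symm.trans e, c, a,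
      fun l => w (fun j => j.elim0) * h l, ?_, ?_⟩
    · intro a' v hv hne
      have h1 := hh a' v hv hne
      have h2 : ∀ l, ((w (fun j => j.elim0) * h l : ℚ) : ℂ) * v l =
          ((w (fun j => j.elim0) : ℚ) : ℂ) * (((h l : ℚ) : ℂ) * v l) := by
        intro l
        push_cast
        ring
      simp only [h2]
      rw [← Finset.mul_sum, h1, mul_zero]
    · funext J l
      have h3 : (fun j : Fin 0 => J (e (.inr j))) = fun j => j.elim0 := by
        funext j
        exact j.elim0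
      rw [h3]
      show (∏ t, block κ (Q * T ^ a t) (c t) (J (e (.inl (t, 0)))) (J (e (.inl (t, 1))))) *
        w (fun j => j.elim0) * h l = (∏ t, block κ (Q * T ^ a t) (c t) (J (e (.inl (t, 0))))
          (J (e (.inl (t, 1))))) * (w (fun j => j.elim0) * h l)
      rw [mul_assoc]
  exact Submodule.span_le.2 hle hf

end Pool.Agent.H842.CW
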