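import Pool.Agent.H842.CW.Conv2
import Pool.Agent.H842.CW.Types

/-!
# Products of determinants: Hodge classes
-/

set_option linter.unusedSectionVars false

open Matrix Finset Function

namespace Pool.Agent.H842.CW

open Pool.Agent.TH125.Nod Pool.Agent.H842.CR

variable {B : Type} [Fintype B] [DecidableEq B] {D : Type} [Fintype D]
  [DecidableEq D] {ι : Type} [DecidableEq ι] {k : ℕ}

/-- the trace in a basis -/
theorem trace_coord {I : Type} [Fintype I] [DecidableEq I] (v : Module.Basis I ℂ (B → ℂ))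
    (Y : Matrix B B ℂ) : trace Y = ∑ p, v.coord p (Y *ᵥ v p) := by
  have h1 := LinearMap.trace_eq_matrix_trace ℂ v (Matrix.toLin' Y)
  have h2 := LinearMap.trace_eq_matrix_trace ℂ (Pi.basisFun ℂ B) (Matrix.toLin' Y)
  have h3 : LinearMap.toMatrix (Pi.basisFun ℂ B) (Pi.basisFun ℂ B) (Matrix.toLin' Y) = Y :=
    LinearMap.toMatrix'_toLin' Y
  rw [h3, h1] at h2
  rw [← h2]
  unfold trace
  refine Finset.sum_congr rfl fun s _ => ?_
  rw [Matrix.diag_apply, LinearMap.toMatrix_apply]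
  rfl

/-- forms killed by the parts of the Hodge operator are Hodge classes -/
theorem hodge_of_parts {X : Matrix B B ℂ} {Y : Matrix D D ℂ} {w : (Fin k → B) → D → ℚ}
    (hk : ∀ φ : ℂ →ₗ[ℚ] ℚ, act (X.map φ, Y.map φ) w = 0) : IsHodge X Y w := by
  intro a b v v' hv hv' hab
  obtain ⟨τ, F, β, φ, hx, hy⟩ := exists_decomp X Y
  have h1 : act (X, Y) (cx w) = 0 := by
    have h2 : (X, Y) = ∑ t ∈ F, β t • (mC (X.map (φ t)), mC (Y.map (φ t))) := by
      apply Prod.ext
      · rw [Prod.fst_sum]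
        exact hx
      · rw [Prod.snd_sum]
        exact hy
    let A : (Matrix B B ℂ × Matrix D D ℂ) →ₗ[ℂ] ((Fin k → B) → D → ℂ) :=
      { toFun := fun z => act z (cx w)
        map_add' := fun z z' => act_add z z' _
        map_smul' := fun r z => act_smul r z _ }
    show A (X, Y) = 0
    rw [h2, map_sum]
    refine Finset.sum_eq_zero fun t _ => ?_
    rw [map_smul]
    show β t • act (mC (X.map (φ t)), mC (Y.map (φ t))) (cx w) = 0
    rw [act_mC2, hk (φ t)]
    have : cx (0 : (Fin k → B) → D → ℚ) = 0 := by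
      funext J l
      simp [cx]
    rw [this, smul_zero]
  have h3 := ev_act (cx w) hv hv'
  rw [h1] at h3
  have h4 : (∑ j, (a j : ℂ) + (b : ℂ)) ≠ 0 := by
    exact_mod_cast hab
  have h5 : ∑ J : Fin k → B, ∑ l, (0 : (Fin k → B) → D → ℂ) J l * (∏ j, v j (J j)) * v' l = 0 := by
    simp
  rw [h5] at h3
  rcases mul_eq_zero.1 h3.symm with h6 | h6
  · exact absurd h6 h4
  · exact h6

section
variable {κ : B → ι} {T : Matrix B B ℚ} {X : Matrix B B ℂ} {d : ℕ} [NeZero d] {I : Type}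
  [Fintype I] [DecidableEq I] {v : Module.Basis I ℂ (B → ℂ)} {i' : I → ι} {β : I → ZMod d}
  {dg : I → ℚ}
  (hv : ∀ a, (∀ b, κ b ≠ i' a → v a b = 0) ∧ mC T *ᵥ v a = (zt d ^ (β a).val) • v a ∧
      X *ᵥ v a = (dg a : ℂ) • v a)
include hv

/-- operators which commute with `T` preserve the parts -/
theorem coord_zero {A : Matrix B B ℂ} (hA : A * mC T = mC T * A)
    (hb : ∀ a b, κ a ≠ κ b → A a b = 0) {p p' : I} (hne : (i' p, β p) ≠ (i' p', β p')) :
    v.coord p (A *ᵥ v p') = 0 := by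
  classical
  by_cases hβ : β p = β p'
  · have hi : i' p ≠ i' p' := fun h => hne (by rw [h, hβ])
    have h3 := coord_eig v (L := diagonal (fun b => if κ b = i' p' then (1 : ℂ) else 0))
      (μ := fun a => if i' a = i' p' then (1 : ℂ) else 0) (fun a => by
        funext b
        rw [mulVec_diagonal, Pi.smul_apply, smul_eq_mul]
        by_cases hb : κ b = i' a
        · rw [hb]
        · rw [(hv a).1 b hb, mul_zero, mul_zero]) p (A *ᵥ v p')
    rw [if_neg hi, zero_mul] at h3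
    rw [← h3]
    congr 1
    funext b
    rw [mulVec_diagonal]
    by_cases hb' : κ b = i' p'
    · rw [if_pos hb', one_mul]
    · rw [if_neg hb', zero_mul]
      refine Finset.sum_eq_zero fun b' _ => ?_
      show A b b' * v p' b' = 0
      by_cases hb'' : κ b' = i' p'
      · rw [hb b b' (fun h => hb' (h.trans hb'')), zero_mul]
      · rw [(hv p').1 b' hb'', mul_zero]
  · have h1 := coord_eig v (L := mC T) (μ := fun a => zt d ^ (β a).val) (fun a => (hv a).2.1) p
      (A *ᵥ v p')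
    rw [mulVec_mulVec, ← hA, ← mulVec_mulVec, (hv p').2.1, mulVec_smul, map_smul,
      smul_eq_mul] at h1
    by_contra hcon
    exact hβ (zt_inj (mul_right_cancel₀ hcon h1)).symm

/-- the trace on a part -/
theorem trace_part {A : Matrix B B ℂ} (j : ι) (c : ZMod d) :
    ∑ p ∈ univ.filter (fun p => (i' p, β p) = (j, c)), v.coord p (A *ᵥ v p) =
      (d : ℂ)⁻¹ * ∑ s ∈ range d, ((zt d ^ c.val)⁻¹) ^ s *
        trace (A * mC (T ^ s * diagonal (fun a => if κ a = j then (1 : ℚ) else 0))) := by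
  classical
  have hd0 : (d : ℂ) ≠ 0 := by exact_mod_cast (NeZero.ne d)
  have hζ := zt_prim d (NeZero.ne d)
  have hz0 : ∀ n : ℕ, zt d ^ n ≠ 0 := fun n => pow_ne_zero _ (hζ.ne_zero (NeZero.ne d))
  have h1 : ∀ s, trace (A * mC (T ^ s * diagonal (fun a => if κ a = j then (1 : ℚ) else 0))) =
      ∑ p, (if i' p = j then (zt d ^ (β p).val) ^ s else 0) * v.coord p (A *ᵥ v p) := by
    intro s
    rw [trace_coord v]
    refine Finset.sum_congr rfl fun p _ => ?_
    have h4 : mC (diagonal (fun a => if κ a = j then (1 : ℚ) else 0)) *ᵥ v p =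
        (if i' p = j then (1 : ℂ) else 0) • v p := by
      funext q
      have h5 : mC (diagonal (fun a => if κ a = j then (1 : ℚ) else 0)) =
          diagonal (fun a => if κ a = j then (1 : ℂ) else 0) := by
        unfold mC
        rw [Matrix.diagonal_map (by simp)]
        congr 1
        funext a
        split_ifs <;> simp
      rw [h5, mulVec_diagonal, Pi.smul_apply, smul_eq_mul]
      by_cases hq : κ q = i' p
      · rw [hq]
      · rw [(hv p).1 q hq, mul_zero, mul_zero]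
    rw [mC_mul, mC_pow, ← mulVec_mulVec, ← mulVec_mulVec, h4, mulVec_smul,
      pow_eig (hv p).2.1, mulVec_smul, mulVec_smul, map_smul, map_smul, smul_eq_mul, smul_eq_mul]
    split_ifs
    · ring
    · ring
  simp only [h1, Finset.mul_sum]
  rw [Finset.sum_comm, Finset.sum_filter]
  refine Finset.sum_congr rfl fun p _ => ?_
  by_cases hj : i' p = j
  · have h2 : ∑ s ∈ range d, (d : ℂ)⁻¹ * ((zt d ^ c.val)⁻¹ ^ s *
        ((if i' p = j then (zt d ^ (β p).val) ^ s else 0) * v.coord p (A *ᵥ v p))) =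
        (d : ℂ)⁻¹ * (∑ s ∈ range d, ((zt d ^ c.val)⁻¹ * zt d ^ (β p).val) ^ s) *
          v.coord p (A *ᵥ v p) := by
      rw [Finset.mul_sum, Finset.sum_mul]
      refine Finset.sum_congr rfl fun s _ => ?_
      rw [if_pos hj, mul_pow]
      ring
    rw [h2]
    by_cases hc : β p = c
    · rw [if_pos (by rw [hj, hc]), hc, inv_mul_cancel₀ (hz0 _)]
      simp only [one_pow, Finset.sum_const, Finset.card_range, nsmul_eq_mul, mul_one]
      rw [inv_mul_cancel₀ hd0, one_mul]
    · rw [if_neg (fun h => hc (Prod.ext_iff.1 h).2)]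
      have h3 : (zt d ^ c.val)⁻¹ * zt d ^ (β p).val ≠ 1 := by
        intro h
        rw [inv_mul_eq_one₀ (hz0 _)] at h
        exact hc (zt_inj h.symm)
      have h4 : ((zt d ^ c.val)⁻¹ * zt d ^ (β p).val) ^ d = 1 := by
        rw [mul_pow, inv_pow, ← pow_mul, ← pow_mul, mul_comm c.val, mul_comm (β p).val, pow_mul,
          pow_mul, hζ.pow_eq_one, one_pow, one_pow, inv_one, mul_one]
      rw [geom_sum_eq h3, h4, sub_self, zero_div, mul_zero, zero_mul]
  · rw [if_neg (fun h => hj (Prod.ext_iff.1 h).1)]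
    symm
    refine Finset.sum_eq_zero fun s _ => ?_
    rw [if_neg hj, zero_mul, mul_zero, mul_zero]

/-- the trace of a conjugate of the Hodge operator on a part -/
theorem trace_part_tau {S : ι → ZMod d → ℚ} (hS : HasHodgeSums κ T X d S) {τ : ℂ →ₗ[ℚ] ℂ}
    {κt : (ZMod d)ˣ → ℂ} (hκ : ∀ n : ℕ, τ (zt d ^ n) = ∑ t, κt t * (zt d ^ (t : ZMod d).val) ^ n)
    (j : ι) (c : ZMod d) :
    ∑ p ∈ univ.filter (fun p => (i' p, β p) = (j, c)), v.coord p (X.map τ *ᵥ v p) =
      ∑ t, κt t * (S j ((t⁻¹ : (ZMod d)ˣ) * c) : ℂ) := by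
  classical
  have hd0 : (d : ℂ) ≠ 0 := by exact_mod_cast (NeZero.ne d)
  have hζ := zt_prim d (NeZero.ne d)
  have hz0 : ∀ n : ℕ, zt d ^ n ≠ 0 := fun n => pow_ne_zero _ (hζ.ne_zero (NeZero.ne d))
  rw [trace_part hv (A := X.map τ)]
  have h1 : ∀ s, trace (X.map τ * mC (T ^ s * diagonal (fun a => if κ a = j then (1 : ℚ) else 0)))
      = ∑ t, κt t * ∑ b : ZMod d, (zt d ^ ((t : ZMod d) * b).val) ^ s * (S j b : ℂ) := by
    intro s
    rw [CR.trace_map, trace_sums hS, map_sum]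
    have h2 : ∀ b : ZMod d, τ (zt d ^ (s * b.val) * (S j b : ℂ)) =
        ∑ t, κt t * ((zt d ^ ((t : ZMod d) * b).val) ^ s * (S j b : ℂ)) := by
      intro b
      rw [lin_mulC', hκ, Finset.sum_mul]
      refine Finset.sum_congr rfl fun t _ => ?_
      have h3 : (zt d ^ (t : ZMod d).val) ^ (s * b.val) = (zt d ^ ((t : ZMod d) * b).val) ^ s := by
        rw [← pow_mul, ← pow_mul]
        apply zt_mod (NeZero.ne d)
        rw [← ZMod.natCast_eq_natCast_iff]
        push_cast
        simp only [ZMod.natCast_zmod_val]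
        ring
      rw [h3]
      ring
    rw [Finset.sum_congr rfl fun b _ => h2 b, Finset.sum_comm]
    exact Finset.sum_congr rfl fun t _ => (Finset.mul_sum _ _ _).symm
  simp only [h1, Finset.mul_sum]
  rw [Finset.sum_comm]
  refine Finset.sum_congr rfl fun t _ => ?_
  rw [Finset.sum_comm]
  have h2 : ∀ b : ZMod d, ∑ s ∈ range d, (d : ℂ)⁻¹ * ((zt d ^ c.val)⁻¹ ^ s *
      (κt t * ((zt d ^ ((t : ZMod d) * b).val) ^ s * (S j b : ℂ)))) =
      if b = (t⁻¹ : (ZMod d)ˣ) * c then κt t * (S j b : ℂ) else 0 := by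
    intro b
    have h4 : ∑ s ∈ range d, (d : ℂ)⁻¹ * ((zt d ^ c.val)⁻¹ ^ s *
        (κt t * ((zt d ^ ((t : ZMod d) * b).val) ^ s * (S j b : ℂ)))) =
        (d : ℂ)⁻¹ * (∑ s ∈ range d, ((zt d ^ c.val)⁻¹ * zt d ^ ((t : ZMod d) * b).val) ^ s) *
          (κt t * (S j b : ℂ)) := by
      rw [Finset.mul_sum, Finset.sum_mul]
      refine Finset.sum_congr rfl fun s _ => ?_
      rw [mul_pow]
      ring
    rw [h4]
    by_cases hb : b = (t⁻¹ : (ZMod d)ˣ) * c
    · have h5 : (t : ZMod d) * b = c := by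
        rw [hb, Units.mul_inv_cancel_left]
      rw [if_pos hb, h5, inv_mul_cancel₀ (hz0 _)]
      simp only [one_pow, Finset.sum_const, Finset.card_range, nsmul_eq_mul, mul_one]
      rw [inv_mul_cancel₀ hd0, one_mul]
    · rw [if_neg hb]
      have h3 : (zt d ^ c.val)⁻¹ * zt d ^ ((t : ZMod d) * b).val ≠ 1 := by
        intro h
        rw [inv_mul_eq_one₀ (hz0 _)] at h
        apply hb
        rw [zt_inj h, Units.inv_mul_cancel_left]
      have h5 : ((zt d ^ c.val)⁻¹ * zt d ^ ((t : ZMod d) * b).val) ^ d = 1 := by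
        rw [mul_pow, inv_pow, ← pow_mul, ← pow_mul, mul_comm c.val, mul_comm (_ : ZMod d).val,
          pow_mul, pow_mul, hζ.pow_eq_one, one_pow, one_pow, inv_one, mul_one]
      rw [geom_sum_eq h3, h5, sub_self, zero_div, mul_zero, zero_mul]
  rw [Finset.sum_congr rfl fun b _ => h2 b, Finset.sum_ite_eq' univ _
    (fun b => κt t * (S j b : ℂ)), if_pos (Finset.mem_univ _)]

/-- **The products of determinants are Hodge classes.** -/
theorem hodge_detF {S : ι → ZMod d → ℚ} (hS : HasHodgeSums κ T X d S)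
    (hXT : X * mC T = mC T * X) (hXb : ∀ a b, κ a ≠ κ b → X a b = 0)
    {r : ℕ} {i : Fin r → ι} {b : Fin r → ZMod d}
    (hrel : ∀ t : (ZMod d)ˣ, ∑ a, S (i a) ((t : ZMod d) * b a) = 0)
    (e : (Σ a, Part (fun p => (i' p, β p)) (fun a => (i a, b a)) a) ≃ Fin k) (φ : ℂ →ₗ[ℚ] ℚ) :
    IsHodge X (0 : Matrix Unit Unit ℂ) (fun J _ => φ (detF v (fun p => (i' p, β p))
      (fun a => (i a, b a)) e J)) := by
  classical
  apply hodge_of_parts
  intro ψ
  funext J l
  rw [act_taur]
  have h0 : mC ((0 : Matrix Unit Unit ℂ).map ψ) = 0 := by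
    ext p q
    simp [mC]
  show φ (act (mC (X.map ψ), mC ((0 : Matrix Unit Unit ℂ).map ψ)) _ J l) = 0
  rw [h0]
  let τ : ℂ →ₗ[ℚ] ℂ := (Algebra.linearMap ℚ ℂ).comp ψ
  have hτ : mC (X.map ψ) = X.map τ := by
    ext p q
    rfl
  rw [hτ]
  have hc : X.map τ * mC T = mC T * X.map τ := by
    rw [← map_mul_C, hXT, map_C_mul]
  have hb' : ∀ a b, κ a ≠ κ b → X.map τ a b = 0 := by
    intro a b hab
    rw [Matrix.map_apply, hXb a b hab, map_zero]
  rw [act_detF v _ _ e (X.map τ) (fun p p' h => coord_zero hv hc hb' h)]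
  obtain ⟨κt, hκ⟩ := galois_expand (d := d) τ
  have h1 : ∑ a, ∑ p : Part (fun p => (i' p, β p)) (fun a => (i a, b a)) a,
      v.coord p.1 (X.map τ *ᵥ v p.1) = 0 := by
    have h2 : ∀ a, ∑ p : Part (fun p => (i' p, β p)) (fun a => (i a, b a)) a,
        v.coord p.1 (X.map τ *ᵥ v p.1) = ∑ t, κt t * (S (i a) ((t⁻¹ : (ZMod d)ˣ) * b a) : ℂ) := by
      intro a
      rw [← trace_part_tau hv hS hκ (i a) (b a)]
      rw [← Finset.sum_subtype_eq_sum_filter, Finset.subtype_univ]
    rw [Finset.sum_congr rfl fun a _ => h2 a, Finset.sum_comm]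
    refine Finset.sum_eq_zero fun t _ => ?_
    rw [← Finset.mul_sum]
    have h3 := hrel t⁻¹
    have h4 : ∑ a, (S (i a) ((t⁻¹ : (ZMod d)ˣ) * b a) : ℂ) = 0 := by
      exact_mod_cast h3
    rw [h4, mul_zero]
  rw [h1, zero_mul, map_zero]

end

end Pool.Agent.H842.CW
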