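import Pool.Agent.H842.CW.Conv3

/-!
# Products of determinants: values at eigenvectors
-/

set_option linter.unusedSectionVars false

open Matrix Finset Function

namespace Pool.Agent.H842.CW

open Pool.Agent.TH125.Nod Pool.Agent.H842.CR

section
variable {B : Type} [Fintype B] [DecidableEq B] {I : Type} [Fintype I]
  [DecidableEq I] {Z : Type} [DecidableEq Z] {r : ℕ}

theorem coord_expand (v : Module.Basis I ℂ (B → ℂ)) (p : I) (w : B → ℂ) :
    ∑ b, v.coord p (Pi.single b 1) * w b = v.coord p w := by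
  have h1 : w = ∑ b, w b • (Pi.single b 1 : B → ℂ) := by
    funext b'
    rw [Finset.sum_apply]
    simp only [Pi.smul_apply, smul_eq_mul, Pi.single_apply, mul_ite, mul_one, mul_zero]
    rw [Finset.sum_ite_eq univ b' w, if_pos (Finset.mem_univ _)]
  conv_rhs => rw [h1]
  rw [map_sum]
  refine Finset.sum_congr rfl fun b _ => ?_
  rw [map_smul, smul_eq_mul, mul_comm]

/-- the value of one determinant -/
theorem det_expand {P : Type} [Fintype P] [DecidableEq P] (N : P → B → ℂ) (w : P → B → ℂ) :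
    ∑ J : P → B, Matrix.det (fun p q : P => N p (J q)) * ∏ q, w q (J q) =
      Matrix.det (fun p q : P => ∑ b, N p b * w q b) := by
  have h1 : ∀ J : P → B, Matrix.det (fun p q : P => N p (J q)) * ∏ q, w q (J q) =
      ∑ σ : Equiv.Perm P, ((Equiv.Perm.sign σ : ℤ) : ℂ) * ∏ q, (N (σ q) (J q) * w q (J q)) := by
    intro J
    have h2 : Matrix.det (fun p q : P => N p (J q)) =
        ∑ σ : Equiv.Perm P, ((Equiv.Perm.sign σ : ℤ) : ℂ) * ∏ q, N (σ q) (J q) :=
      Matrix.det_apply' (Matrix.of fun p q : P => N p (J q))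
    rw [h2, Finset.sum_mul]
    refine Finset.sum_congr rfl fun σ _ => ?_
    rw [Finset.prod_mul_distrib]
    ring
  have h0 : Matrix.det (fun p q : P => ∑ b, N p b * w q b) =
      ∑ σ : Equiv.Perm P, ((Equiv.Perm.sign σ : ℤ) : ℂ) * ∏ q, ∑ b, N (σ q) b * w q b :=
    Matrix.det_apply' (Matrix.of fun p q : P => ∑ b, N p b * w q b)
  rw [Finset.sum_congr rfl fun J _ => h1 J, Finset.sum_comm, h0]
  refine Finset.sum_congr rfl fun σ _ => ?_
  rw [← Finset.mul_sum]
  congr 1
  have h3 := Finset.prod_univ_sum (fun _ : P => (univ : Finset B))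
    (fun q b => N (σ q) b * w q b)
  rw [Fintype.piFinset_univ] at h3
  exact h3.symm

/-- the value of the product of the determinants at the basis -/
theorem ev_detF (v : Module.Basis I ℂ (B → ℂ)) (ty : I → Z) (c : Fin r → Z) {k : ℕ}
    (e : (Σ a, Part ty c a) ≃ Fin k) :
    ∑ J : Fin k → B, detF v ty c e J * ∏ j, v (e.symm j).2.1 (J j) = 1 := by
  classical
  have h1 : ∑ J : Fin k → B, detF v ty c e J * ∏ j, v (e.symm j).2.1 (J j) =
      ∑ J : (Σ a, Part ty c a) → B, ∏ a, (Matrix.det (fun p q : Part ty c a =>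
        v.coord p.1 (Pi.single (J ⟨a, q⟩) 1)) * ∏ q : Part ty c a, v q.1 (J ⟨a, q⟩)) := by
    refine Fintype.sum_equiv (Equiv.arrowCongr e.symm (Equiv.refl B)) _ _ fun J => ?_
    rw [Finset.prod_mul_distrib]
    congr 1
    rw [← Equiv.prod_comp e, Fintype.prod_sigma]
    refine Finset.prod_congr rfl fun a _ => Finset.prod_congr rfl fun q _ => ?_
    rw [Equiv.symm_apply_apply]
    rfl
  have h2 : ∑ J : (Σ a, Part ty c a) → B, ∏ a, (Matrix.det (fun p q : Part ty c a =>
        v.coord p.1 (Pi.single (J ⟨a, q⟩) 1)) * ∏ q : Part ty c a, v q.1 (J ⟨a, q⟩)) =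
      ∑ J : (∀ a, Part ty c a → B), ∏ a, (Matrix.det (fun p q : Part ty c a =>
        v.coord p.1 (Pi.single (J a q) 1)) * ∏ q : Part ty c a, v q.1 (J a q)) := by
    exact Fintype.sum_equiv (Equiv.piCurry (fun (a : Fin r) (_ : Part ty c a) => B)) _ _
      fun J => rfl
  have h3 := Finset.prod_univ_sum (fun a : Fin r => (univ : Finset (Part ty c a → B)))
    (fun a (J : Part ty c a → B) => Matrix.det (fun p q : Part ty c a =>
        v.coord p.1 (Pi.single (J q) 1)) * ∏ q : Part ty c a, v q.1 (J q))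
  rw [Fintype.piFinset_univ] at h3
  rw [h1, h2, ← h3]
  refine Finset.prod_eq_one fun a _ => ?_
  rw [det_expand (fun (p : Part ty c a) b => v.coord p.1 (Pi.single b 1))
    (fun q : Part ty c a => v q.1)]
  have h4 : (fun p q : Part ty c a => ∑ b, v.coord p.1 (Pi.single b 1) * v q.1 b) =
      (1 : Matrix (Part ty c a) (Part ty c a) ℂ) := by
    funext p q
    rw [coord_expand, Module.Basis.coord_apply, Module.Basis.repr_self, Finsupp.single_apply,
      Matrix.one_apply]
    by_cases h : p = q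
    · rw [if_pos h, if_pos (congrArg Subtype.val h.symm)]
    · rw [if_neg h, if_neg (fun h' => h (Subtype.ext h'.symm))]
  rw [h4, Matrix.det_one]

end

section
variable {B : Type} [Fintype B] [DecidableEq B] {D : Type} [Fintype D]
  [DecidableEq D] {ι : Type} [DecidableEq ι] {k : ℕ}

/-- the value of a bilinear form at eigenvectors -/
theorem pair_zero {κ : B → ι} {Q T : Matrix B B ℚ} (hQT : Tᵀ * Q * T = Q)
    (hb : ∀ a b, κ a ≠ κ b → T a b = 0) (hQb : ∀ a b, κ a ≠ κ b → Q a b = 0)
    {v v' : B → ℂ} {μ μ' : ℂ} {j j' : ι} (hv : ∀ b, κ b ≠ j → v b = 0)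
    (hv' : ∀ b, κ b ≠ j' → v' b = 0) (hT : mC T *ᵥ v = μ • v) (hT' : mC T *ᵥ v' = μ' • v')
    (hne : j = j' → μ * μ' ≠ 1) (c : ι) (a : ℕ) :
    ∑ b, ∑ b', ((block κ (Q * T ^ a) c b b' : ℚ) : ℂ) * (v b * v' b') = 0 := by
  classical
  have hQa : ∀ (a : ℕ) (b b'), κ b ≠ κ b' → (Q * T ^ a) b b' = 0 := by
    intro a
    induction a with
    | zero =>
      intro b b' h
      rw [pow_zero, mul_one]
      exact hQb b b' h
    | succ a ih =>
      intro b b' h
      rw [pow_succ, ← mul_assoc, Matrix.mul_apply]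
      refine Finset.sum_eq_zero fun q _ => ?_
      by_cases hq : κ b = κ q
      · rw [hb q b' (fun h' => h (hq.trans h')), mul_zero]
      · rw [ih b q hq, zero_mul]
  by_cases hj : j = j'
  · subst hj
    have hμ := hne rfl
    -- the full form
    have h1 : v ⬝ᵥ (mC Q *ᵥ v') = 0 := by
      have h2 : (mC T *ᵥ v) ⬝ᵥ (mC Q *ᵥ (mC T *ᵥ v')) = v ⬝ᵥ (mC Q *ᵥ v') := by
        rw [← Matrix.vecMul_transpose, ← Matrix.dotProduct_mulVec, Matrix.mulVec_mulVec,
          Matrix.mulVec_mulVec]
        congr 2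
        have h3 : mC (Tᵀ * Q * T) = (mC T)ᵀ * mC Q * mC T := by
          rw [mC_mul, mC_mul]
          rfl
        rw [← h3, hQT]
      rw [hT, hT', Matrix.mulVec_smul, smul_dotProduct, dotProduct_smul, smul_eq_mul,
        smul_eq_mul, ← mul_assoc] at h2
      have h3 : (μ * μ' - 1) * (v ⬝ᵥ (mC Q *ᵥ v')) = 0 := by linear_combination h2
      rcases mul_eq_zero.1 h3 with h | h
      · exact absurd (sub_eq_zero.1 h) hμ
      · exact h
    have h4 : v ⬝ᵥ (mC (Q * T ^ a) *ᵥ v') = 0 := by
      rw [mC_mul, mC_pow, ← Matrix.mulVec_mulVec, pow_eig hT', Matrix.mulVec_smul,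
        dotProduct_smul, h1, smul_zero]
    by_cases hc : j = c
    · rw [← h4]
      show _ = ∑ b, v b * ∑ b', mC (Q * T ^ a) b b' * v' b'
      refine Finset.sum_congr rfl fun b _ => ?_
      rw [Finset.mul_sum]
      refine Finset.sum_congr rfl fun b' _ => ?_
      unfold block
      by_cases hbj : κ b = c
      · rw [if_pos hbj]
        show _ = v b * (((Q * T ^ a) b b' : ℚ) * v' b')
        ring
      · rw [hv b (fun h => hbj (h.trans hc))]
        ring
    · refine Finset.sum_eq_zero fun b _ => Finset.sum_eq_zero fun b' _ => ?_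
      unfold block
      by_cases hbj : κ b = c
      · rw [hv b (fun h => hc (h.symm.trans hbj)), zero_mul, mul_zero]
      · rw [if_neg hbj, Rat.cast_zero, zero_mul]
  · refine Finset.sum_eq_zero fun b _ => Finset.sum_eq_zero fun b' _ => ?_
    unfold block
    by_cases hb1 : κ b = j
    · by_cases hb2 : κ b' = j'
      · have : (Q * T ^ a) b b' = 0 := hQa a b b' (fun h => hj (by rw [← hb1, ← hb2, h]))
        rw [this, ite_self, Rat.cast_zero, zero_mul]
      · rw [hv' b' hb2, mul_zero, mul_zero]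
    · rw [hv b hb1, zero_mul, mul_zero]

/-- products of forms vanish at eigenvectors without opposite pairs -/
theorem ev_prod_zero {κ : B → ι} {Q T : Matrix B B ℚ} (hQT : Tᵀ * Q * T = Q)
    (hb : ∀ a b, κ a ≠ κ b → T a b = 0) (hQb : ∀ a b, κ a ≠ κ b → Q a b = 0)
    (hk : 0 < k) {v : Fin k → B → ℂ} {μ : Fin k → ℂ} {j : Fin k → ι}
    (hv : ∀ x, (∀ b, κ b ≠ j x → v x b = 0) ∧ mC T *ᵥ v x = μ x • v x)
    (hne : ∀ x x', j x = j x' → μ x * μ x' ≠ 1) {y : Matrix D D ℂ} (w : D → ℂ)
    {f : (Fin k → B) → D → ℚ} (hf : f ∈ Submodule.span ℚ (productsT κ Q T y k)) :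
    ev f v w = 0 := by
  classical
  induction hf using Submodule.span_induction with
  | zero =>
    unfold ev
    simp
  | add f g _ _ hf hg =>
    have : ev (f + g) v w = ev f v w + ev g v w := by
      unfold ev
      simp only [Pi.add_apply, Rat.cast_add, add_mul, Finset.sum_add_distrib]
    rw [this, hf, hg, add_zero]
  | smul a f _ hf =>
    have : ev (a • f) v w = (a : ℂ) * ev f v w := by
      unfold ev
      simp only [Pi.smul_apply, smul_eq_mul, Rat.cast_mul, Finset.mul_sum]
      exact Finset.sum_congr rfl fun _ _ => Finset.sum_congr rfl fun _ _ => by ring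
    rw [this, hf, mul_zero]
  | mem f hf =>
    obtain ⟨m, e, c, a, h, -, rfl⟩ := hf
    have hm : 0 < m := by
      rcases Nat.eq_zero_or_pos m with rfl | hm
      · exact (e.symm ⟨0, hk⟩).1.elim0
      · exact hm
    unfold ev
    have h1 : ∀ (J : Fin k → B) (l : D), (((∏ t, block κ (Q * T ^ a t) (c t) (J (e (t, 0)))
        (J (e (t, 1)))) * h l : ℚ) : ℂ) * (∏ x, v x (J x)) * w l =
        (∏ t, ((block κ (Q * T ^ a t) (c t) (J (e (t, 0))) (J (e (t, 1))) : ℚ) : ℂ) *
          (v (e (t, 0)) (J (e (t, 0))) * v (e (t, 1)) (J (e (t, 1))))) * (h l * w l) := by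
      intro J l
      have h2 : ∏ x, v x (J x) =
          ∏ t : Fin m, v (e (t, 0)) (J (e (t, 0))) * v (e (t, 1)) (J (e (t, 1))) := by
        rw [← Equiv.prod_comp e, Fintype.prod_prod_type]
        refine Finset.prod_congr rfl fun t _ => ?_
        rw [Fin.prod_univ_two]
      rw [h2]
      simp only [Finset.prod_mul_distrib]
      push_cast
      ring
    simp only [h1, ← Finset.mul_sum, ← Finset.sum_mul]
    have h3 : ∑ J : Fin k → B,
        ∏ t, ((block κ (Q * T ^ a t) (c t) (J (e (t, 0))) (J (e (t, 1))) : ℚ) : ℂ) *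
          (v (e (t, 0)) (J (e (t, 0))) * v (e (t, 1)) (J (e (t, 1)))) = 0 := by
      have h4 : ∑ J : Fin k → B,
          ∏ t, ((block κ (Q * T ^ a t) (c t) (J (e (t, 0))) (J (e (t, 1))) : ℚ) : ℂ) *
            (v (e (t, 0)) (J (e (t, 0))) * v (e (t, 1)) (J (e (t, 1)))) =
          ∑ J : Fin m → Fin 2 → B, ∏ t,
            ((block κ (Q * T ^ a t) (c t) (J t 0) (J t 1) : ℚ) : ℂ) *
            (v (e (t, 0)) (J t 0) * v (e (t, 1)) (J t 1)) := by
        refine Fintype.sum_equiv ((Equiv.arrowCongr e.symm (Equiv.refl B)).trans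
          (Equiv.curry _ _ _)) _ _ fun J => ?_
        rfl
      have h5 := Finset.prod_univ_sum (fun _ : Fin m => (univ : Finset (Fin 2 → B)))
        (fun t (J : Fin 2 → B) => ((block κ (Q * T ^ a t) (c t) (J 0) (J 1) : ℚ) : ℂ) *
            (v (e (t, 0)) (J 0) * v (e (t, 1)) (J 1)))
      rw [Fintype.piFinset_univ] at h5
      rw [h4, ← h5]
      apply Finset.prod_eq_zero (Finset.mem_univ (⟨0, hm⟩ : Fin m))
      set t : Fin m := ⟨0, hm⟩
      have h6 : ∑ J : Fin 2 → B, ((block κ (Q * T ^ a t) (c t) (J 0) (J 1) : ℚ) : ℂ) *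
            (v (e (t, 0)) (J 0) * v (e (t, 1)) (J 1)) =
          ∑ p : B × B, ((block κ (Q * T ^ a t) (c t) p.1 p.2 : ℚ) : ℂ) *
            (v (e (t, 0)) p.1 * v (e (t, 1)) p.2) :=
        Fintype.sum_equiv (finTwoArrowEquiv B) _ _ fun J => rfl
      rw [h6, Fintype.sum_prod_type]
      exact pair_zero hQT hb hQb (hv _).1 (hv _).1 (hv _).2 (hv _).2 (hne _ _) (c t) (a t)
    rw [h3, zero_mul]

/-- a complex form is not zero if its rational parts are not zero -/
theorem exists_part {F : (Fin k → B) → ℂ} {v : Fin k → B → ℂ}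
    (hF : ∑ J : Fin k → B, F J * ∏ x, v x (J x) ≠ 0) :
    ∃ φ : ℂ →ₗ[ℚ] ℚ, ev (fun J (_ : Unit) => φ (F J)) v (fun _ => 1) ≠ 0 := by
  classical
  by_contra hcon
  push Not at hcon
  apply hF
  let b := Module.Basis.ofVectorSpace ℚ ℂ
  let S := (univ : Finset (Fin k → B)).biUnion fun J => (b.repr (F J)).support
  have hS : ∀ J, F J = ∑ t ∈ S, b t * ((b.coord t (F J) : ℚ) : ℂ) := by
    intro J
    have h1 : F J = ∑ t ∈ (b.repr (F J)).support, b.repr (F J) t • b t := by
      conv_lhs => rw [← b.linearCombination_repr (F J)]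
      rfl
    conv_lhs => rw [h1]
    rw [← Finset.sum_subset (s₁ := (b.repr (F J)).support) (s₂ := S)]
    · refine Finset.sum_congr rfl fun t _ => ?_
      rw [Algebra.smul_def, mul_comm]
      rfl
    · exact Finset.subset_biUnion_of_mem (fun J => (b.repr (F J)).support) (Finset.mem_univ J)
    · intro t _ ht
      rw [Finsupp.notMem_support_iff] at ht
      rw [Module.Basis.coord_apply, ht, Rat.cast_zero, mul_zero]
  calc ∑ J : Fin k → B, F J * ∏ x, v x (J x) =
        ∑ J : Fin k → B, ∑ t ∈ S, b t * (((b.coord t (F J) : ℚ) : ℂ) * ∏ x, v x (J x)) := by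
          refine Finset.sum_congr rfl fun J _ => ?_
          conv_lhs => rw [hS J]
          rw [Finset.sum_mul]
          exact Finset.sum_congr rfl fun t _ => by ring
    _ = ∑ t ∈ S, b t * ∑ J : Fin k → B, ((b.coord t (F J) : ℚ) : ℂ) * ∏ x, v x (J x) := by
          rw [Finset.sum_comm]
          exact Finset.sum_congr rfl fun t _ => (Finset.mul_sum _ _ _).symm
    _ = 0 := by
          refine Finset.sum_eq_zero fun t _ => ?_
          have h1 := hcon (b.coord t)
          unfold ev at h1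
          simp only [Finset.univ_unique, Finset.sum_singleton, mul_one] at h1
          rw [h1, mul_zero]

end

end Pool.Agent.H842.CW
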