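import Pool.Agent.H842.CW.Conv4
import Pool.Agent.H842.CW.Arith2

/-!
# Exceptional Hodge classes
-/

set_option linter.unusedSectionVars false

open Matrix Finset Function

namespace Pool.Agent.H842.CW

open Pool.Agent.TH125.Nod Pool.Agent.H842.CR Pool.Agent.H916R2

variable {B : Type} [Fintype B] [DecidableEq B] {ι : Type} [DecidableEq ι]

/-- the eigenvalues -/
theorem exists_idx2 {κ : B → ι} {T : Matrix B B ℚ} {d : ℕ} [NeZero d] {I : Type}
    {v : Module.Basis I ℂ (B → ℂ)} {i' : I → ι} {β : I → ZMod d}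
    (hv : ∀ a, (∀ b, κ b ≠ i' a → v a b = 0) ∧ mC T *ᵥ v a = (zt d ^ (β a).val) • v a) {j : ι}
    {c : ZMod d} (hz : eigenpart κ T j (zt d ^ c.val) ≠ ⊥) : ∃ p, (i' p, β p) = (j, c) := by
  classical
  obtain ⟨w, hw, hw0⟩ := (Submodule.ne_bot_iff _).1 hz
  obtain ⟨a, ha⟩ : ∃ a, v.coord a w ≠ 0 := by
    by_contra hcon
    push Not at hcon
    apply hw0
    apply v.repr.injective
    rw [map_zero]
    ext a
    exact hcon a
  have h1 := coord_eig v (L := mC T) (μ := fun a => zt d ^ (β a).val)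
    (fun a => (hv a).2) a w
  rw [hw.2, map_smul, smul_eq_mul] at h1
  have h2 : zt d ^ c.val = zt d ^ (β a).val := mul_right_cancel₀ ha h1
  have h3 := coord_eig v (L := diagonal (fun b => if κ b = j then (1 : ℂ) else 0))
    (μ := fun a => if i' a = j then (1 : ℂ) else 0) (fun a => by
      funext b
      rw [mulVec_diagonal, Pi.smul_apply, smul_eq_mul]
      by_cases hb : κ b = i' a
      · rw [hb]
      · rw [(hv a).1 b hb, mul_zero, mul_zero]) a w
  have h4 : diagonal (fun b => if κ b = j then (1 : ℂ) else 0) *ᵥ w = w := by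
    funext b
    rw [mulVec_diagonal]
    by_cases hb : κ b = j
    · rw [if_pos hb, one_mul]
    · rw [hw.1 b hb, mul_zero]
  rw [h4] at h3
  have h5 : i' a = j := by
    by_contra hne
    rw [if_neg hne, zero_mul] at h3
    exact ha h3
  exact ⟨a, by rw [h5, ← zt_inj h2]⟩

/-- **Exceptional Hodge classes.** Each numerical relation gives a Hodge class which is not a
combination of products of forms. -/
theorem exists_exceptional {κ : B → ι} {Q T : Matrix B B ℚ} {X : Matrix B B ℂ} {d : ℕ} [NeZero d]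
    (hQT : Tᵀ * Q * T = Q) (hb : ∀ a b, κ a ≠ κ b → T a b = 0)
    (hQb : ∀ a b, κ a ≠ κ b → Q a b = 0) (hXT : X * mC T = mC T * X)
    (hXb : ∀ a b, κ a ≠ κ b → X a b = 0) {S : ι → ZMod d → ℚ} (hS : HasHodgeSums κ T X d S)
    {r : ℕ} (hr : 0 < r) {i : Fin r → ι} {b : Fin r → ZMod d}
    (hne : ∀ a, eigenpart κ T (i a) (zt d ^ (b a).val) ≠ ⊥)
    (hno : ∀ a a', i a = i a' → b a + b a' ≠ 0)
    (hrel : ∀ t : (ZMod d)ˣ, ∑ a, S (i a) ((t : ZMod d) * b a) = 0) :
    ∃ (k : ℕ) (f : (Fin k → B) → Unit → ℚ), IsHodge X (0 : Matrix Unit Unit ℂ) f ∧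
      f ∉ Submodule.span ℚ (productsT κ Q T (0 : Matrix Unit Unit ℂ) k) := by
  classical
  have hS' := hS
  obtain ⟨I, hI, v, i', β, dg, hv, hsum⟩ := hS'
  let e := Fintype.equivFin (Σ a, Part (fun p => (i' p, β p)) (fun a => (i a, b a)) a)
  have hev := ev_detF v (fun p => (i' p, β p)) (fun a => (i a, b a)) e
  obtain ⟨φ, hφ⟩ := exists_part (F := detF v (fun p => (i' p, β p)) (fun a => (i a, b a)) e)
    (v := fun j => v (e.symm j).2.1) (by rw [hev]; exact one_ne_zero)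
  refine ⟨_, fun J _ => φ (detF v (fun p => (i' p, β p)) (fun a => (i a, b a)) e J),
    hodge_detF hv hS hXT hXb hrel e φ, fun hf => hφ ?_⟩
  have hk : 0 < Fintype.card (Σ a, Part (fun p => (i' p, β p)) (fun a => (i a, b a)) a) := by
    rw [Fintype.card_pos_iff]
    obtain ⟨p, hp⟩ := exists_idx2 (fun a => ⟨(hv a).1, (hv a).2.1⟩) (hne ⟨0, hr⟩)
    exact ⟨⟨⟨0, hr⟩, ⟨p, hp⟩⟩⟩
  refine ev_prod_zero hQT hb hQb hk (μ := fun j => zt d ^ (β (e.symm j).2.1).val)
    (j := fun j => i' (e.symm j).2.1) (fun x => ⟨(hv _).1, (hv _).2.1⟩) (fun x x' hxx h => ?_) _ hf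
  have h1 := Prod.ext_iff.1 (e.symm x).2.2
  have h2 := Prod.ext_iff.1 (e.symm x').2.2
  have e1 : i' (e.symm x).2.1 = i (e.symm x).1 := h1.1
  have e2 : i' (e.symm x').2.1 = i (e.symm x').1 := h2.1
  have h3 : i (e.symm x).1 = i (e.symm x').1 := by
    rw [← e1, ← e2]
    exact hxx
  apply hno _ _ h3
  have h4 : b (e.symm x).1 = β (e.symm x).2.1 := h1.2.symm
  have h5 : b (e.symm x').1 = β (e.symm x').2.1 := h2.2.symm
  rw [h4, h5]
  apply zt_inj
  rw [ZMod.val_zero, pow_zero, ← h, ← pow_add]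
  apply zt_mod (NeZero.ne d)
  rw [← ZMod.natCast_eq_natCast_iff]
  push_cast
  simp only [ZMod.natCast_zmod_val]

/-- **Relations** for all other orders. -/
theorem not_noRelation {κ : B → ι} {T : Matrix B B ℚ} {d : ℕ} [NeZero d] (hT : T ^ d = 1)
    {q : ι → ℕ} {C : ι → ℚ} (hq : ∀ i, 3 ≤ q i) {S : ι → ZMod d → ℚ}
    (hS2 : ∀ (j : ι) (c : ZMod d), eigenpart κ T j (zt d ^ c.val) ≠ ⊥ →
        ∃ β : ℕ, zt d ^ c.val = zt (q j) ^ β ∧ (zt d ^ c.val) ^ 2 ≠ 1 ∧
          ∀ t : (ZMod d)ˣ, S j (t * c) =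
            C j * (saw (((t : ZMod d).val * β : ℕ) : ZMod (q j)) : ℚ))
    (hne : ∀ i (c : ZMod (q i)), 2 * c ≠ 0 → eigenpart κ T i (zt (q i) ^ c.val) ≠ ⊥)
    (hbad : ¬ (Injective q ∧ (∀ i, q i = 4 ∨ (q i).Prime ∧ q i ≠ 2) ∧ ∀ i, C i ≠ 0)) :
    ¬ NoRelation κ T d S := by
  classical
  intro hNR
  have hd0 : d ≠ 0 := NeZero.ne d
  have hq0 : ∀ j, NeZero (q j) := fun j => ⟨by have := hq j; omega⟩
  obtain ⟨r, i, β, hr, hno, hrel⟩ := exists_rel_all hq hbad
  have hTC : mC T ^ d = 1 := by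
    rw [← mC_pow, hT]
    unfold mC
    rw [Matrix.map_one _ (by simp) (by simp)]
  -- eigenvalues are roots of unity of order dividing `d`
  have hroot : ∀ (j : ι) (z : ℂ), eigenpart κ T j z ≠ ⊥ → z ^ d = 1 := by
    intro j z hz
    obtain ⟨w, hw, hw0⟩ := (Submodule.ne_bot_iff _).1 hz
    have h1 := pow_mulVec hw.2 d
    rw [hTC, one_mulVec] at h1
    have h2 : (1 : ℂ) • w = z ^ d • w := by
      rw [one_smul]
      exact h1
    exact (smul_left_injective ℂ hw0 h2).symm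
  have hdvd : ∀ j, q j ∣ d := by
    intro j
    have h1 : (2 : ZMod (q j)) * 1 ≠ 0 := by
      have := cast_ne_of_lt (by norm_num : 0 < 2) (hq j)
      rw [mul_one]
      exact_mod_cast this
    have h2 := hroot j _ (hne j 1 h1)
    have h3 : (1 : ZMod (q j)).val = 1 := by
      have : Fact (1 < q j) := ⟨by have := hq j; omega⟩
      exact ZMod.val_one _
    rw [h3, pow_one] at h2
    exact (zt_prim (q j) (hq0 j).out).dvd_of_pow_eq_one _ h2
  have h2β : ∀ a, (2 : ZMod (q (i a))) * ((β a : ℕ) : ZMod (q (i a))) ≠ 0 := by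
    intro a h
    apply hno a a rfl
    push_cast
    linear_combination h
  have hc : ∀ a, ∃ c : ZMod d, zt d ^ c.val = zt (q (i a)) ^ β a := by
    intro a
    have h1 := hroot _ _ (hne (i a) _ (h2β a))
    have h2 : zt (q (i a)) ^ ((β a : ℕ) : ZMod (q (i a))).val = zt (q (i a)) ^ β a := by
      apply zt_mod (hq0 _).out
      rw [← ZMod.natCast_eq_natCast_iff, ZMod.natCast_zmod_val]
    rw [h2] at h1
    obtain ⟨n, hn, hn'⟩ := (zt_prim d hd0).eq_pow_of_pow_eq_one h1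
    refine ⟨(n : ZMod d), ?_⟩
    rw [ZMod.val_natCast, Nat.mod_eq_of_lt hn]
    exact hn'
  choose c hc using hc
  have hne' : ∀ a, eigenpart κ T (i a) (zt d ^ (c a).val) ≠ ⊥ := by
    intro a
    have h1 := hne (i a) _ (h2β a)
    have h2 : zt (q (i a)) ^ ((β a : ℕ) : ZMod (q (i a))).val = zt (q (i a)) ^ β a := by
      apply zt_mod (hq0 _).out
      rw [← ZMod.natCast_eq_natCast_iff, ZMod.natCast_zmod_val]
    rw [h2, ← hc a] at h1
    exact h1
  refine hr.ne' (hNR r i c hne' ?_ ?_)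
  · intro a a' haa h
    apply hno a a' haa
    have h1 : zt d ^ (c a).val * zt d ^ (c a').val = 1 := by
      rw [← pow_add]
      have : zt d ^ ((c a).val + (c a').val) = zt d ^ (0 : ℕ) := by
        apply zt_mod hd0
        rw [← ZMod.natCast_eq_natCast_iff]
        push_cast
        simp only [ZMod.natCast_zmod_val]
        exact h
      rw [this, pow_zero]
    have h2 : zt d ^ (c a').val = zt (q (i a)) ^ β a' := by
      rw [haa]
      exact hc a'
    rw [hc a, h2, ← pow_add] at h1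
    rw [ZMod.natCast_eq_zero_iff]
    exact ((zt_prim _ (hq0 (i a)).out).pow_eq_one_iff_dvd _).1 h1
  · intro t
    have h1 : ∀ a, S (i a) ((t : ZMod d) * c a) =
        C (i a) * (saw (((t : ZMod d).val * β a : ℕ) : ZMod (q (i a))) : ℚ) := by
      intro a
      obtain ⟨β', hβ1, -, hβ3⟩ := hS2 (i a) (c a) (hne' a)
      rw [hβ3 t]
      congr 3
      have h2 : zt (q (i a)) ^ β' = zt (q (i a)) ^ β a := by rw [← hβ1, hc a]
      have h3 : ((β' : ℕ) : ZMod (q (i a))) = β a := by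
        apply zt_inj
        have h4 : ∀ n : ℕ, zt (q (i a)) ^ ((n : ℕ) : ZMod (q (i a))).val = zt (q (i a)) ^ n := by
          intro n
          apply zt_mod (hq0 _).out
          rw [← ZMod.natCast_eq_natCast_iff, ZMod.natCast_zmod_val]
        rw [h4, h4, h2]
      rw [Nat.cast_mul, Nat.cast_mul, h3]
    rw [Finset.sum_congr rfl fun a _ => h1 a]
    refine hrel (t : ZMod d).val fun a => ?_
    exact Nat.Coprime.coprime_dvd_right (hdvd (i a)) (ZMod.val_coe_unit_coprime t)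

/-- tuples of nonzero residues -/
theorem exists_tuple {e : ℕ} (he : 3 ≤ e) (n : ℕ) (z : ZMod e) :
    ∃ a : Fin (n + 2) → ZMod e, (∀ j, a j ≠ 0) ∧ ∑ j, a j = z := by
  have : NeZero e := ⟨by omega⟩
  induction n generalizing z with
  | zero =>
    obtain ⟨c, hc⟩ : ∃ c : ZMod e, c ∉ ({0, z} : Finset (ZMod e)) := by
      by_contra h
      push Not at h
      have h1 : (Finset.univ : Finset (ZMod e)) ⊆ {0, z} := fun c _ => h c
      have h2 := Finset.card_le_card h1
      rw [Finset.card_univ, ZMod.card] at h2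
      have h3 : ({0, z} : Finset (ZMod e)).card ≤ 2 := Finset.card_le_two
      omega
    rw [Finset.mem_insert, Finset.mem_singleton] at hc
    push Not at hc
    refine ⟨![c, z - c], ?_, ?_⟩
    · intro j
      fin_cases j
      · exact hc.1
      · exact sub_ne_zero.2 (Ne.symm hc.2)
    · rw [Fin.sum_univ_two]
      simp
  | succ n ih =>
    obtain ⟨a, ha, hsum⟩ := ih (z - 1)
    refine ⟨Fin.cons 1 a, ?_, ?_⟩
    · intro j
      refine Fin.cases ?_ (fun j => ?_) j
      · rw [Fin.cons_zero]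
        have := cast_ne_of_lt (by norm_num : 0 < 1) (by omega : 1 < e)
        exact_mod_cast this
      · rw [Fin.cons_succ]
        exact ha j
    · rw [Fin.sum_univ_succ]
      simp only [Fin.cons_zero, Fin.cons_succ]
      rw [hsum]
      ring

/-- the eigenspaces of coverings of projective spaces -/
theorem IsCover.eigenpart_ne {κ : B → ι} {T : Matrix B B ℚ} {X : Matrix B B ℂ} {q m n : ι → ℕ}
    (h : IsCover κ T X q m n) (hq : ∀ i, 3 ≤ q i ∧ 0 < m i ∧ 0 < n i) (i : ι) (c : ZMod (q i))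
    (hc : 2 * c ≠ 0) : eigenpart κ T i (zt (q i) ^ c.val) ≠ ⊥ := by
  obtain ⟨v, hv⟩ := h
  obtain ⟨h3, hm, hn⟩ := hq i
  have he : 3 ≤ q i * m i := le_trans h3 (Nat.le_mul_of_pos_right _ hm)
  obtain ⟨n', hn'⟩ : ∃ n', n i + 1 = n' + 2 := ⟨n i - 1, by omega⟩
  obtain ⟨a, ha, hsum⟩ : ∃ a : Fin (n i + 1) → ZMod (q i * m i), (∀ j, a j ≠ 0) ∧
      ∑ j, a j = -((m i * c.val : ℕ) : ZMod (q i * m i)) := by
    rw [hn']
    exact exists_tuple he n' _
  let idx : CoverIndex (q i) (m i) (n i) := ⟨(c, a), hc, ha, by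
    show ((m i * c.val : ℕ) : ZMod (q i * m i)) + ∑ j, a j = 0
    rw [hsum, add_neg_cancel]⟩
  rw [Submodule.ne_bot_iff]
  exact ⟨v ⟨i, idx⟩, ⟨(hv i idx).1, (hv i idx).2.1⟩, v.ne_zero _⟩

theorem Cst_zero {p m n : ℕ} (hp : 3 ≤ p) (h : n = 2 ∧ p * m = 3) : Cst p m n = 0 := by
  obtain ⟨rfl, h⟩ := h
  have hm : m = 1 := by
    rcases Nat.lt_or_ge m 2 with h2 | h2
    · interval_cases m
      · omega
      · rfl
    · nlinarith
  subst hm
  have : p = 3 := by omega
  subst this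
  unfold Cst
  have h1 : AN (3 * 1) (2 + 1) = 3 := rfl
  rw [h1]
  norm_num

end Pool.Agent.H842.CW
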