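import Pool.Agent.H842.CW.Tens

/-!
# Real blocks: definitions
-/

open Matrix Finset Function

namespace Pool.Agent.H842.CW

open Pool.Agent.TH125.Nod

/-- There is a monodromy operator `γ` which acts on the block `W_j` by a Picard-Lefschetz formula
`v ↦ v + c Q (δ, v) δ` (a reflection or a transvection) and trivially on the other blocks of `W`
and on the variation `y`, and which acts on the variation `x` by an operator `θ` which commutes with
`T` and satisfies `(θ - 1) (θ - s T) = 0`, where `s = 1` if the form on `W_j` is symmetric and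
`s = - 1` if it is alternating. For instance `θ = 1`, or `θ = s T` on the space `ℚ[T] δ'` of a second
vanishing cycle `δ'` and `θ = 1` on its orthogonal complement. For each point `u` there is a point
`u'` (the image of `u` under the covering transformation) such that the monodromy operator is an
isomorphism from the Hodge structures at `u` to those at `u'`. -/
def HasNodeT {E : Type} (U : Set E) {ι' B' B D : Type} [Fintype B'] [DecidableEq B'] [Fintype B]
    [DecidableEq B] (κ' : B' → ι') (s' : ι' → ℤ) (Q' : Matrix B' B' ℚ) (w : E → Matrix B' B' ℂ)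
    (x : E → Matrix B B ℂ) (y : E → Matrix D D ℂ) (T : Matrix B B ℚ) (j : ι') : Prop :=
  ∃ (δ : B' → ℚ) (c : ℚ) (γ : Matrix B' B' ℚ) (θ : Matrix B B ℚ), δ ≠ 0 ∧ c ≠ 0 ∧
    (∀ b, κ' b ≠ j → δ b = 0) ∧ γ = 1 + c • vecMulVec δ (δ ᵥ* Q') ∧ γᵀ * Q' * γ = Q' ∧
    θ * T = T * θ ∧ (θ - 1) * (θ - ((s' j : ℤ) : ℚ) • T) = 0 ∧
    ∀ u ∈ U, ∃ u' ∈ U, w u' * mC γ = mC γ * w u ∧ x u' * mC θ = mC θ * x u ∧ y u' = y u

/-- The forms `(w, z) ↦ (∏ t, Q_(c t) (w_(e (t, 0)), w_(e (t, 1)))) * g z`, where `e` is a partition of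
the `l = 2 m` variables from `W` into ordered pairs, `Q_j` is the polarization of the block `W_j`,
and `g` is a form in the set `S` of forms on `V × ⋯ × V × D`. -/
def withPairs {ι' B' B D : Type} [DecidableEq ι'] (κ' : B' → ι') (Q' : Matrix B' B' ℚ) (k l : ℕ)
    (S : Set ((Fin k → B) → D → ℚ)) : Set ((Fin l → B') → (Fin k → B) × D → ℚ) :=
  {f | ∃ (m : ℕ) (e : Fin m × Fin 2 ≃ Fin l) (c : Fin m → ι'), ∃ g ∈ S,
    f = fun I z => (∏ t, block κ' Q' (c t) (I (e (t, 0))) (I (e (t, 1)))) * g z.1 z.2}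

end Pool.Agent.H842.CW
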