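import Pool.Agent.H842.CW.Node

/-!
# Products with real blocks
-/

set_option linter.unusedSectionVars false

open Matrix Finset Function

namespace Pool.Agent.H842.CW

open Pool.Agent.TH125.Nod Pool.Agent.H842.CR

section
variable {B D : Type} [Fintype B] [DecidableEq B] [Fintype D] [DecidableEq D] {k : ℕ}
  {R : Type} [Field R]

theorem tens_transpose (X : Matrix B B R) (Y : Matrix D D R) :
    (tens k X Y)ᵀ = tens k Xᵀ Yᵀ := by
  ext p q
  show (∑ j, if q.1 = update p.1 j (q.1 j) ∧ q.2 = p.2 then X (q.1 j) (p.1 j) else 0) +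
    (if q.1 = p.1 then Y q.2 p.2 else 0) =
    (∑ j, if p.1 = update q.1 j (p.1 j) ∧ p.2 = q.2 then X (q.1 j) (p.1 j) else 0) +
    (if p.1 = q.1 then Y q.2 p.2 else 0)
  have h1 : ∀ (a b : Fin k → B) (j : Fin k), a = update b j (a j) → b = update a j (b j) := by
    intro a b j h
    funext i
    by_cases hi : i = j
    · subst hi
      rw [update_self]
    · rw [update_of_ne hi, h, update_of_ne hi]
  congr 1
  · refine Finset.sum_congr rfl fun j _ => ?_
    have : (q.1 = update p.1 j (q.1 j) ∧ q.2 = p.2) ↔ (p.1 = update q.1 j (p.1 j) ∧ p.2 = q.2) :=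
      ⟨fun h => ⟨h1 _ _ _ h.1, h.2.symm⟩, fun h => ⟨h1 _ _ _ h.1, h.2.symm⟩⟩
    simp only [this]
  · have : (q.1 = p.1) ↔ (p.1 = q.1) := ⟨Eq.symm, Eq.symm⟩
    simp only [this]

theorem mulVec_pure {X : Matrix B B R} {Y : Matrix D D R} {v : Fin k → B → R} {w : D → R}
    {a : Fin k → R} {b : R} (hv : ∀ j, X *ᵥ v j = a j • v j) (hw : Y *ᵥ w = b • w) :
    tens k X Y *ᵥ (fun p => (∏ j, v j (p.1 j)) * w p.2) =
      (∑ j, a j + b) • (fun p => (∏ j, v j (p.1 j)) * w p.2) := by
  rw [← vecMul_transpose, tens_transpose, vecMul_tens]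
  funext q
  obtain ⟨J, l⟩ := q
  show act (Xᵀ, Yᵀ) (fun J l => (∏ j, v j (J j)) * w l) J l =
    (∑ j, a j + b) * ((∏ j, v j (J j)) * w l)
  rw [act_apply, add_mul, Finset.sum_mul]
  congr 1
  · refine Finset.sum_congr rfl fun j _ => ?_
    have h1 := congrFun (hv j) (J j)
    rw [Pi.smul_apply, smul_eq_mul] at h1
    have h2 : ∀ p, ∏ i, v i (update J j p i) = v j p * ∏ i ∈ univ.erase j, v i (J i) := by
      intro p
      rw [← Finset.mul_prod_erase univ _ (Finset.mem_univ j), update_self]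
      congr 1
      refine Finset.prod_congr rfl fun i hi => ?_
      rw [update_of_ne (Finset.ne_of_mem_erase hi)]
    show ∑ p, X (J j) p * ((∏ i, v i (update J j p i)) * w l) = _
    simp only [h2]
    calc ∑ p, X (J j) p * (v j p * (∏ i ∈ univ.erase j, v i (J i)) * w l) =
          (∑ p, X (J j) p * v j p) * ((∏ i ∈ univ.erase j, v i (J i)) * w l) := by
          rw [Finset.sum_mul]
          exact Finset.sum_congr rfl fun p _ => by ring
      _ = a j * v j (J j) * ((∏ i ∈ univ.erase j, v i (J i)) * w l) := by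
          rw [← h1]
          rfl
      _ = a j * ((∏ i, v i (J i)) * w l) := by
          rw [← Finset.mul_prod_erase univ _ (Finset.mem_univ j)]
          ring
  · have h1 := congrFun hw l
    rw [Pi.smul_apply, smul_eq_mul] at h1
    show ∑ m, Y l m * ((∏ i, v i (J i)) * w m) = _
    calc ∑ m, Y l m * ((∏ i, v i (J i)) * w m) = (∑ m, Y l m * w m) * ∏ i, v i (J i) := by
          rw [Finset.sum_mul]
          exact Finset.sum_congr rfl fun m _ => by ring
      _ = b * w l * ∏ i, v i (J i) := by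
          rw [← h1]
          rfl
      _ = b * ((∏ j, v j (J j)) * w l) := by ring

end

section
variable {B' B D : Type} [Fintype B'] [DecidableEq B'] [Fintype B] [DecidableEq B] [Fintype D]
  [DecidableEq D] {ι' : Type} [DecidableEq ι'] {κ' : B' → ι'} {Q' : Matrix B' B' ℚ} {k l : ℕ}

/-- Hodge classes on the tensor product -/
theorem isHodge_of_tens {x : Matrix B B ℂ} {y : Matrix D D ℂ} {h : (Fin k → B) × D → ℚ}
    (hh : IsHodgeD (tens k x y) h) : IsHodge x y (fun J l => h (J, l)) := by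
  intro a b v z hv hz hne
  have h1 := mulVec_pure (k := k) hv hz
  have h2 : tens k x y *ᵥ (fun p : (Fin k → B) × D => (∏ j, v j (p.1 j)) * z p.2) =
      ((∑ j, a j + b : ℤ) : ℂ) • (fun p => (∏ j, v j (p.1 j)) * z p.2) := by
    rw [h1]
    push_cast
    rfl
  have h3 := hh (∑ j, a j + b) _ h2 hne
  rw [Fintype.sum_prod_type] at h3
  rw [← h3]
  unfold ev
  refine Finset.sum_congr rfl fun J _ => Finset.sum_congr rfl fun m _ => ?_
  ring

/-- coefficients in a span -/
theorem span_withPairs {z : Matrix ((Fin k → B) × D) ((Fin k → B) × D) ℂ}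
    {S : Set ((Fin k → B) → D → ℚ)}
    (hS : ∀ h, IsHodgeD z h → (fun J l => h (J, l)) ∈ Submodule.span ℚ S)
    {f : (Fin l → B') → (Fin k → B) × D → ℚ}
    (hf : f ∈ Submodule.span ℚ (products κ' Q' z l)) :
    f ∈ Submodule.span ℚ (withPairs κ' Q' k l S) := by
  have hle : products κ' Q' z l ⊆ (Submodule.span ℚ (withPairs κ' Q' k l S) : Set _) := by
    rintro _ ⟨m, e, c, h, hh, rfl⟩
    have h1 : ∀ g ∈ Submodule.span ℚ S, (fun I (p : (Fin k → B) × D) =>
        (∏ t, block κ' Q' (c t) (I (e (t, 0))) (I (e (t, 1)))) * g p.1 p.2) ∈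
        Submodule.span ℚ (withPairs κ' Q' k l S) := by
      intro g hg
      induction hg using Submodule.span_induction with
      | mem g hg => exact Submodule.subset_span ⟨m, e, c, g, hg, rfl⟩
      | zero =>
        have : (fun (I : Fin l → B') (p : (Fin k → B) × D) =>
            (∏ t, block κ' Q' (c t) (I (e (t, 0))) (I (e (t, 1)))) *
            (0 : (Fin k → B) → D → ℚ) p.1 p.2) = 0 := by
          funext I p
          simp
        rw [this]
        exact Submodule.zero_mem _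
      | add g g' _ _ h1 h2 =>
        have : (fun (I : Fin l → B') (p : (Fin k → B) × D) =>
            (∏ t, block κ' Q' (c t) (I (e (t, 0))) (I (e (t, 1)))) * (g + g') p.1 p.2) =
            (fun I p => (∏ t, block κ' Q' (c t) (I (e (t, 0))) (I (e (t, 1)))) * g p.1 p.2) +
            (fun I p => (∏ t, block κ' Q' (c t) (I (e (t, 0))) (I (e (t, 1)))) * g' p.1 p.2) := by
          funext I p
          simp [mul_add]
        rw [this]
        exact Submodule.add_mem _ h1 h2
      | smul r g _ h1 =>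
        have : (fun (I : Fin l → B') (p : (Fin k → B) × D) =>
            (∏ t, block κ' Q' (c t) (I (e (t, 0))) (I (e (t, 1)))) * (r • g) p.1 p.2) =
            r • (fun I p => (∏ t, block κ' Q' (c t) (I (e (t, 0))) (I (e (t, 1)))) *
              g p.1 p.2) := by
          funext I p
          simp only [Pi.smul_apply, smul_eq_mul]
          ring
        rw [this]
        exact Submodule.smul_mem _ _ h1
    exact h1 _ (hS h hh)
  exact Submodule.span_le.2 hle hf

/-- union of countably many countable families of functions -/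
theorem exists_union {E : Type} [NormedAddCommGroup E] [NormedSpace ℂ E] {U : Set E}
    {P : ℕ → E → Prop}
    (h : ∀ k, ∃ h : ℕ → E → ℂ, (∀ n, AnalyticOnNhd ℂ (h n) U ∧ ∃ u ∈ U, h n u ≠ 0) ∧
      ∀ u ∈ U, (∀ n, h n u ≠ 0) → P k u) :
    ∃ h : ℕ → E → ℂ, (∀ n, AnalyticOnNhd ℂ (h n) U ∧ ∃ u ∈ U, h n u ≠ 0) ∧
      ∀ u ∈ U, (∀ n, h n u ≠ 0) → ∀ k, P k u := by
  choose h h1 h2 using h
  refine ⟨fun n => h n.unpair.1 n.unpair.2, fun n => h1 _ _, fun u hu hne k => ?_⟩
  refine h2 k u hu fun n => ?_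
  have h3 : h (Nat.pair k n).unpair.1 (Nat.pair k n).unpair.2 u ≠ 0 := hne (Nat.pair k n)
  rw [Nat.unpair_pair] at h3
  exact h3

variable {E : Type} [NormedAddCommGroup E] [NormedSpace ℂ E] {U : Set E}
  {w : E → Matrix B' B' ℂ} {x : E → Matrix B B ℂ} {y : E → Matrix D D ℂ} {ι : Type}
  [DecidableEq ι] {κ : B → ι} {s' : ι' → ℤ} {Q T : Matrix B B ℚ} {d : ℕ}

/-- the theorem of the library with a weaker hypothesis -/
theorem main_gen (hU : U.Nonempty) (hW : IsVHS U w) (hD : IsVHS U y)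
    (hP : IsPolarized U κ' s' Q' w)
    (hfull : ∀ (i : ι') (v z : B' → ℚ), InBlk κ' i v → InBlk κ' i z →
      WW Q' (s' i : ℚ) v z ∈ K1 (mm U w y)) :
    ∃ h : ℕ → E → ℂ, (∀ n, AnalyticOnNhd ℂ (h n) U ∧ ∃ u ∈ U, h n u ≠ 0) ∧
      ∀ u ∈ U, (∀ n, h n u ≠ 0) → ∀ (l : ℕ) (f : (Fin l → B') → D → ℚ),
        IsHodge (w u) (y u) f →
        (∀ j, s' j = 1 → ∀ I, f I ≠ 0 →
          (univ.filter fun t => κ' (I t) = j).card < (univ.filter fun b => κ' b = j).card) →
        f ∈ Submodule.span ℚ (products κ' Q' (y u) l) := by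
  obtain ⟨h, hh, hgen⟩ := exists_general hU hW hD
  refine ⟨h, hh, fun u hu hne l f hf hcount => ?_⟩
  have hact := hgen u hu hne l f hf
  have hkill : ∀ a ∈ mm U w y, act a f = 0 := fun a ha => act_mm hact ha
  have hinv : Inv κ' Q' (fun i => ((s' i : ℤ) : ℚ)) f := by
    apply inv_of_act
    intro i v z hv hz
    exact hkill _ (hfull i v z hv hz)
  have hG := mem_G0 hP.sign hP.blockQ (fun a b => by rw [hP.symm a b]) (det_unit hW hP hu) hinv
    hcount
  exact refine_hodge hu (isLie_mm hP) hP.blockQ hG hkill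

/-- **The theorem for real blocks.** -/
theorem main_W (hU : U.Nonempty) (hW : IsVHS U w) (hV : IsVHS U x) (hD : IsVHS U y)
    (hP : IsPolarized U κ' s' Q' w) (hT : IsAut U κ Q x T d)
    (hsimple : ∀ j, ∃ u ∈ U, IsSimpleAt κ' j (w u))
    (hnode : ∀ j, HasNodeT U κ' s' Q' w x y T j) :
    ∃ h : ℕ → E → ℂ, (∀ n, AnalyticOnNhd ℂ (h n) U ∧ ∃ u ∈ U, h n u ≠ 0) ∧
      ∀ u ∈ U, (∀ n, h n u ≠ 0) → ∀ (k l : ℕ) (f : (Fin l → B') → (Fin k → B) × D → ℚ),
        IsHodge (w u) (tens k (x u) (y u)) f →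
        (∀ j, s' j = 1 → ∀ I, f I ≠ 0 →
          (univ.filter fun t => κ' (I t) = j).card < (univ.filter fun b => κ' b = j).card) →
        f ∈ Submodule.span ℚ (products κ' Q' (tens k (x u) (y u)) l) := by
  apply exists_union (P := fun k u => ∀ (l : ℕ) (f : (Fin l → B') → (Fin k → B) × D → ℚ),
        IsHodge (w u) (tens k (x u) (y u)) f →
        (∀ j, s' j = 1 → ∀ I, f I ≠ 0 →
          (univ.filter fun t => κ' (I t) = j).card < (univ.filter fun b => κ' b = j).card) →
        f ∈ Submodule.span ℚ (products κ' Q' (tens k (x u) (y u)) l))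
  intro k
  exact main_gen hU hW (isVHS_tens hV hD k) hP (fun i v z hv hz => by
    obtain ⟨u0, hu0, hs⟩ := hsimple i
    exact node_full hW hP hT hu0 hs (hnode i) hv hz)

end

end Pool.Agent.H842.CW
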