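import Pool.Agent.H842.CW.Main
import Pool.Agent.H842.CW.Conv5

/-!
# Products of powers of cyclic coverings and real blocks
-/

set_option linter.unusedSectionVars false

open Matrix Finset Function

namespace Pool.Agent.H842.CW

open Pool.Agent.TH125.Nod Pool.Agent.H842.CR

/-- intersection of two countable families of conditions -/
theorem exists_inter {E : Type} [NormedAddCommGroup E] [NormedSpace ℂ E] {U : Set E}
    {P P' : E → Prop}
    (h1 : ∃ h : ℕ → E → ℂ, (∀ n, AnalyticOnNhd ℂ (h n) U ∧ ∃ u ∈ U, h n u ≠ 0) ∧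
      ∀ u ∈ U, (∀ n, h n u ≠ 0) → P u)
    (h2 : ∃ h : ℕ → E → ℂ, (∀ n, AnalyticOnNhd ℂ (h n) U ∧ ∃ u ∈ U, h n u ≠ 0) ∧
      ∀ u ∈ U, (∀ n, h n u ≠ 0) → P' u) :
    ∃ h : ℕ → E → ℂ, (∀ n, AnalyticOnNhd ℂ (h n) U ∧ ∃ u ∈ U, h n u ≠ 0) ∧
      ∀ u ∈ U, (∀ n, h n u ≠ 0) → P u ∧ P' u := by
  have h3 : ∀ k : ℕ, ∃ h : ℕ → E → ℂ, (∀ n, AnalyticOnNhd ℂ (h n) U ∧ ∃ u ∈ U, h n u ≠ 0) ∧
      ∀ u ∈ U, (∀ n, h n u ≠ 0) → (if k = 0 then P u else P' u) := by
    intro k
    by_cases hk : k = 0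
    · simp only [hk, if_true]
      exact h1
    · simp only [hk, if_false]
      exact h2
  obtain ⟨h, ha, hb⟩ := exists_union (P := fun k u => if k = 0 then P u else P' u) h3
  refine ⟨h, ha, fun u hu hne => ⟨?_, ?_⟩⟩
  · simpa using hb u hu hne 0
  · simpa using hb u hu hne 1

section
variable {E : Type} [NormedAddCommGroup E] [NormedSpace ℂ E] {U : Set E}
  {ι B D : Type} [Fintype ι] [DecidableEq ι] [Fintype B] [DecidableEq B]
  [Fintype D] [DecidableEq D] {κ : B → ι} {s : ι → ℤ} {Q T : Matrix B B ℚ} {d : ℕ}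
  {x : E → Matrix B B ℂ} {y : E → Matrix D D ℂ}

/-- the theorem for cyclic coverings -/
theorem main_V (hU : IsConnected U) (hV : IsVHS U x) (hD : IsVHS U y)
    (hP : IsPolarized U κ s Q x) (hT : IsAut U κ Q x T d)
    (hR : ∀ i, HasReflection U κ Q x y T i) :
    ∃ h : ℕ → E → ℂ, (∀ n, AnalyticOnNhd ℂ (h n) U ∧ ∃ u ∈ U, h n u ≠ 0) ∧
      ∀ u ∈ U, (∀ n, h n u ≠ 0) → ∀ (k : ℕ) (f : (Fin k → B) → D → ℚ),
        IsHodge (x u) (y u) f →
        f ∈ Submodule.span ℚ (productsDet κ Q T (x u) (y u) k) ∧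
        (NoChar U y → ∀ S : ι → ZMod d → ℚ, (∃ u ∈ U, HasHodgeSums κ T (x u) d S) →
          f ∈ Submodule.span ℚ (productsNum κ Q T d S (x u) (y u) k)) := by
  obtain ⟨h, hh, hgen⟩ := exists_general hU.nonempty hV hD
  refine ⟨h, hh, fun u hu hne k f hf => ?_⟩
  have hact := hgen u hu hne k f hf
  refine ⟨?_, fun hN S hS => num_main hV hP hT hR hN hS hu hact⟩
  have hkill : ∀ a ∈ mm U x y, act a f = 0 := fun a ha => act_mm hact ha
  have hG := glob_mm ⟨u, hu⟩ hV hP hT hR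
  obtain ⟨P, κ', hE⟩ := hG.exists_EB
  exact TQ_le hu hE (mem_TQ hG hE hkill (Ψ := fun _ => True) fun _ _ => trivial)

theorem isVHS_y0 : IsVHS U (y0 (E := E)) where
  real u _ := by
    ext a b
    simp [y0]
  frame := by
    refine ⟨fun _ => 1, fun _ => 0, fun i j => analyticOnNhd_const, fun u _ => ?_⟩
    refine ⟨1, 1, 1, by simp, ?_, by simp, by simp, ?_, ?_⟩
    · ext a b
      simp [y0]
    · intro i j h
      exact absurd h (lt_irrefl _)
    · intro i j h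
      exact absurd h (lt_irrefl _)

/-- the theorem for real blocks and cyclic coverings -/
theorem main_all {ι' B' : Type} [DecidableEq ι'] [Fintype B'] [DecidableEq B'] {κ' : B' → ι'}
    {s' : ι' → ℤ} {Q' : Matrix B' B' ℚ} {w : E → Matrix B' B' ℂ}
    (hU : IsConnected U) (hV : IsVHS U x) (hW : IsVHS U w) (hD : IsVHS U y)
    (hP : IsPolarized U κ s Q x) (hP' : IsPolarized U κ' s' Q' w) (hT : IsAut U κ Q x T d)
    (hR : ∀ i, HasReflection U κ Q x y T i) (hS : ∀ j, ∃ u ∈ U, IsSimpleAt κ' j (w u))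
    (hN : ∀ j, HasNodeT U κ' s' Q' w x y T j) :
    ∃ h : ℕ → E → ℂ, (∀ n, AnalyticOnNhd ℂ (h n) U ∧ ∃ u ∈ U, h n u ≠ 0) ∧
      ∀ u ∈ U, (∀ n, h n u ≠ 0) →
        (∀ (k l : ℕ) (f : (Fin l → B') → (Fin k → B) × D → ℚ),
          IsHodge (w u) (tens k (x u) (y u)) f →
          (∀ j, s' j = 1 → ∀ I, f I ≠ 0 →
            (univ.filter fun t => κ' (I t) = j).card < (univ.filter fun b => κ' b = j).card) →
          f ∈ Submodule.span ℚ (withPairs κ' Q' k l (productsDet κ Q T (x u) (y u) k)) ∧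
          (NoChar U y → ∀ S : ι → ZMod d → ℚ, (∃ u ∈ U, HasHodgeSums κ T (x u) d S) →
            f ∈ Submodule.span ℚ (withPairs κ' Q' k l (productsNum κ Q T d S (x u) (y u) k)) ∧
            (NoRelation κ T d S →
              f ∈ Submodule.span ℚ (withPairs κ' Q' k l (productsT κ Q T (y u) k))))) ∧
        (∀ S : ι → ZMod d → ℚ, HasHodgeSums κ T (x u) d S →
          ((∀ (k : ℕ) (f : (Fin k → B) → Unit → ℚ), IsHodge (x u) 0 f →
            f ∈ Submodule.span ℚ (productsT κ Q T 0 k)) ↔ NoRelation κ T d S)) ∧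
        (∀ q m n : ι → ℕ, (∀ i, 3 ≤ q i ∧ 0 < m i ∧ 0 < n i) → IsCover κ T (x u) q m n →
          ∃ S, HasHodgeSums κ T (x u) d S ∧ (NoRelation κ T d S ↔ Injective q ∧
            ∀ i, (q i = 4 ∨ (q i).Prime) ∧ ¬ (n i = 2 ∧ q i * m i = 3))) := by
  have : NeZero d := ⟨hT.pos.ne'⟩
  obtain ⟨h, hh, hgen⟩ := exists_inter (exists_inter
    (main_W (d := d) (s' := s') hU.nonempty hW hV hD hP' hT hS hN)
    (main_V hU hV hD hP hT hR)) (main_V hU hV isVHS_y0 hP hT (fun i => (hR i).fst))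
  refine ⟨h, hh, fun u hu hne => ⟨fun k l f hf hcount => ?_, fun S hS => ⟨?_, ?_⟩, ?_⟩⟩
  · obtain ⟨⟨hgW, hgV⟩, -⟩ := hgen u hu hne
    have hfW := hgW k l f hf hcount
    refine ⟨?_, fun hNC S hS => ⟨?_, fun hNR => ?_⟩⟩
    · exact span_withPairs (fun g hg => (hgV k _ (isHodge_of_tens hg)).1) hfW
    · exact span_withPairs (fun g hg => (hgV k _ (isHodge_of_tens hg)).2 hNC S hS) hfW
    · exact span_withPairs (fun g hg => span_num_T (fun K w hw => no_numerical hNR hw)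
        ((hgV k _ (isHodge_of_tens hg)).2 hNC S hS)) hfW
  · intro hall r i b hb hno hrel
    by_contra hr
    obtain ⟨k, f, hf, hf'⟩ := exists_exceptional (κ := κ) (Q := Q) hT.isom hT.block hP.blockQ
      (hT.comm u hu) (hP.blockx u hu) hS (Nat.pos_of_ne_zero hr) hb hno hrel
    exact hf' (hall k f hf)
  · intro hNR k f hf
    obtain ⟨-, hgV⟩ := hgen u hu hne
    exact span_num_T (fun K w hw => no_numerical hNR hw)
      ((hgV k f hf).2 noChar_y0 S ⟨u, hu, hS⟩)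
  · intro q m n hq hC
    obtain ⟨S, hS1, hS2⟩ := exists_sums (fun i => by have := (hq i).1; omega) hT.order hT.noreal
      (hC.hasSawTypes (fun i => by have := (hq i).1; omega) fun i => (hq i).2.1)
    refine ⟨S, hS1, ⟨fun hNR => ?_, fun hg => ?_⟩⟩
    · by_contra hbad
      refine not_noRelation hT.order (fun i => (hq i).1) hS2 (hC.eigenpart_ne hq) ?_ hNR
      rintro ⟨h1, h2, h3⟩
      refine hbad ⟨h1, fun i => ⟨?_, fun h => h3 i (Cst_zero (hq i).1 h)⟩⟩
      rcases h2 i with h | h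
      · exact Or.inl h
      · exact Or.inr h.1
    · obtain ⟨h1, h2⟩ := hg
      refine noRelation_of (fun i => ?_) h1 (fun i => Cst_ne' (hq i).1 (hq i).2.1 (hq i).2.2
        (h2 i).2) hS2
      rcases (h2 i).1 with h | h
      · exact Or.inl h
      · exact Or.inr ⟨h, by have := (hq i).1; omega⟩

end

end Pool.Agent.H842.CW
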