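import Pool.Agent.H842.CW.Defs

/-!
# Real blocks: the Lie algebra contains the orthogonal and symplectic Lie algebras
-/

set_option linter.unusedSectionVars false

open Matrix Finset Function

namespace Pool.Agent.H842.CW

open Pool.Agent.TH125.Nod

variable {B D : Type} [Fintype B] [DecidableEq B] [Fintype D] [DecidableEq D]
  {ι : Type} [DecidableEq ι] {κ : B → ι} {i : ι} {Q : Matrix B B ℚ}
  {𝔪 : Submodule ℚ (Matrix B B ℚ × Matrix D D ℚ)}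

theorem diff_eq {δ : B → ℚ} (r r' : ℚ) (a : Matrix B B ℚ) :
    (1 + r • EE Q δ δ) * a * (1 + r' • EE Q δ δ) - a =
      r • (EE Q δ δ * a) + r' • (a * EE Q δ δ) + (r * r' * bQ Q δ (a *ᵥ δ)) • EE Q δ δ := by
  have h4 : EE Q δ δ * a * EE Q δ δ = bQ Q δ (a *ᵥ δ) • EE Q δ δ := by
    rw [mul_assoc, mul_EE, EE_mul_EE]
  have h5 : (1 + r • EE Q δ δ) * a * (1 + r' • EE Q δ δ) - a =
      r • (EE Q δ δ * a) + r' • (a * EE Q δ δ) + (r * r') • (EE Q δ δ * a * EE Q δ δ) := by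
    rw [add_mul, one_mul, mul_add, mul_one, smul_mul_assoc, add_mul, mul_smul_comm,
      smul_mul_assoc, mul_smul_comm, smul_smul]
    abel
  rw [h5, h4, smul_smul]

/-- a reflection -/
theorem full_even_of (hL : IsLie κ Q 𝔪) (hirr : IrrBlk κ i 𝔪)
    (hQs : ∀ a b, κ a = i → Q a b = 1 * Q b a) {δ : B → ℚ} (hδ : InBlk κ i δ) {c : ℚ}
    (hcq : c * bQ Q δ δ = -2)
    (hK : ∀ a ∈ 𝔪, (1 + c • EE Q δ δ) * a.1 * (1 + c • EE Q δ δ) - a.1 ∈ K1 𝔪) {v w : B → ℚ}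
    (hv : InBlk κ i v) (hw : InBlk κ i w) : WW Q 1 v w ∈ K1 𝔪 := by
  have hc0 : c ≠ 0 := by
    intro h
    rw [h, zero_mul] at hcq
    norm_num at hcq
  have hq0 : bQ Q δ δ ≠ 0 := by
    intro h
    rw [h, mul_zero] at hcq
    norm_num at hcq
  refine full_even hL hirr (fun a b hab => by rw [hQs a b hab, one_mul]) hδ hq0 ?_ hv hw
  intro a ha
  have hδa : bQ Q δ (a.1 *ᵥ δ) = 0 := by
    have h1 := bQ_skew Q (hL.skew a ha) δ δ
    rw [bQ_symm Q hQs (hδ.mulVec (hL.blk a ha)) δ, one_mul] at h1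
    linarith
  have h1 := hK a ha
  rw [diff_eq, hδa, mul_zero, zero_smul, add_zero, ← smul_add, Submodule.smul_mem_iff _ hc0] at h1
  have h2 : WW Q 1 δ (a.1 *ᵥ δ) = -(EE Q δ δ * a.1 + a.1 * EE Q δ δ) := by
    rw [EE_mul Q δ δ a.1 (hL.skew a ha), mul_EE]
    unfold WW
    module
  rw [h2]
  exact Submodule.neg_mem _ h1

/-- a transvection -/
theorem full_odd_of (hL : IsLie κ Q 𝔪) (hirr : IrrBlk κ i 𝔪) (hnd : TrND κ i 𝔪)
    (hQb : ∀ a b, κ a ≠ κ b → Q a b = 0) (hQs : ∀ a b, κ a = i → Q a b = -1 * Q b a)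
    (hdet : IsUnit Q.det) {δ : B → ℚ} (hδ : InBlk κ i δ) (hδ0 : δ ≠ 0) {c : ℚ} (hc0 : c ≠ 0)
    (hq0 : bQ Q δ δ = 0)
    (hK : ∀ a ∈ 𝔪, (1 + c • EE Q δ δ) * a.1 * (1 + (-c) • EE Q δ δ) - a.1 ∈ K1 𝔪) {v w : B → ℚ}
    (hv : InBlk κ i v) (hw : InBlk κ i w) : WW Q (-1) v w ∈ K1 𝔪 := by
  have hEE : EE Q δ δ * EE Q δ δ = 0 := by rw [EE_mul_EE, hq0, zero_smul]
  have hγ2 : (1 + c • EE Q δ δ) * (1 + c • EE Q δ δ) = 1 + (2 * c) • EE Q δ δ := by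
    rw [add_mul, one_mul, smul_mul_assoc, mul_add, mul_one, mul_smul_comm, hEE]
    module
  have hγ2' : (1 + (-c) • EE Q δ δ) * (1 + (-c) • EE Q δ δ) = 1 + (-(2 * c)) • EE Q δ δ := by
    rw [add_mul, one_mul, mul_add, mul_one, smul_mul_assoc, mul_smul_comm, hEE]
    module
  refine full_odd' hL hirr hnd hQb (fun a b hab => by
    rw [hQs a b hab, neg_one_mul]) hdet hδ hδ0 ?_ hv hw
  intro a ha
  have h1 := hK a ha
  have h2 : (1 + (2 * c) • EE Q δ δ) * a.1 * (1 + (-(2 * c)) • EE Q δ δ) - a.1 ∈ K1 𝔪 := by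
    have h3 := hK _ (mem_K1.1 h1)
    have h4 := Submodule.add_mem _ h3 ((K1 𝔪).smul_mem (2 : ℚ) h1)
    convert h4 using 1
    rw [← hγ2, ← hγ2']
    show _ = (1 + c • EE Q δ δ) * ((1 + c • EE Q δ δ) * a.1 * (1 + (-c) • EE Q δ δ) - a.1) *
      (1 + (-c) • EE Q δ δ) - ((1 + c • EE Q δ δ) * a.1 * (1 + (-c) • EE Q δ δ) - a.1) +
      (2 : ℚ) • ((1 + c • EE Q δ δ) * a.1 * (1 + (-c) • EE Q δ δ) - a.1)
    generalize 1 + c • EE Q δ δ = g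
    generalize 1 + (-c) • EE Q δ δ = g'
    rw [two_smul]
    noncomm_ring
  rw [diff_eq] at h1 h2
  have h3 : (2 * c) • (EE Q δ δ * a.1 - a.1 * EE Q δ δ) ∈ K1 𝔪 := by
    have h4 := Submodule.sub_mem _ ((K1 𝔪).smul_mem (4 : ℚ) h1) h2
    convert h4 using 1
    module
  rwa [Submodule.smul_mem_iff] at h3
  exact mul_ne_zero two_ne_zero hc0

end Pool.Agent.H842.CW
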