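import Mathlib

/-!
# Operators with two eigenvalues
-/

set_option linter.unusedVariables false

open Finset

namespace Pool.Agent.H842.CW

variable {A : Type} [Ring A]

/-- splitting of an operator with the eigenvalues `1` and `a` -/
theorem split {θ a c : A} (h1 : Commute θ a) (h2 : (θ - 1) * (θ - a) = 0)
    (hc : (1 - a) * c = 1) (hcθ : Commute c θ) (hca : Commute c a) :
    ∃ e f : A, e + f = 1 ∧ θ = e + a * f ∧ e * f = 0 ∧ f * e = 0 ∧ e * e = e ∧ f * f = f ∧
      ∀ X, Commute X θ → Commute X a → Commute X c → Commute X e ∧ Commute X f := by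
  have h3 : (θ - a) * (1 - θ) = 0 := by
    have : (θ - a) * (1 - θ) = - ((θ - 1) * (θ - a)) + (a * θ - θ * a) := by noncomm_ring
    rw [this, h2, h1.eq, sub_self, neg_zero, add_zero]
  have hcs : Commute c (1 - θ) := (Commute.one_right c).sub_right hcθ
  have hcs' : Commute c (θ - a) := hcθ.sub_right hca
  have hef : (θ - a) * c + (1 - θ) * c = 1 := by
    have : (θ - a) * c + (1 - θ) * c = (1 - a) * c := by noncomm_ring
    rw [this, hc]
  have h4 : (θ - a) * c * ((1 - θ) * c) = 0 := by
    calc (θ - a) * c * ((1 - θ) * c) = (θ - a) * (c * (1 - θ)) * c := by noncomm_ring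
      _ = 0 := by rw [hcs.eq, ← mul_assoc, h3, zero_mul, zero_mul]
  have h5 : (1 - θ) * c * ((θ - a) * c) = 0 := by
    have h6 : (1 - θ) * (θ - a) = 0 := by
      have : (1 - θ) * (θ - a) = - ((θ - 1) * (θ - a)) := by noncomm_ring
      rw [this, h2, neg_zero]
    calc (1 - θ) * c * ((θ - a) * c) = (1 - θ) * (c * (θ - a)) * c := by noncomm_ring
      _ = 0 := by rw [hcs'.eq, ← mul_assoc, h6, zero_mul, zero_mul]
  refine ⟨(θ - a) * c, (1 - θ) * c, hef, ?_, h4, h5, ?_, ?_, fun X hX hX' hXc =>
    ⟨(hX.sub_right hX').mul_right hXc, ((Commute.one_right X).sub_right hX).mul_right hXc⟩⟩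
  · have h6 : θ * ((θ - a) * c) = (θ - a) * c := by
      have : θ * ((θ - a) * c) = (θ - 1) * (θ - a) * c + (θ - a) * c := by noncomm_ring
      rw [this, h2, zero_mul, zero_add]
    have h7 : θ * ((1 - θ) * c) = a * ((1 - θ) * c) := by
      have : θ * ((1 - θ) * c) = (θ - a) * (1 - θ) * c + a * ((1 - θ) * c) := by noncomm_ring
      rw [this, h3, zero_mul, zero_add]
    calc θ = θ * ((θ - a) * c + (1 - θ) * c) := by rw [hef, mul_one]
      _ = _ := by rw [mul_add, h6, h7]
  · calc (θ - a) * c * ((θ - a) * c) = (θ - a) * c * ((θ - a) * c + (1 - θ) * c) := by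
          rw [mul_add, h4, add_zero]
      _ = _ := by rw [hef, mul_one]
  · calc (1 - θ) * c * ((1 - θ) * c) = (1 - θ) * c * ((θ - a) * c + (1 - θ) * c) := by
          rw [mul_add, h5, zero_add]
      _ = _ := by rw [hef, mul_one]

variable {e f a a' X : A}

theorem pow_split (h1 : e * f = 0) (h2 : f * e = 0) (he : e * e = e) (hf : f * f = f)
    (hef : e + f = 1) (hae : Commute a e) (haf : Commute a f) (n : ℕ) :
    (e + a * f) ^ n = e + a ^ n * f := by
  induction n with
  | zero => rw [pow_zero, pow_zero, one_mul, hef]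
  | succ n ih =>
    rw [pow_succ, ih]
    have e1 : e * (a * f) = 0 := by rw [← mul_assoc, ← hae.eq, mul_assoc, h1, mul_zero]
    have e2 : a ^ n * f * e = 0 := by rw [mul_assoc, h2, mul_zero]
    have e3 : a ^ n * f * (a * f) = a ^ (n + 1) * f := by
      rw [← mul_assoc, mul_assoc (a ^ n), ← haf.eq, ← mul_assoc, ← pow_succ, mul_assoc, hf]
    rw [add_mul, mul_add, mul_add, he, e1, e2, e3, add_zero, zero_add]

theorem conj_split (hae : Commute a e) (haf : Commute a f) (ha'e : Commute a' e)
    (ha'f : Commute a' f) (haX : Commute a X) (ha'X : Commute a' X) (haa : a * a' = 1)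
    (haa' : Commute a a') (n : ℕ) :
    (e + a ^ n * f) * X * (e + a' ^ n * f) =
      (e * X * e + f * X * f) + (a' ^ n * (e * X * f) + a ^ n * (f * X * e)) := by
  have hn : a ^ n * a' ^ n = 1 := by rw [← haa'.mul_pow, haa, one_pow]
  have e1 : e * X * (a' ^ n * f) = a' ^ n * (e * X * f) := by
    rw [← mul_assoc, ← ((ha'e.mul_right ha'X).pow_left n).eq, mul_assoc]
  have e2 : a ^ n * f * X * (a' ^ n * f) = f * X * f := by
    calc a ^ n * f * X * (a' ^ n * f) = a ^ n * (f * X * a' ^ n) * f := by noncomm_ring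
      _ = a ^ n * (a' ^ n * (f * X)) * f := by rw [((ha'f.mul_right ha'X).pow_left n).eq]
      _ = (a ^ n * a' ^ n) * (f * X * f) := by noncomm_ring
      _ = f * X * f := by rw [hn, one_mul]
  calc (e + a ^ n * f) * X * (e + a' ^ n * f) =
        e * X * e + e * X * (a' ^ n * f) + (a ^ n * (f * X * e) + a ^ n * f * X * (a' ^ n * f)) := by
        noncomm_ring
    _ = _ := by
        rw [e1, e2]
        abel

/-- the average over the even powers is invariant -/
theorem avg_split (h1 : e * f = 0) (h2 : f * e = 0) (he : e * e = e) (hf : f * f = f)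
    (hae : Commute a e) (haf : Commute a f) (ha'e : Commute a' e)
    (ha'f : Commute a' f) (haX : Commute a X) (ha'X : Commute a' X) (haa : a * a' = 1)
    (haa' : Commute a a') {d : ℕ} (hs : ∑ m ∈ range d, a ^ (2 * m) = 0)
    (hs' : ∑ m ∈ range d, a' ^ (2 * m) = 0) :
    ∃ Y : A, (∑ m ∈ range d, (e + a ^ (2 * m) * f) * X * (e + a' ^ (2 * m) * f)) = Y ∧
      (e + a * f) * Y * (e + a' * f) = Y := by
  refine ⟨_, rfl, ?_⟩
  have h3 : ∑ m ∈ range d, (e + a ^ (2 * m) * f) * X * (e + a' ^ (2 * m) * f) =
      d • (e * X * e + f * X * f) := by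
    simp only [conj_split hae haf ha'e ha'f haX ha'X haa haa']
    rw [Finset.sum_add_distrib, Finset.sum_const, card_range, Finset.sum_add_distrib,
      ← Finset.sum_mul, ← Finset.sum_mul, hs, hs', zero_mul, zero_mul, add_zero, add_zero]
  rw [h3, mul_smul_comm, smul_mul_assoc]
  congr 1
  have hY : Commute a (e * X * e + f * X * f) :=
    ((hae.mul_right haX).mul_right hae).add_right ((haf.mul_right haX).mul_right haf)
  have hY' : Commute a' (e * X * e + f * X * f) :=
    ((ha'e.mul_right ha'X).mul_right ha'e).add_right ((ha'f.mul_right ha'X).mul_right ha'f)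
  have h4 := conj_split hae haf ha'e ha'f hY hY' haa haa' 1
  rw [pow_one, pow_one] at h4
  rw [h4]
  have e1 : e * (e * X * e + f * X * f) * e = e * X * e := by
    calc e * (e * X * e + f * X * f) * e = (e * e) * X * (e * e) + (e * f) * X * f * e := by
          noncomm_ring
      _ = e * X * e := by rw [he, h1]; noncomm_ring
  have e2 : f * (e * X * e + f * X * f) * f = f * X * f := by
    calc f * (e * X * e + f * X * f) * f = (f * e) * X * e * f + (f * f) * X * (f * f) := by
          noncomm_ring
      _ = f * X * f := by rw [hf, h2]; noncomm_ring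
  have e3 : e * (e * X * e + f * X * f) * f = 0 := by
    calc e * (e * X * e + f * X * f) * f = (e * e) * X * (e * f) + (e * f) * X * f * f := by
          noncomm_ring
      _ = 0 := by rw [h1]; noncomm_ring
  have e4 : f * (e * X * e + f * X * f) * e = 0 := by
    calc f * (e * X * e + f * X * f) * e = (f * e) * X * e * e + (f * f) * X * (f * e) := by
          noncomm_ring
      _ = 0 := by rw [h2]; noncomm_ring
  rw [e1, e2, e3, e4, mul_zero, mul_zero, add_zero, add_zero]

end Pool.Agent.H842.CW
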