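import Pool.Agent.H842.CW.Full
import Pool.Agent.H842.CW.Ring
import Pool.Agent.H842.CR.Vhs

/-!
# Real blocks: monodromy operators
-/

set_option linter.unusedSectionVars false

open Matrix Finset Function

namespace Pool.Agent.H842.CW

open Pool.Agent.TH125.Nod Pool.Agent.H842.CR

variable {B' B D : Type} [Fintype B'] [DecidableEq B'] [Fintype B] [DecidableEq B] [Fintype D]
  [DecidableEq D] {E : Type} {U : Set E} {w : E → Matrix B' B' ℂ} {x : E → Matrix B B ℂ}
  {y : E → Matrix D D ℂ} {ι' ι : Type} [DecidableEq ι'] [DecidableEq ι] {κ' : B' → ι'}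
  {κ : B → ι} {s' : ι' → ℤ} {Q' : Matrix B' B' ℚ} {Q T : Matrix B B ℚ} {d k : ℕ}

theorem mC_pw (θ : Matrix B B ℚ) : mC (pw k θ (1 : Matrix D D ℚ)) = pw k (mC θ) 1 := by
  ext p q
  show (((∏ j, θ (p.1 j) (q.1 j)) * (1 : Matrix D D ℚ) p.2 q.2 : ℚ) : ℂ) =
    (∏ j, ((θ (p.1 j) (q.1 j) : ℚ) : ℂ)) * (1 : Matrix D D ℂ) p.2 q.2
  by_cases h : p.2 = q.2
  · rw [h, one_apply_eq, one_apply_eq, mul_one, mul_one]
    push_cast
    rfl
  · rw [one_apply_ne h, one_apply_ne h, mul_zero, mul_zero, Rat.cast_zero]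

/-- the second components -/
theorem exists_tens (hT : ∀ u ∈ U, x u * mC T = mC T * x u)
    {a : Matrix B' B' ℚ × Matrix ((Fin k → B) × D) ((Fin k → B) × D) ℚ}
    (ha : a ∈ mm U w (fun u => tens k (x u) (y u))) :
    ∃ (X : Matrix B B ℚ) (Y : Matrix D D ℚ), X * T = T * X ∧ a.2 = tens k X Y := by
  let S : Submodule ℚ (Matrix B' B' ℚ × Matrix ((Fin k → B) × D) ((Fin k → B) × D) ℚ) :=
    { carrier := {a | ∃ (X : Matrix B B ℚ) (Y : Matrix D D ℚ), X * T = T * X ∧ a.2 = tens k X Y}
      zero_mem' := ⟨0, 0, by simp, tens_zero.symm⟩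
      add_mem' := fun {a b} ⟨X, Y, h, h'⟩ ⟨X1, Y1, h1, h1'⟩ => ⟨X + X1, Y + Y1, by
        rw [add_mul, mul_add, h, h1], by
        show a.2 + b.2 = _
        rw [h', h1', tens_add]⟩
      smul_mem' := fun c {a} ⟨X, Y, h, h'⟩ => ⟨c • X, c • Y, by
        rw [smul_mul_assoc, mul_smul_comm, h], by
        show c • a.2 = _
        rw [h', tens_smul]⟩ }
  have hS : mm U w (fun u => tens k (x u) (y u)) ≤ S := by
    apply mm_le
    · intro φ u hu
      refine ⟨(x u).map φ, (y u).map φ, ?_, ?_⟩
      · rw [← map_mul_mC, hT u hu, map_mC_mul]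
      · exact tens_map (fun z => φ z) (map_zero _) (map_add _) _ _
    · rintro a ⟨X, Y, h, h'⟩ b ⟨X1, Y1, h1, h1'⟩
      refine ⟨X * X1 - X1 * X, Y * Y1 - Y1 * Y, ?_, ?_⟩
      · rw [sub_mul, mul_sub, mul_assoc, h1, ← mul_assoc, h, mul_assoc, mul_assoc X1, h,
          ← mul_assoc X1, h1, mul_assoc]
      · show a.2 * b.2 - b.2 * a.2 = _
        rw [h', h1', tens_bracket]
  exact hS ha

/-- conjugation with powers of the monodromy operator -/
theorem conj_pow_mem {γ γ' : Matrix B' B' ℚ} {θ θ' : Matrix B B ℚ} (hγ : γ * γ' = 1)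
    (hθ : θ * θ' = 1)
    (hmon : ∀ u ∈ U, ∃ u' ∈ U, w u' * mC γ = mC γ * w u ∧ x u' * mC θ = mC θ * x u ∧ y u' = y u)
    {A : Matrix B' B' ℚ} {X : Matrix B B ℚ} {Y : Matrix D D ℚ}
    (ha : (A, tens k X Y) ∈ mm U w (fun u => tens k (x u) (y u))) (n : ℕ) :
    (γ ^ n * A * γ' ^ n, tens k (θ ^ n * X * θ' ^ n) Y) ∈
      mm U w (fun u => tens k (x u) (y u)) := by
  have hη : pw k θ (1 : Matrix D D ℚ) * pw k θ' 1 = 1 := by rw [pw_mul, hθ, one_mul, pw_one]
  have hθ2 : θ' * θ = 1 := mul_eq_one_comm.1 hθ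
  induction n with
  | zero => simpa using ha
  | succ n ih =>
    have h1 := conj_mem2 hγ hη (fun u hu => by
      obtain ⟨u', hu', h1, h2, h3⟩ := hmon u hu
      refine ⟨u', hu', h1, ?_⟩
      show tens k (x u') (y u') * mC (pw k θ 1) = mC (pw k θ 1) * tens k (x u) (y u)
      rw [mC_pw]
      exact tens_pw h2 (by rw [mul_one, one_mul, h3])) ih
    convert h1 using 2
    · show γ ^ (n + 1) * A * γ' ^ (n + 1) = γ * (γ ^ n * A * γ' ^ n) * γ'
      rw [pow_succ', pow_succ]
      simp only [mul_assoc]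
    · show tens k (θ ^ (n + 1) * X * θ' ^ (n + 1)) Y =
        pw k θ 1 * tens k (θ ^ n * X * θ' ^ n) Y * pw k θ' 1
      have h2 : tens k (θ ^ (n + 1) * X * θ' ^ (n + 1)) Y * pw k θ 1 =
          pw k θ 1 * tens k (θ ^ n * X * θ' ^ n) Y := by
        apply tens_pw
        · rw [pow_succ', pow_succ]
          calc θ * θ ^ n * X * (θ' ^ n * θ') * θ = θ * (θ ^ n * X * θ' ^ n) * (θ' * θ) := by
                noncomm_ring
            _ = θ * (θ ^ n * X * θ' ^ n) := by rw [hθ2, mul_one]
        · rw [mul_one, one_mul]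
      rw [← h2, mul_assoc _ (pw k θ 1), hη, mul_one]

theorem geom_zero {M : Matrix B B ℚ} (h : M ^ d = 1) (hu : IsUnit (M - 1).det) :
    ∑ m ∈ range d, M ^ m = 0 := by
  have h1 := geom_sum_mul M d
  rw [h, sub_self] at h1
  calc ∑ m ∈ range d, M ^ m = (∑ m ∈ range d, M ^ m) * (M - 1) * (M - 1)⁻¹ := by
        rw [mul_assoc, mul_nonsing_inv _ hu, mul_one]
    _ = 0 := by rw [h1, zero_mul]

theorem commute_inv {M X : Matrix B B ℚ} (hu : IsUnit M.det) (h : Commute M X) :
    Commute M⁻¹ X := by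
  show M⁻¹ * X = X * M⁻¹
  calc M⁻¹ * X = M⁻¹ * (X * (M * M⁻¹)) := by rw [mul_nonsing_inv _ hu, mul_one]
    _ = M⁻¹ * (X * M) * M⁻¹ := by noncomm_ring
    _ = (M⁻¹ * M) * X * M⁻¹ := by rw [← h.eq]; noncomm_ring
    _ = X * M⁻¹ := by rw [nonsing_inv_mul _ hu, one_mul]

/-- **One reflection or transvection suffices** -/
theorem node_full [NormedAddCommGroup E] [NormedSpace ℂ E] (hW : IsVHS U w)
    (hP : IsPolarized U κ' s' Q' w) (hT : IsAut U κ Q x T d) {j : ι'} {u : E} (hu : u ∈ U)
    (hs : IsSimpleAt κ' j (w u)) (hn : HasNodeT U κ' s' Q' w x y T j) {v z : B' → ℚ}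
    (hv : InBlk κ' j v) (hz : InBlk κ' j z) :
    WW Q' (s' j : ℚ) v z ∈ K1 (mm U w (fun u => tens k (x u) (y u))) := by
  have hL := isLie_mm (y := fun u => tens k (x u) (y u)) hP
  have hirr := irr_mm (y := fun u => tens k (x u) (y u)) hu hs
  obtain ⟨δ, c, γ, θ, hδ0, hc0, hδ', hγ, hiso, hθT, hθ2, hmon⟩ := hn
  have hδ : InBlk κ' j δ := hδ'
  have hQb := hP.blockQ
  have hdet := det_unit hW hP hu
  obtain ⟨z0, hz0, hδz⟩ := exists_dual hQb hdet hδ hδ0
  have hγE : γ = 1 + c • EE Q' δ δ := hγ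
  set ε : ℚ := (s' j : ℚ) with hε
  set q := bQ Q' δ δ with hq
  have hQs : ∀ a b, κ' a = j → Q' a b = ε * Q' b a := by
    intro a b hab
    rw [hP.symm a b, hab]
  have hrel : 1 + ε + c * q = 0 := by
    have h1 : bQ Q' (γ *ᵥ z0) (γ *ᵥ z0) = bQ Q' z0 z0 := by
      unfold bQ
      rw [mulVec_mulVec, ← vecMul_transpose, ← dotProduct_mulVec, mulVec_mulVec, ← mul_assoc, hiso]
    have h2 : γ *ᵥ z0 = z0 + c • δ := by
      rw [hγE, add_mulVec, one_mulVec, smul_mulVec, EE_mulVec, hδz, one_smul]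
    rw [h2, bQ_add_left, bQ_add_right, bQ_add_right, bQ_smul_left, bQ_smul_left, bQ_smul_right,
      bQ_smul_right, bQ_symm Q' hQs hz0 δ, hδz] at h1
    have h3 : c * (1 + ε + c * q) = 0 := by linear_combination h1
    rcases mul_eq_zero.1 h3 with h4 | h4
    · exact absurd h4 hc0
    · exact h4
  -- the automorphism
  have hd := hT.pos
  have hTd : T * T ^ (d - 1) = 1 := by
    rw [← pow_succ', Nat.sub_add_cancel hd, hT.order]
  have hfac : (T ^ 2 - 1).det = (T - 1).det * (T + 1).det := by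
    rw [← det_mul]
    congr 1
    noncomm_ring
  have hu1 : IsUnit (T - 1).det := by
    have := hT.noreal
    rw [hfac] at this
    exact isUnit_of_mul_isUnit_left this
  have hu2 : IsUnit (T + 1).det := by
    have := hT.noreal
    rw [hfac] at this
    exact isUnit_of_mul_isUnit_right this
  have hεε : ε * ε = 1 := by
    rcases hP.sign j with h | h <;> rw [hε, h] <;> norm_num
  have hua : IsUnit (1 - ε • T).det := by
    rcases hP.sign j with h | h
    · have : (1 - ε • T) = - (T - 1) := by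
        rw [hε, h, Int.cast_one, one_smul]
        abel
      rw [this, det_neg]
      exact ((isUnit_one.neg).pow _).mul hu1
    · have : (1 - ε • T) = T + 1 := by
        rw [hε, h, Int.cast_neg, Int.cast_one, neg_one_smul]
        abel
      rw [this]
      exact hu2
  have hcT : Commute θ T := hθT
  have hca : Commute θ (ε • T) := hcT.smul_right ε
  have hinv : ∀ X, Commute X T → Commute (1 - ε • T)⁻¹ X := by
    intro X hX
    apply commute_inv hua
    exact ((Commute.one_right X).sub_right (hX.smul_right ε)).symm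
  obtain ⟨e, f, hef, hθef, h1, h2, he, hf, hcomm⟩ := split hca hθ2 (mul_nonsing_inv _ hua)
    (hinv θ hcT) (hinv _ ((Commute.refl T).smul_left ε))
  set a := ε • T with ha
  set a' := ε • T ^ (d - 1) with ha'
  have hcommT : ∀ X, Commute X T → Commute X θ → Commute X e ∧ Commute X f := fun X hX hXθ =>
    hcomm X hXθ (hX.smul_right ε) (hinv X hX).symm
  have hTef := hcommT T (Commute.refl T) hcT.symm
  have hTef' := hcommT (T ^ (d - 1)) ((Commute.refl T).pow_left _) (hcT.symm.pow_left _)
  have hae : Commute a e := hTef.1.smul_left ε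
  have haf : Commute a f := hTef.2.smul_left ε
  have ha'e : Commute a' e := hTef'.1.smul_left ε
  have ha'f : Commute a' f := hTef'.2.smul_left ε
  have haa : a * a' = 1 := by
    rw [ha, ha', smul_mul_assoc, mul_smul_comm, smul_smul, hεε, one_smul, hTd]
  have haa' : Commute a a' :=
    (((Commute.refl T).pow_right (d - 1)).smul_left ε).smul_right ε
  have hθθ : θ * (e + a' * f) = 1 := by
    have h3 : e * (a' * f) = 0 := by rw [← mul_assoc, ← ha'e.eq, mul_assoc, h1, mul_zero]
    have h4 : a * f * e = 0 := by rw [mul_assoc, h2, mul_zero]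
    have h5 : a * f * (a' * f) = f := by
      rw [← mul_assoc, mul_assoc a, ← ha'f.eq, ← mul_assoc, haa, one_mul, hf]
    rw [hθef, add_mul, mul_add, mul_add, he, h3, h4, h5, add_zero, zero_add, hef]
  have hpow : ∀ n, θ ^ n = e + a ^ n * f := fun n => by
    rw [hθef]
    exact pow_split h1 h2 he hf hef hae haf n
  have hpow' : ∀ n, (e + a' * f) ^ n = e + a' ^ n * f := fun n =>
    pow_split h1 h2 he hf hef ha'e ha'f n
  rcases hP.sign j with hi | hi
  · -- reflection
    have hε1 : ε = 1 := by rw [hε, hi]; norm_num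
    have haT : a = T := by rw [ha, hε1, one_smul]
    have ha'T : a' = T ^ (d - 1) := by rw [ha', hε1, one_smul]
    rw [hε1] at hQs hrel ⊢
    have hcq : c * q = -2 := by linear_combination hrel
    have hγγ : γ * γ = 1 := by
      rw [hγE, add_mul, one_mul, mul_add, mul_one, smul_mul_assoc, mul_smul_comm, EE_mul_EE,
        smul_smul, smul_smul, ← hq, mul_assoc, hcq]
      module
    have hsum : ∑ m ∈ range d, a ^ (2 * m) = 0 := by
      have h3 : ∀ m, a ^ (2 * m) = (T ^ 2) ^ m := fun m => by rw [haT, pow_mul]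
      simp only [h3]
      apply geom_zero
      · rw [← pow_mul, mul_comm, pow_mul, hT.order, one_pow]
      · exact hT.noreal
    have hsum' : ∑ m ∈ range d, a' ^ (2 * m) = 0 := by
      have h3 : ∀ m, a' ^ (2 * m) = (a' ^ 2) ^ m := fun m => by rw [pow_mul]
      simp only [h3]
      apply geom_zero
      · have h4 : (a' ^ 2) ^ d = (T ^ d) ^ ((d - 1) * 2) := by
          rw [ha'T, ← pow_mul, ← pow_mul, ← pow_mul]
          congr 1
          ring
        rw [h4, hT.order, one_pow]
      · have h4 : a' ^ 2 - 1 = a' ^ 2 * (-(T ^ 2 - 1)) := by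
          have h5 : a' ^ 2 * T ^ 2 = 1 := by
            rw [← haT, ← haa'.symm.mul_pow, ← haa'.eq, haa, one_pow]
          rw [mul_neg, mul_sub, h5, mul_one]
          abel
        have h6 : IsUnit (a' ^ 2).det := by
          rw [det_pow]
          apply IsUnit.pow
          have h7 : IsUnit (a * a').det := by rw [haa, det_one]; exact isUnit_one
          rw [det_mul] at h7
          exact isUnit_of_mul_isUnit_right h7
        rw [h4, det_mul, det_neg]
        exact h6.mul (((isUnit_one.neg).pow _).mul hT.noreal)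
    refine full_even_of hL hirr hQs hδ hcq ?_ hv hz
    intro b hb
    obtain ⟨X, Y, hX, hb2⟩ := exists_tens hT.comm hb
    have hXT : Commute T X := hX.symm
    have hbX : (b.1, tens k X Y) ∈ mm U w (fun u => tens k (x u) (y u)) := by
      rw [← hb2]
      exact hb
    obtain ⟨Z, hZ, hZ2⟩ := avg_split (X := X) h1 h2 he hf hae haf ha'e ha'f
      (by rw [haT]; exact hXT) (by rw [ha'T]; exact hXT.pow_left _) haa haa' hsum hsum'
    have hγpow : ∀ m, γ ^ (2 * m) = 1 := fun m => by rw [pow_mul, pow_two, hγγ, one_pow]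
    have h5 : ((d : ℚ) • b.1, tens k Z ((d : ℚ) • Y)) ∈
        mm U w (fun u => tens k (x u) (y u)) := by
      have h6 : ∀ m ∈ range d, (b.1, tens k ((e + a ^ (2 * m) * f) * X *
          (e + a' ^ (2 * m) * f)) Y) ∈ mm U w (fun u => tens k (x u) (y u)) := by
        intro m _
        have h7 := conj_pow_mem hγγ hθθ hmon hbX (2 * m)
        rw [hγpow, one_mul, mul_one, hpow, hpow'] at h7
        exact h7
      have h8 : ∀ n : ℕ, ((n : ℚ) • b.1, tens k (∑ m ∈ range n, (e + a ^ (2 * m) * f) * X *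
          (e + a' ^ (2 * m) * f)) ((n : ℚ) • Y)) ∈ mm U w (fun u => tens k (x u) (y u)) ∨
          d < n := by
        intro n
        induction n with
        | zero =>
          left
          rw [Nat.cast_zero, zero_smul, zero_smul, Finset.range_zero, Finset.sum_empty, tens_zero]
          exact Submodule.zero_mem _
        | succ n ih =>
          by_cases hn : n < d
          · rcases ih with ih | ih
            · left
              have h9 := Submodule.add_mem _ ih (h6 n (Finset.mem_range.2 hn))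
              rw [Prod.mk_add_mk, ← tens_add] at h9
              rw [Finset.sum_range_succ, Nat.cast_succ, add_smul, one_smul, add_smul, one_smul]
              exact h9
            · right
              omega
          · right
            omega
      rcases h8 d with h9 | h9
      · rw [hZ] at h9
        exact h9
      · exact absurd h9 (lt_irrefl d)
    have h6 := conj_pow_mem hγγ hθθ hmon h5 1
    simp only [pow_one] at h6
    rw [hθef, hZ2] at h6
    have h7 := Submodule.sub_mem _ h6 h5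
    rw [Prod.mk_sub_mk, sub_self] at h7
    have h8 : (d : ℚ) • (γ * b.1 * γ - b.1) ∈ K1 (mm U w (fun u => tens k (x u) (y u))) := by
      rw [mem_K1]
      convert h7 using 2
      rw [smul_sub, mul_smul_comm, smul_mul_assoc]
    rw [Submodule.smul_mem_iff _ (Nat.cast_ne_zero.2 hd.ne')] at h8
    rw [← hγE]
    exact h8
  · -- transvection
    have hε1 : ε = -1 := by rw [hε, hi]; norm_num
    rw [hε1] at hQs hrel ⊢
    have hq0 : q = 0 := by
      have : c * q = 0 := by linear_combination hrel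
      rcases mul_eq_zero.1 this with h | h
      · exact absurd h hc0
      · exact h
    have hEE : EE Q' δ δ * EE Q' δ δ = 0 := by rw [EE_mul_EE, ← hq, hq0, zero_smul]
    have hpowE : ∀ (r : ℚ) (n : ℕ), (1 + r • EE Q' δ δ) ^ n = 1 + (n * r) • EE Q' δ δ := by
      intro r n
      induction n with
      | zero => simp
      | succ n ih =>
        rw [pow_succ, ih, add_mul, one_mul, smul_mul_assoc, mul_add, mul_one, mul_smul_comm, hEE]
        push_cast
        module
    have hγγ : γ * (1 + (-c) • EE Q' δ δ) = 1 := by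
      rw [hγE, add_mul, one_mul, smul_mul_assoc, mul_add, mul_one, mul_smul_comm, hEE, smul_zero,
        add_zero]
      module
    have hc1 : ((2 * d : ℕ) : ℚ) * c ≠ 0 :=
      mul_ne_zero (Nat.cast_ne_zero.2 (by omega)) hc0
    refine full_odd_of hL hirr (trnd hW hP hu j) hQb hQs hdet hδ hδ0 hc1 hq0 ?_ hv hz
    intro b hb
    obtain ⟨X, Y, hX, hb2⟩ := exists_tens hT.comm hb
    have hbX : (b.1, tens k X Y) ∈ mm U w (fun u => tens k (x u) (y u)) := by
      rw [← hb2]
      exact hb
    have h3 := conj_pow_mem hγγ hθθ hmon hbX (2 * d)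
    have haT : a ^ (2 * d) = 1 := by
      rw [ha, hε1, neg_one_smul, Even.neg_pow (even_two_mul d), mul_comm, pow_mul, hT.order,
        one_pow]
    have ha'T : a' ^ (2 * d) = 1 := by
      have : a ^ (2 * d) * a' ^ (2 * d) = 1 := by rw [← haa'.mul_pow, haa, one_pow]
      rwa [haT, one_mul] at this
    rw [hpow, hpow', haT, ha'T, one_mul, hef, one_mul, mul_one, ← hb2, hγE, hpowE, hpowE] at h3
    have h4 := Submodule.sub_mem _ h3 hb
    rw [mem_K1]
    convert h4 using 1
    apply Prod.ext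
    · show _ = _ - b.1
      rw [mul_neg]
    · show (0 : Matrix _ _ ℚ) = b.2 - b.2
      rw [sub_self]

end Pool.Agent.H842.CW
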