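import Pool.Graph.R_pool_sql_team_seeded_ab47071d.TH125.Nod.Main

/-!
# Tensor powers of variations of Hodge structure
-/

open Matrix Finset Function

namespace Pool.Agent.H842.CW

set_option linter.unusedSectionVars false

open Pool.Agent.TH125.Nod

/-- The operator `X ⊗ 1 ⊗ ⋯ ⊗ 1 + ⋯ + 1 ⊗ ⋯ ⊗ X ⊗ 1 + 1 ⊗ ⋯ ⊗ 1 ⊗ Y` on `V ⊗ ⋯ ⊗ V ⊗ D` (`k` factors
`V`): the Hodge operator of this tensor product, if `X` and `Y` are the Hodge operators of `V` and
`D`. The vectors of the standard basis are indexed by `(Fin k → B) × D`. -/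
def tens {B D : Type} [DecidableEq B] [DecidableEq D] {R : Type} [Ring R] (k : ℕ)
    (X : Matrix B B R) (Y : Matrix D D R) : Matrix ((Fin k → B) × D) ((Fin k → B) × D) R :=
  fun p q => (∑ j, if p.1 = update q.1 j (p.1 j) ∧ p.2 = q.2 then X (p.1 j) (q.1 j) else 0) +
    if p.1 = q.1 then Y p.2 q.2 else 0

section
variable {B D : Type} [Fintype B] [DecidableEq B] [Fintype D] [DecidableEq D] {k : ℕ}
  {R : Type} [Field R]

/-- tensor product of matrices -/
def pw (k : ℕ) (P : Matrix B B R) (N : Matrix D D R) :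
    Matrix ((Fin k → B) × D) ((Fin k → B) × D) R :=
  fun p q => (∏ j, P (p.1 j) (q.1 j)) * N p.2 q.2

theorem vecMul_pw (P : Matrix B B R) (N : Matrix D D R) (F : (Fin k → B) × D → R) :
    F ᵥ* pw k P N = fun q => pul P N (fun J l => F (J, l)) q.1 q.2 := by
  funext q
  show ∑ p, F p * ((∏ j, P (p.1 j) (q.1 j)) * N p.2 q.2) = _
  rw [Fintype.sum_prod_type]
  unfold pul
  exact Finset.sum_congr rfl fun I _ => Finset.sum_congr rfl fun m _ => by ring

theorem vecMul_tens (X : Matrix B B R) (Y : Matrix D D R) (F : (Fin k → B) × D → R) :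
    F ᵥ* tens k X Y = fun q => act (X, Y) (fun J l => F (J, l)) q.1 q.2 := by
  funext q
  obtain ⟨J, l⟩ := q
  show ∑ p, F p * ((∑ j, if p.1 = update J j (p.1 j) ∧ p.2 = l then X (p.1 j) (J j) else 0) +
    if p.1 = J then Y p.2 l else 0) = _
  rw [act_apply]
  simp only [mul_add, Finset.sum_add_distrib]
  congr 1
  · simp only [Finset.mul_sum]
    rw [Finset.sum_comm]
    refine Finset.sum_congr rfl fun j _ => ?_
    rw [Fintype.sum_prod_type]
    have h1 : ∀ I : Fin k → B, ∑ m : D, F (I, m) *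
        (if I = update J j (I j) ∧ m = l then X (I j) (J j) else 0) =
        if I = update J j (I j) then F (I, l) * X (I j) (J j) else 0 := by
      intro I
      by_cases hI : I = update J j (I j)
      · rw [if_pos hI, Finset.sum_eq_single l]
        · rw [if_pos ⟨hI, rfl⟩]
        · intro m _ hm
          rw [if_neg (fun h => hm h.2), mul_zero]
        · intro h
          exact absurd (Finset.mem_univ _) h
      · rw [if_neg hI]
        refine Finset.sum_eq_zero fun m _ => ?_
        rw [if_neg (fun h => hI h.1), mul_zero]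
    simp only [h1]
    rw [← Finset.sum_filter]
    refine Finset.sum_bij' (fun I _ => I j) (fun p _ => update J j p) (fun _ _ => Finset.mem_univ _)
      (fun p _ => ?_) (fun I hI => ?_) (fun p _ => ?_) (fun I hI => ?_)
    · rw [Finset.mem_filter]
      exact ⟨Finset.mem_univ _, by rw [update_self]⟩
    · exact (Finset.mem_filter.1 hI).2.symm
    · exact update_self _ _ _
    · have h2 := (Finset.mem_filter.1 hI).2
      show F (I, l) * X (I j) (J j) = X (I j) (J j) * F (update J j (I j), l)
      rw [← h2, mul_comm]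
  · rw [Fintype.sum_prod_type, Finset.sum_eq_single J]
    · exact Finset.sum_congr rfl fun m _ => by rw [if_pos rfl, mul_comm]
    · intro I _ hI
      refine Finset.sum_eq_zero fun m _ => ?_
      rw [if_neg hI, mul_zero]
    · intro h
      exact absurd (Finset.mem_univ _) h

theorem ext_vecMul {A : Type} [Fintype A] [DecidableEq A] {M N : Matrix A A R}
    (h : ∀ F : A → R, F ᵥ* M = F ᵥ* N) : M = N := by
  ext p q
  have := congrFun (h (Pi.single p 1)) q
  rw [single_one_vecMul, single_one_vecMul] at this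
  exact this

theorem pw_mul (P P' : Matrix B B R) (N N' : Matrix D D R) :
    pw k P N * pw k P' N' = pw k (P * P') (N * N') := by
  apply ext_vecMul
  intro F
  rw [← vecMul_vecMul, vecMul_pw, vecMul_pw, vecMul_pw]
  funext q
  exact congrFun (congrFun (pul_pul P P' N N' _) q.1) q.2

theorem pw_one : pw k (1 : Matrix B B R) (1 : Matrix D D R) = 1 := by
  apply ext_vecMul
  intro F
  rw [vecMul_pw, vecMul_one, pul_one]

theorem tens_pw {P : Matrix B B R} {N : Matrix D D R} {X X' : Matrix B B R} {Y Y' : Matrix D D R}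
    (hX : X * P = P * X') (hY : Y * N = N * Y') :
    tens k X Y * pw k P N = pw k P N * tens k X' Y' := by
  apply ext_vecMul
  intro F
  rw [← vecMul_vecMul, ← vecMul_vecMul, vecMul_pw, vecMul_tens, vecMul_tens, vecMul_pw]
  funext q
  exact congrFun (congrFun (pul_act hX hY _) q.1) q.2

theorem tens_add (X X' : Matrix B B R) (Y Y' : Matrix D D R) :
    tens k (X + X') (Y + Y') = tens k X Y + tens k X' Y' := by
  ext p q
  show (∑ j, if p.1 = update q.1 j (p.1 j) ∧ p.2 = q.2 then (X + X') (p.1 j) (q.1 j) else 0) +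
    (if p.1 = q.1 then (Y + Y') p.2 q.2 else 0) =
    ((∑ j, if p.1 = update q.1 j (p.1 j) ∧ p.2 = q.2 then X (p.1 j) (q.1 j) else 0) +
    (if p.1 = q.1 then Y p.2 q.2 else 0)) +
    ((∑ j, if p.1 = update q.1 j (p.1 j) ∧ p.2 = q.2 then X' (p.1 j) (q.1 j) else 0) +
    (if p.1 = q.1 then Y' p.2 q.2 else 0))
  rw [add_add_add_comm, ← Finset.sum_add_distrib]
  congr 1
  · refine Finset.sum_congr rfl fun j _ => ?_
    split_ifs
    · rfl
    · rw [add_zero]
  · split_ifs
    · rfl
    · rw [add_zero]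

theorem tens_map {S : Type} [Field S] (f : R → S) (h0 : f 0 = 0)
    (hadd : ∀ a b, f (a + b) = f a + f b) (X : Matrix B B R) (Y : Matrix D D R) :
    (tens k X Y).map f = tens k (X.map f) (Y.map f) := by
  ext p q
  have hsum : ∀ (s : Finset (Fin k)) (g : Fin k → R), f (∑ j ∈ s, g j) = ∑ j ∈ s, f (g j) := by
    intro s g
    induction s using Finset.induction_on with
    | empty => simpa using h0
    | insert a s ha ih => rw [Finset.sum_insert ha, Finset.sum_insert ha, hadd, ih]
  show f ((∑ j, if p.1 = update q.1 j (p.1 j) ∧ p.2 = q.2 then X (p.1 j) (q.1 j) else 0) +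
    (if p.1 = q.1 then Y p.2 q.2 else 0)) =
    (∑ j, if p.1 = update q.1 j (p.1 j) ∧ p.2 = q.2 then f (X (p.1 j) (q.1 j)) else 0) +
    (if p.1 = q.1 then f (Y p.2 q.2) else 0)
  rw [hadd, hsum]
  congr 1
  · refine Finset.sum_congr rfl fun j _ => ?_
    split_ifs
    · rfl
    · exact h0
  · split_ifs
    · rfl
    · exact h0

theorem tens_smul (c : R) (X : Matrix B B R) (Y : Matrix D D R) :
    tens k (c • X) (c • Y) = c • tens k X Y := by
  have h := tens_map (k := k) (fun a : R => c * a) (mul_zero c) (mul_add c) X Y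
  ext p q
  exact (congrFun (congrFun h p) q).symm

theorem tens_zero : tens k (0 : Matrix B B R) (0 : Matrix D D R) = 0 := by
  have := tens_smul (k := k) (0 : R) (0 : Matrix B B R) (0 : Matrix D D R)
  rwa [zero_smul, zero_smul, zero_smul] at this

theorem tens_neg (X : Matrix B B R) (Y : Matrix D D R) :
    tens k (-X) (-Y) = - tens k X Y := by
  have := tens_smul (k := k) (-1 : R) X Y
  rwa [neg_one_smul, neg_one_smul, neg_one_smul] at this

theorem tens_sub (X X' : Matrix B B R) (Y Y' : Matrix D D R) :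
    tens k (X - X') (Y - Y') = tens k X Y - tens k X' Y' := by
  rw [sub_eq_add_neg, sub_eq_add_neg, tens_add, tens_neg, sub_eq_add_neg]

theorem tens_bracket (X X' : Matrix B B R) (Y Y' : Matrix D D R) :
    tens k X Y * tens k X' Y' - tens k X' Y' * tens k X Y =
      tens k (X * X' - X' * X) (Y * Y' - Y' * Y) := by
  apply ext_vecMul
  intro F
  rw [vecMul_sub, ← vecMul_vecMul, ← vecMul_vecMul, vecMul_tens, vecMul_tens, vecMul_tens,
    vecMul_tens, vecMul_tens]
  funext q
  have h := LinearMap.congr_fun (act_bracket (k := k) (X', Y') (X, Y)) (fun J l => F (J, l))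
  exact congrFun (congrFun h q.1) q.2

theorem tens_diagonal (d : B → R) (d' : D → R) :
    tens k (diagonal d) (diagonal d') = diagonal (fun p => ∑ j, d (p.1 j) + d' p.2) := by
  apply ext_vecMul
  intro F
  rw [vecMul_tens]
  funext q
  rw [act_apply, vecMul_diagonal, mul_add, Finset.mul_sum]
  congr 1
  · refine Finset.sum_congr rfl fun j _ => ?_
    show ∑ p, diagonal d p (q.1 j) * F (update q.1 j p, q.2) = F q * d (q.1 j)
    rw [Finset.sum_eq_single (q.1 j)]
    · rw [diagonal_apply_eq, update_eq_self, mul_comm]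
    · intro p _ hp
      rw [diagonal_apply_ne _ hp, zero_mul]
    · intro h
      exact absurd (Finset.mem_univ _) h
  · show ∑ m, diagonal d' m q.2 * F (q.1, m) = F q * d' q.2
    rw [Finset.sum_eq_single q.2]
    · rw [diagonal_apply_eq, mul_comm]
    · intro p _ hp
      rw [diagonal_apply_ne _ hp, zero_mul]
    · intro h
      exact absurd (Finset.mem_univ _) h

end

variable {B D : Type} [Fintype B] [DecidableEq B] [Fintype D] [DecidableEq D] {k : ℕ}

theorem filtered_pw {d : B → ℤ} {d' : D → ℤ} {N : Matrix B B ℂ} {N' : Matrix D D ℂ}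
    (h : Filtered d N) (h' : Filtered d' N') :
    Filtered (fun p : (Fin k → B) × D => ∑ j, d (p.1 j) + d' p.2) (pw k N N') := by
  intro p q hpq
  show (∏ j, N (p.1 j) (q.1 j)) * N' p.2 q.2 = 0
  by_cases h1 : ∃ j, d (p.1 j) < d (q.1 j)
  · obtain ⟨j, hj⟩ := h1
    rw [Finset.prod_eq_zero (Finset.mem_univ j) (h _ _ hj), zero_mul]
  · push Not at h1
    have h2 : d' p.2 < d' q.2 := by
      have h3 : ∑ j, d (q.1 j) ≤ ∑ j, d (p.1 j) := Finset.sum_le_sum fun j _ => h1 j
      have h4 : ∑ j, d (p.1 j) + d' p.2 < ∑ j, d (q.1 j) + d' q.2 := hpq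
      linarith
    rw [h' _ _ h2, mul_zero]

/-- the tensor product of variations of Hodge structure -/
theorem isVHS_tens {E : Type} [NormedAddCommGroup E] [NormedSpace ℂ E] {U : Set E}
    {x : E → Matrix B B ℂ} {y : E → Matrix D D ℂ} (hx : IsVHS U x) (hy : IsVHS U y) (k : ℕ) :
    IsVHS U (fun u => tens k (x u) (y u)) := by
  obtain ⟨g, d, hg, hfr⟩ := hx.frame
  obtain ⟨g', d', hg', hfr'⟩ := hy.frame
  refine ⟨fun u hu => ?_, fun u => pw k (g u) (g' u), fun p => ∑ j, d (p.1 j) + d' p.2, ?_, ?_⟩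
  · show (tens k (x u) (y u)).map (starRingEnd ℂ) = - tens k (x u) (y u)
    rw [tens_map (fun z => starRingEnd ℂ z) (map_zero _) (map_add _)]
    have h1 : (x u).map (fun z => starRingEnd ℂ z) = - x u := hx.real u hu
    have h2 : (y u).map (fun z => starRingEnd ℂ z) = - y u := hy.real u hu
    rw [h1, h2, tens_neg]
  · intro p q
    exact AnalyticOnNhd.mul (Finset.analyticOnNhd_fun_prod _ fun j _ => hg _ _) (hg' _ _)
  · intro u hu
    obtain ⟨P, N, N', hPu, hxP, hgP, hPg, hN, hN'⟩ := hfr u hu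
    obtain ⟨P1, L, L', hPu1, hyP, hgP1, hPg1, hL, hL'⟩ := hfr' u hu
    refine ⟨pw k P P1, pw k N L, pw k N' L', ?_, ?_, ?_, ?_, filtered_pw hN hL, filtered_pw hN' hL'⟩
    · refine isUnit_det_of_right_inverse (B := pw k P⁻¹ P1⁻¹) ?_
      rw [pw_mul, mul_nonsing_inv _ hPu, mul_nonsing_inv _ hPu1, pw_one]
    · rw [tens_pw hxP hyP, tens_diagonal]
      congr 2
      funext p
      push_cast
      rfl
    · show pw k (g u) (g' u) = pw k P P1 * pw k N L
      rw [pw_mul, ← hgP, ← hgP1]
    · show pw k P P1 = pw k (g u) (g' u) * pw k N' L'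
      rw [pw_mul, ← hPg, ← hPg1]

end Pool.Agent.H842.CW
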