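import Pool.Agent.H842.CR.Vhc
import Pool.Agent.H842.CW.Final

/-!
# Flat classes when there is no numerical relation
-/

set_option linter.unusedSectionVars false

open Matrix Finset Function

namespace Pool.Agent.H842.CW

open Pool.Agent.TH125.Nod Pool.Agent.H842.CR

section
variable {E : Type} [NormedAddCommGroup E] [NormedSpace ℂ E] {U : Set E}
  {ι B D : Type} [Fintype ι] [DecidableEq ι] [Fintype B] [DecidableEq B]
  [Fintype D] [DecidableEq D] {κ : B → ι} {s : ι → ℤ} {Q T : Matrix B B ℚ} {d k : ℕ}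
  {x : E → Matrix B B ℂ} {y : E → Matrix D D ℂ}

/-- all degrees, when there is no numerical relation -/
theorem gen_norel (hV : IsVHS U x) (hP : IsPolarized U κ s Q x) (hT : IsAut U κ Q x T d)
    (hR : ∀ i, HasReflection U κ Q x y T i) {u : E} (hu : u ∈ U) {f : (Fin k → B) → D → ℚ}
    (hact : ∀ u ∈ U, act (x u, y u) (cx f) = 0) (hN : NoChar U y) {S : ι → ZMod d → ℚ}
    (hS : ∃ u ∈ U, HasHodgeSums κ T (x u) d S) (hNR : NoRelation κ T d S) :
    (∀ l, (fun J => f J l) ∈ P0T κ Q T k) ∧ (∀ a ∈ mm U x y, act a f = 0) ∧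
      IsLie κ Q (mm U x y) ∧ ∀ a ∈ mm U x y, a.1 * T = T * a.1 := by
  have : NeZero d := ⟨hT.pos.ne'⟩
  have hkill : ∀ a ∈ mm U x y, act a f = 0 := fun a ha => act_mm hact ha
  have hG := glob_mm ⟨u, hu⟩ hV hP hT hR
  refine ⟨fun l => ?_, hkill, hG.lie, hG.comm⟩
  have h1 := span_num_T (fun K w hw => no_numerical hNR hw)
    (num_main hV hP hT hR hN hS hu hact)
  clear hact hkill
  induction h1 using Submodule.span_induction with
  | mem g hg =>
    obtain ⟨m, e, c, a, h, -, rfl⟩ := hg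
    have : (fun J : Fin k → B => (∏ t, block κ (Q * T ^ a t) (c t) (J (e (t, 0))) (J (e (t, 1)))) *
        h l) = h l • prdT κ Q T e c a := by
      funext J
      rw [Pi.smul_apply, smul_eq_mul, mul_comm]
      rfl
    rw [this]
    exact Submodule.smul_mem _ _ (Submodule.subset_span ⟨m, e, c, a, rfl⟩)
  | zero => exact Submodule.zero_mem _
  | add f g _ _ h h' => exact Submodule.add_mem _ h h'
  | smul r f _ h => exact Submodule.smul_mem _ r h

theorem saw_norel {x0 : Matrix B B ℂ} {q : ι → ℕ} {C : ι → ℚ} (hd : 0 < d) (hT : T ^ d = 1)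
    (hnr : IsUnit (T ^ 2 - 1).det) (hC : HasSawTypes κ T x0 q C)
    (hq : ∀ i, q i = 4 ∨ ((q i).Prime ∧ q i ≠ 2)) (hinj : Injective q) (hC0 : ∀ i, C i ≠ 0) :
    ∃ S, HasHodgeSums κ T x0 d S ∧ NoRelation κ T d S := by
  have : NeZero d := ⟨hd.ne'⟩
  obtain ⟨S, hS1, hS2⟩ := exists_sums (fun i => by
    rcases hq i with h | h
    · omega
    · exact h.1.ne_zero) hT hnr hC
  exact ⟨S, hS1, noRelation_of hq hinj hC0 hS2⟩

theorem cover_norel {x0 : Matrix B B ℂ} {q m n : ι → ℕ} (hd : 0 < d) (hT : T ^ d = 1)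
    (hnr : IsUnit (T ^ 2 - 1).det) (hq : ∀ i, 3 ≤ q i ∧ 0 < m i ∧ 0 < n i)
    (hC : IsCover κ T x0 q m n) (hinj : Injective q)
    (hq' : ∀ i, (q i = 4 ∨ (q i).Prime) ∧ ¬ (n i = 2 ∧ q i * m i = 3)) :
    ∃ S, HasHodgeSums κ T x0 d S ∧ NoRelation κ T d S := by
  refine saw_norel hd hT hnr (hC.hasSawTypes (fun i => by have := (hq i).1; omega)
    fun i => (hq i).2.1) (fun i => ?_) hinj
    (fun i => Cst_ne' (hq i).1 (hq i).2.1 (hq i).2.2 (hq' i).2)
  rcases (hq' i).1 with h | h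
  · exact Or.inl h
  · exact Or.inr ⟨h, by have := (hq i).1; omega⟩

/-- the cases in which there is no relation -/
theorem norel_of_cases (hT : IsAut U κ Q x T d)
    (h : (∃ u ∈ U, ∃ S : ι → ZMod d → ℚ, HasHodgeSums κ T (x u) d S ∧ NoRelation κ T d S) ∨
      ∃ q : ι → ℕ, (∀ i, q i = 4 ∨ (q i).Prime ∧ q i ≠ 2) ∧ Injective q ∧
        ((∃ C : ι → ℚ, (∀ i, C i ≠ 0) ∧ ∃ u ∈ U, HasSawTypes κ T (x u) q C) ∨
          ∃ m n : ι → ℕ, (∀ i, 0 < m i ∧ 0 < n i ∧ ¬ (n i = 2 ∧ q i * m i = 3)) ∧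
            ∃ u ∈ U, IsCover κ T (x u) q m n)) :
    ∃ S : ι → ZMod d → ℚ, (∃ u ∈ U, HasHodgeSums κ T (x u) d S) ∧ NoRelation κ T d S := by
  rcases h with ⟨u, hu, S, h1, h2⟩ | ⟨q, hq, hinj, ⟨C, hC, u, hu, hS⟩ | ⟨m, n, hmn, u, hu, hS⟩⟩
  · exact ⟨S, ⟨u, hu, h1⟩, h2⟩
  · obtain ⟨S, h1, h2⟩ := saw_norel hT.pos hT.order hT.noreal hS hq hinj hC
    exact ⟨S, ⟨u, hu, h1⟩, h2⟩
  · have hq3 : ∀ i, 3 ≤ q i := by
      intro i
      rcases hq i with h | ⟨h, h'⟩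
      · omega
      · have := h.two_le
        omega
    have hq4 : ∀ i, q i = 4 ∨ (q i).Prime := by
      intro i
      rcases hq i with h | ⟨h, h'⟩
      · exact Or.inl h
      · exact Or.inr h
    obtain ⟨S, h1, h2⟩ := cover_norel hT.pos hT.order hT.noreal
      (fun i => ⟨hq3 i, (hmn i).1, (hmn i).2.1⟩) hS hinj (fun i => ⟨hq4 i, (hmn i).2.2⟩)
    exact ⟨S, ⟨u, hu, h1⟩, h2⟩

end

end Pool.Agent.H842.CW
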